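import Pool.Agent.LFT.Base

set_option autoImplicit false
set_option linter.unusedSectionVars false

noncomputable section

open scoped InnerProductSpace ENNReal Topology
open Classical Filter ContinuousLinearMap

namespace Pool.Agent.LFT

open Pool.Agent.VN

section LF4Aux

variable {G : Type} [Group G] {Δ : Type} [MulAction G Δ] {ι : Type}

/-- cutting to a fibre of a quotient place map commutes with cutting to a saturated set -/
lemma LF4_cut_mem {V : Type} [MulAction G V] (α : Δ → V)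
    (hα : ∀ (g : G) δ, α (g • δ) = g • α δ) (d : ι → Δ) {L : Submodule ℂ (L2 ι G)}
    (hL : IsClosed (L : Set (L2 ι G))) (hl : Loc (pV fun i => α (d i)) L) {Y : Set Δ}
    (hY : ∀ ε ε', α ε = α ε' → (ε ∈ Y ↔ ε' ∈ Y)) {x : L2 ι G} (hx : x ∈ L) :
    cut (pV (G := G) d ⁻¹' Y) x ∈ L := by
  have hp : ∀ q : ι × G, pV (fun i => α (d i)) q = α (pV d q) := fun q =>
    (hα q.2 (d q.1)).symm
  refine mem_of_pieces hL hl fun w => ?_
  by_cases hw : ∃ ε ∈ Y, α ε = w
  · obtain ⟨ε, hε, hεw⟩ := hw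
    have h : cutF (pV fun i => α (d i)) w (cut (pV (G := G) d ⁻¹' Y) x)
        = cutF (pV fun i => α (d i)) w x := by
      ext q
      rw [cutF_apply, cutF_apply, cut_apply]
      by_cases h1 : pV (fun i => α (d i)) q = w
      · rw [if_pos h1, if_pos h1, if_pos]
        rw [hp q] at h1
        exact (hY _ _ (h1.trans hεw.symm)).mpr hε
      · rw [if_neg h1, if_neg h1]
    rw [h]
    exact hl x hx w
  · have h : cutF (pV fun i => α (d i)) w (cut (pV (G := G) d ⁻¹' Y) x) = 0 := by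
      ext q
      rw [cutF_apply, cut_apply]
      by_cases h1 : pV (fun i => α (d i)) q = w
      · rw [if_pos h1, if_neg]
        · rfl
        · rw [hp q] at h1
          exact fun h2 => hw ⟨_, h2, h1⟩
      · rw [if_neg h1]
        rfl
    rw [h]
    exact L.zero_mem

/-- the closed span of all the pieces of the elements of a subspace -/
def LF4_P (d : ι → Δ) (K : Submodule ℂ (L2 ι G)) : Submodule ℂ (L2 ι G) :=
  (⨆ δ : Δ, K.map (cutF (pV (G := G) d) δ).toLinearMap).topologicalClosure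

lemma LF4_piece_mem (d : ι → Δ) {K : Submodule ℂ (L2 ι G)} {x : L2 ι G} (hx : x ∈ K) (δ : Δ) :
    cutF (pV d) δ x ∈ LF4_P d K := by
  apply Submodule.le_topologicalClosure
  exact Submodule.mem_iSup_of_mem δ ⟨x, hx, rfl⟩

lemma LF4_P_le (d : ι → Δ) {K Q : Submodule ℂ (L2 ι G)} (hQ : IsClosed (Q : Set (L2 ι G)))
    (h : ∀ x ∈ K, ∀ δ, cutF (pV d) δ x ∈ Q) : LF4_P d K ≤ Q := by
  apply Submodule.topologicalClosure_minimal _ _ hQ
  refine iSup_le fun δ => ?_
  rintro _ ⟨x, hx, rfl⟩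
  exact h x hx δ

lemma LF4_ci (d : ι → Δ) {K : Submodule ℂ (L2 ι G)} (hK : CI K) : CI (LF4_P d K) := by
  refine ⟨Submodule.isClosed_topologicalClosure _, ?_⟩
  apply Invar.closure
  intro g x hx
  have h : (⨆ δ : Δ, K.map (cutF (pV (G := G) d) δ).toLinearMap)
      ≤ (⨆ δ : Δ, K.map (cutF (pV (G := G) d) δ).toLinearMap).comap (lt g).toLinearMap := by
    refine iSup_le fun δ => ?_
    rintro _ ⟨y, hy, rfl⟩
    rw [Submodule.mem_comap]
    have e : (lt g) (cutF (pV (G := G) d) δ y) = cutF (pV (G := G) d) (g • δ) (lt g y) :=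
      lt_cutV d g δ y
    show (lt g) (cutF (pV (G := G) d) δ y) ∈ _
    rw [e]
    exact Submodule.mem_iSup_of_mem (g • δ) ⟨lt g y, hK.inv g y hy, rfl⟩
  exact h hx

lemma LF4_loc (d : ι → Δ) (K : Submodule ℂ (L2 ι G)) : Loc (pV (G := G) d) (LF4_P d K) := by
  apply loc_closure
  intro x hx δ
  have h : (⨆ δ : Δ, K.map (cutF (pV (G := G) d) δ).toLinearMap)
      ≤ (⨆ δ : Δ, K.map (cutF (pV (G := G) d) δ).toLinearMap).comap
        (cutF (pV (G := G) d) δ).toLinearMap := by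
    refine iSup_le fun δ' => ?_
    rintro _ ⟨y, hy, rfl⟩
    rw [Submodule.mem_comap]
    show cutF (pV (G := G) d) δ (cutF (pV (G := G) d) δ' y) ∈ _
    rw [cutF_cutF]
    split_ifs
    · exact Submodule.mem_iSup_of_mem δ ⟨y, hy, rfl⟩
    · exact Submodule.zero_mem _
  exact h hx

lemma LF4_cut_P (d : ι → Δ) {K : Submodule ℂ (L2 ι G)} {x : L2 ι G} (hx : x ∈ K) (Y : Set Δ) :
    cut (pV (G := G) d ⁻¹' Y) x ∈ LF4_P d K := by
  refine mem_of_pieces (p := pV (G := G) d) (Submodule.isClosed_topologicalClosure _)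
    (LF4_loc d K) fun w => ?_
  by_cases hw : w ∈ Y
  · have h : cutF (pV (G := G) d) w (cut (pV (G := G) d ⁻¹' Y) x) = cutF (pV (G := G) d) w x := by
      ext q
      rw [cutF_apply, cutF_apply, cut_apply]
      by_cases h1 : pV (G := G) d q = w
      · rw [if_pos h1, if_pos h1, if_pos]
        show pV (G := G) d q ∈ Y
        rw [h1]
        exact hw
      · rw [if_neg h1, if_neg h1]
    rw [h]
    exact LF4_piece_mem d hx w
  · have h : cutF (pV (G := G) d) w (cut (pV (G := G) d ⁻¹' Y) x) = 0 := by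
      ext q
      rw [cutF_apply, cut_apply]
      by_cases h1 : pV (G := G) d q = w
      · rw [if_pos h1, if_neg]
        · rfl
        · show ¬ pV (G := G) d q ∈ Y
          rw [h1]
          exact hw
      · rw [if_neg h1]
        rfl
    rw [h]
    exact Submodule.zero_mem _

lemma LF4_le_P (d : ι → Δ) (K : Submodule ℂ (L2 ι G)) : K ≤ LF4_P d K := by
  intro x hx
  exact mem_of_pieces (p := pV (G := G) d) (Submodule.isClosed_topologicalClosure _)
    (LF4_loc d K) fun w => LF4_piece_mem d hx w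

lemma LF4_split (d : ι → Δ) {Y : Set Δ} {δ : Δ} (hδ : δ ∈ Y) (x : L2 ι G) :
    cutF (pV d) δ x = cut (pV (G := G) d ⁻¹' Y) x +
      ((x - cut (pV (G := G) d ⁻¹' (Y \ {δ})) x) - x) := by
  have h : cutF (pV d) δ x + cut (pV (G := G) d ⁻¹' (Y \ {δ})) x
      = cut (pV (G := G) d ⁻¹' Y) x := by
    ext q
    rw [lp.coeFn_add, Pi.add_apply, cutF_apply, cut_apply, cut_apply]
    by_cases h1 : pV (G := G) d q = δ
    · have h2 : q ∈ pV (G := G) d ⁻¹' Y := by
        show pV (G := G) d q ∈ Y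
        rw [h1]
        exact hδ
      have h3 : q ∉ pV (G := G) d ⁻¹' (Y \ {δ}) := fun h => h.2 h1
      rw [if_pos h1, if_neg h3, if_pos h2, add_zero]
    · by_cases h2 : q ∈ pV (G := G) d ⁻¹' Y
      · have h3 : q ∈ pV (G := G) d ⁻¹' (Y \ {δ}) := ⟨h2, h1⟩
        rw [if_neg h1, if_pos h3, if_pos h2, zero_add]
      · have h3 : q ∉ pV (G := G) d ⁻¹' (Y \ {δ}) := fun h => h2 h.1
        rw [if_neg h1, if_neg h3, if_neg h2, zero_add]
  rw [← h]
  abel

end LF4Aux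

theorem formula {G : Type} [Group G] {Δ V0 V1 : Type} [MulAction G Δ] [MulAction G V0]
    [MulAction G V1] (α0 : Δ → V0) (α1 : Δ → V1) (h0 : ∀ (g : G) δ, α0 (g • δ) = g • α0 δ)
    (h1 : ∀ (g : G) δ, α1 (g • δ) = g • α1 δ)
    (half : ∀ δ : Δ, ∃ Y : Set Δ, δ ∈ Y ∧ (∀ ε ε', α0 ε = α0 ε' → (ε ∈ Y ↔ ε' ∈ Y)) ∧
      (∀ ε ε', α1 ε = α1 ε' → ((ε ∈ Y ∧ ε ≠ δ) ↔ (ε' ∈ Y ∧ ε' ≠ δ))))
    {ι : Type} [Fintype ι] (d : ι → Δ) {K0 K1 : Submodule ℂ (L2 ι G)} (hK0 : CI K0) (hK1 : CI K1)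
    (hl0 : Loc (pV fun i => α0 (d i)) K0) (hl1 : Loc (pV fun i => α1 (d i)) K1) :
    ∃ P : Submodule ℂ (L2 ι G), CI P ∧ Loc (pV d) P ∧
      dm (K0 ⊓ K1) = dm (P ⊓ K0) + dm (P ⊓ K1) - dm P := by
  refine ⟨LF4_P d (K0 ⊓ K1), LF4_ci d (hK0.inf hK1), LF4_loc d _, ?_⟩
  set K := K0 ⊓ K1 with hK
  set P := LF4_P d K with hP
  have hPci : CI P := LF4_ci d (hK0.inf hK1)
  have hKP : K ≤ P := LF4_le_P d K
  have hsup : csup (P ⊓ K0) (P ⊓ K1) = P := by
    apply le_antisymm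
    · exact csup_le hPci.cl inf_le_left inf_le_left
    · apply LF4_P_le d (Submodule.isClosed_topologicalClosure _)
      intro x hx δ
      obtain ⟨Y, hδ, hY0, hY1⟩ := half δ
      have hY1' : ∀ ε ε', α1 ε = α1 ε' → (ε ∈ Y \ {δ} ↔ ε' ∈ Y \ {δ}) := fun ε ε' h => hY1 ε ε' h
      rw [LF4_split d hδ x]
      refine Submodule.add_mem _ ?_ (Submodule.sub_mem _ ?_ ?_)
      · apply le_csup_left
        exact ⟨LF4_cut_P d hx Y, LF4_cut_mem α0 h0 d hK0.cl hl0 hY0 hx.1⟩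
      · apply le_csup_right
        exact ⟨P.sub_mem (hKP hx) (LF4_cut_P d hx _),
          K1.sub_mem hx.2 (LF4_cut_mem α1 h1 d hK1.cl hl1 hY1' hx.2)⟩
      · apply le_csup_left
        exact ⟨hKP hx, hx.1⟩
  have h := dm_csup (hPci.inf hK0) (hPci.inf hK1)
  have h2 : (P ⊓ K0) ⊓ (P ⊓ K1) = K := by
    rw [inf_inf_inf_comm, inf_idem]
    exact inf_eq_right.mpr hKP
  rw [hsup, h2] at h
  linarith

end Pool.Agent.LFT
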