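import Pool.Agent.LFT.Sum

set_option autoImplicit false
set_option linter.unusedSectionVars false

noncomputable section

open scoped InnerProductSpace ENNReal Topology
open Classical Filter ContinuousLinearMap

namespace Pool.Agent.LFT

open Pool.Agent.VN

section LF1aux

variable {G : Type} [Group G]
variable {κ κ' ι : Type} [Fintype κ] [Fintype κ'] [Fintype ι]

/-- the vectors with given left and right parts -/
def LF1_both (X : Submodule ℂ (L2 κ G)) (Y : Submodule ℂ (L2 κ' G)) :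
    Submodule ℂ (L2 (κ ⊕ κ') G) :=
  X.comap (prL (κ := κ) (κ' := κ')).toLinearMap ⊓ Y.comap (prR (κ := κ) (κ' := κ')).toLinearMap

lemma LF1_mem_both {X : Submodule ℂ (L2 κ G)} {Y : Submodule ℂ (L2 κ' G)}
    {z : L2 (κ ⊕ κ') G} : z ∈ LF1_both X Y ↔ prL z ∈ X ∧ prR z ∈ Y := Iff.rfl

lemma LF1_equivar_prL : Equivar (prL : L2 (κ ⊕ κ') G →L[ℂ] L2 κ G) := by
  unfold prL crd
  exact mulR_equivar _

lemma LF1_equivar_prR : Equivar (prR : L2 (κ ⊕ κ') G →L[ℂ] L2 κ' G) := by
  unfold prR crd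
  exact mulR_equivar _

lemma LF1_equivar_inR : Equivar (inR : L2 κ' G →L[ℂ] L2 (κ ⊕ κ') G) := by
  unfold inR
  exact mulR_equivar _

lemma LF1_ci_both {X : Submodule ℂ (L2 κ G)} {Y : Submodule ℂ (L2 κ' G)} (hX : CI X)
    (hY : CI Y) : CI (LF1_both X Y) := by
  refine ⟨?_, ?_⟩
  · exact (hX.cl.preimage (prL (κ := κ) (κ' := κ')).continuous).inter
      (hY.cl.preimage (prR (κ := κ) (κ' := κ')).continuous)
  · intro s z hz
    rw [LF1_mem_both] at hz ⊢
    rw [LF1_equivar_prL s z, LF1_equivar_prR s z]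
    exact ⟨hX.inv s _ hz.1, hY.inv s _ hz.2⟩

/-- the dimension of a direct sum -/
lemma LF1_dm_both {X : Submodule ℂ (L2 κ G)} {Y : Submodule ℂ (L2 κ' G)} (hX : CI X)
    (hY : CI Y) : dm (LF1_both X Y) = dm X + dm Y := by
  have hB := LF1_ci_both hX hY
  have h1 := dm_imc LF1_equivar_prL hB
  have e1 : imc prL (LF1_both X Y) = X := by
    apply le_antisymm
    · exact imc_le hX.cl fun z hz => (LF1_mem_both.mp hz).1
    · intro x hx
      have h := mem_imc (prL (κ := κ) (κ' := κ')) (X := LF1_both X Y) (x := inL x)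
        (LF1_mem_both.mpr ⟨by rw [prL_inL]; exact hx, by rw [prR_inL]; exact Y.zero_mem⟩)
      rwa [prL_inL] at h
  have e2 : LF1_both X Y ⊓ kr prL = imc inR Y := by
    apply le_antisymm
    · rintro z ⟨hz, hz2⟩
      have hz3 : prL z = 0 := hz2
      have h := inL_prL_add z
      rw [hz3, map_zero, zero_add] at h
      rw [← h]
      exact mem_imc _ (LF1_mem_both.mp hz).2
    · apply imc_le (hB.inf (CI.kr LF1_equivar_prL)).cl
      intro y hy
      refine ⟨LF1_mem_both.mpr ⟨?_, ?_⟩, ?_⟩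
      · rw [prL_inR]
        exact X.zero_mem
      · rw [prR_inR]
        exact hy
      · exact prL_inR y
  have h2 := dm_imc (LF1_equivar_inR (κ := κ)) hY
  have e3 : Y ⊓ kr (inR (κ := κ) (κ' := κ') (G := G)) = ⊥ := by
    rw [eq_bot_iff]
    rintro y ⟨_, hy⟩
    have hy2 : inR (κ := κ) y = 0 := hy
    rw [Submodule.mem_bot, ← prR_inR (κ := κ) y, hy2, map_zero]
  rw [e3, dm_bot, add_zero] at h2
  rw [e1, e2, h2] at h1
  exact h1.symm

end LF1aux

section LF1main

variable {G : Type} [Group G] {k : Subring ℂ} {M : Type} [MulAction G M]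

lemma LF1_kr_pair {κ κ' μ μ' : Type} [Fintype κ] [Fintype κ'] [Fintype μ] [Fintype μ']
    (S : L2 κ G →L[ℂ] L2 μ G) (S' : L2 κ' G →L[ℂ] L2 μ' G) :
    kr (pairOp (S ∘L prL) (S' ∘L prR)) = LF1_both (kr S) (kr S') := by
  rw [kr_pairOp]
  rfl

end LF1main

theorem Rat.csup {G : Type} [Group G] {k : Subring ℂ} {M : Type} [MulAction G M] {ι : Type}
    [Fintype ι] {lab : ι → M} {X Y : Submodule ℂ (L2 ι G)} (hX : Rat k lab X) (hY : Rat k lab Y) :
    Rat k lab (csup X Y) := by
  obtain ⟨κ, μ, _, _, labκ, labμ, S, T, hS, hT, rfl⟩ := hX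
  obtain ⟨κ', μ', _, _, labκ', labμ', S', T', hS', hT', rfl⟩ := hY
  refine ⟨κ ⊕ κ', μ ⊕ μ', inferInstance, inferInstance, Sum.elim labκ labκ',
    Sum.elim labμ labμ', pairOp (S ∘L prL) (S' ∘L prR), T ∘L prL + T' ∘L prR,
    (hS.comp (LocOp.prL _ _)).pairOp (hS'.comp (LocOp.prR _ _)),
    (hT.comp (LocOp.prL _ _)).add (hT'.comp (LocOp.prR _ _)), ?_⟩
  rw [LF1_kr_pair]
  apply le_antisymm
  · apply csup_le (Submodule.isClosed_topologicalClosure _)
    · apply imc_le (Submodule.isClosed_topologicalClosure _)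
      intro x hx
      have h := mem_imc (T ∘L prL + T' ∘L prR) (X := LF1_both (LFT.kr S) (LFT.kr S'))
        (x := inL x) (LF1_mem_both.mpr ⟨by rw [prL_inL]; exact hx,
          by rw [prR_inL]; exact Submodule.zero_mem _⟩)
      rw [_root_.add_apply, ContinuousLinearMap.comp_apply, ContinuousLinearMap.comp_apply,
        prL_inL, prR_inL, map_zero, add_zero] at h
      exact h
    · apply imc_le (Submodule.isClosed_topologicalClosure _)
      intro x hx
      have h := mem_imc (T ∘L prL + T' ∘L prR) (X := LF1_both (LFT.kr S) (LFT.kr S'))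
        (x := inR x) (LF1_mem_both.mpr ⟨by rw [prL_inR]; exact Submodule.zero_mem _,
          by rw [prR_inR]; exact hx⟩)
      rw [_root_.add_apply, ContinuousLinearMap.comp_apply, ContinuousLinearMap.comp_apply,
        prL_inR, prR_inR, map_zero, zero_add] at h
      exact h
  · apply imc_le (Submodule.isClosed_topologicalClosure _)
    intro z hz
    rw [LF1_mem_both] at hz
    rw [_root_.add_apply, ContinuousLinearMap.comp_apply, ContinuousLinearMap.comp_apply]
    exact Submodule.add_mem _ (le_csup_left _ _ (mem_imc T hz.1))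
      (le_csup_right _ _ (mem_imc T' hz.2))

theorem Rat.inf {G : Type} [Group G] {k : Subring ℂ} {M : Type} [MulAction G M] {ι : Type}
    [Fintype ι] {lab : ι → M} {X Y : Submodule ℂ (L2 ι G)} (hX : Rat k lab X) (hY : Rat k lab Y) :
    Rat k lab (X ⊓ Y) := by
  obtain ⟨κ, μ, _, _, labκ, labμ, S, T, hS, hT, rfl⟩ := hX
  obtain ⟨κ', μ', _, _, labκ', labμ', S', T', hS', hT', rfl⟩ := hY
  have hD : LocOp k (Sum.elim labκ labκ') lab
      (T ∘L prL (κ' := κ') - T' ∘L prR (κ := κ) : L2 (κ ⊕ κ') G →L[ℂ] L2 ι G) :=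
    (hT.comp (LocOp.prL _ _)).sub (hT'.comp (LocOp.prR _ _))
  have hTL : LocOp k (Sum.elim labκ labκ') lab
      (T ∘L prL (κ' := κ') : L2 (κ ⊕ κ') G →L[ℂ] L2 ι G) := hT.comp (LocOp.prL _ _)
  refine ⟨κ ⊕ κ', (μ ⊕ μ') ⊕ ι, inferInstance, inferInstance, Sum.elim labκ labκ',
    Sum.elim (Sum.elim labμ labμ') lab,
    pairOp (pairOp (S ∘L prL) (S' ∘L prR)) (T ∘L prL - T' ∘L prR), T ∘L prL,
    ((hS.comp (LocOp.prL _ _)).pairOp (hS'.comp (LocOp.prR _ _))).pairOp hD, hTL, ?_⟩
  rw [kr_pairOp, LF1_kr_pair]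
  have cS : CI (LFT.kr S) := CI.kr hS.equivar
  have cS' : CI (LFT.kr S') := CI.kr hS'.equivar
  have cT : CI (LFT.kr T) := CI.kr hT.equivar
  have cT' : CI (LFT.kr T') := CI.kr hT'.equivar
  have cX : CI (LFT.imc T (LFT.kr S)) := CI.imc hT.equivar cS.inv
  have cY : CI (LFT.imc T' (LFT.kr S')) := CI.imc hT'.equivar cS'.inv
  have cZ := LF1_ci_both cS cS'
  set D : L2 (κ ⊕ κ') G →L[ℂ] L2 ι G := T ∘L prL - T' ∘L prR with hDdef
  set TL : L2 (κ ⊕ κ') G →L[ℂ] L2 ι G := T ∘L prL with hTLdef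
  set Z := LF1_both (LFT.kr S) (LFT.kr S') with hZdef
  have cW : CI (Z ⊓ LFT.kr D) := cZ.inf (CI.kr hD.equivar)
  have hDa : ∀ z, D z = T (prL z) - T' (prR z) := fun z => rfl
  have hTa : ∀ z, TL z = T (prL z) := fun z => rfl
  symm
  apply eq_of_le_of_dm (CI.imc hTL.equivar cW.inv) (cX.inf cY)
  · apply imc_le (cX.inf cY).cl
    rintro z ⟨hz, hz2⟩
    have hz3 : D z = 0 := hz2
    rw [hDa, sub_eq_zero] at hz3
    have hz : prL z ∈ LFT.kr S ∧ prR z ∈ LFT.kr S' := hz
    refine ⟨?_, ?_⟩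
    · rw [hTa]
      exact mem_imc T hz.1
    · rw [hTa, hz3]
      exact mem_imc T' hz.2
  · have a1 := dm_imc hD.equivar cZ
    have a2 := LF1_dm_both cS cS'
    have e1 : LFT.imc D Z = LFT.csup (LFT.imc T (LFT.kr S)) (LFT.imc T' (LFT.kr S')) := by
      apply le_antisymm
      · apply imc_le (Submodule.isClosed_topologicalClosure _)
        intro z hz
        rw [hDa]
        rw [LF1_mem_both] at hz
        exact Submodule.sub_mem _ (le_csup_left _ _ (mem_imc T hz.1))
          (le_csup_right _ _ (mem_imc T' hz.2))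
      · apply csup_le (Submodule.isClosed_topologicalClosure _)
        · apply imc_le (Submodule.isClosed_topologicalClosure _)
          intro x hx
          have h := mem_imc D (X := Z) (x := inL x) (LF1_mem_both.mpr
            ⟨by rw [prL_inL]; exact hx, by rw [prR_inL]; exact Submodule.zero_mem _⟩)
          rw [hDa, prL_inL, prR_inL, map_zero, sub_zero] at h
          exact h
        · apply imc_le (Submodule.isClosed_topologicalClosure _)
          intro x hx
          have h := mem_imc D (X := Z) (x := inR x) (LF1_mem_both.mpr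
            ⟨by rw [prL_inR]; exact Submodule.zero_mem _, by rw [prR_inR]; exact hx⟩)
          rw [hDa, prL_inR, prR_inR, map_zero, zero_sub] at h
          have h2 := Submodule.neg_mem _ h
          rwa [neg_neg] at h2
    have a3 := dm_imc hTL.equivar cW
    have e2 : (Z ⊓ LFT.kr D) ⊓ LFT.kr TL
        = LF1_both (LFT.kr S ⊓ LFT.kr T) (LFT.kr S' ⊓ LFT.kr T') := by
      ext z
      constructor
      · rintro ⟨⟨hz, hz2⟩, hz3⟩
        have hz2' : D z = 0 := hz2
        have hz3' : TL z = 0 := hz3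
        rw [hTa] at hz3'
        rw [hDa, hz3', zero_sub, neg_eq_zero] at hz2'
        have hz : prL z ∈ LFT.kr S ∧ prR z ∈ LFT.kr S' := hz
        exact LF1_mem_both.mpr ⟨⟨hz.1, hz3'⟩, ⟨hz.2, hz2'⟩⟩
      · intro hz
        rw [LF1_mem_both] at hz
        obtain ⟨⟨h1, h2⟩, ⟨h3, h4⟩⟩ := hz
        have h2' : T (prL z) = 0 := h2
        have h4' : T' (prR z) = 0 := h4
        refine ⟨⟨LF1_mem_both.mpr ⟨h1, h3⟩, ?_⟩, ?_⟩
        · show D z = 0
          rw [hDa, h2', h4', sub_zero]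
        · show TL z = 0
          rw [hTa, h2']
    have a4 := LF1_dm_both (cS.inf cT) (cS'.inf cT')
    have a5 := dm_imc hT.equivar cS
    have a6 := dm_imc hT'.equivar cS'
    have a7 := dm_csup cX cY
    rw [e1] at a1
    rw [e2] at a3
    linarith

end Pool.Agent.LFT
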