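import Pool.Agent.LFT.Sum

set_option autoImplicit false
set_option linter.unusedSectionVars false

noncomputable section

open scoped InnerProductSpace ENNReal Topology
open Classical Filter ContinuousLinearMap

namespace Pool.Agent.LFT

open Pool.Agent.VN

section LF2

variable {G : Type} [Group G] {k : Subring ℂ} {M : Type} [MulAction G M]

/-- the coordinates of a local system at the places in the orbit of a base point -/
lemma LF2_base {κ μ : Type} [Fintype κ] [Fintype μ] {lab : κ → M} {lab' : μ → M}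
    (A : μ → (κ × G →₀ ℂ)) (hk : ∀ j, CoefIn k (A j))
    (hA : ∀ j, ∀ p ∈ (A j).support, p.2⁻¹ • lab p.1 = lab' j) (b : M) :
    ∃ C : Set ({i : κ // ∃ g : G, g • b = lab i} × MulAction.stabilizer G b →₀ ℂ),
      C.Finite ∧ (∀ c ∈ C, ∀ p, c p ∈ k) ∧
      ∀ (_ : (Sol C).HasOrthogonalProjection)
        (_ : (Sol (Set.range A)).HasOrthogonalProjection)
        (i : {i : κ // ∃ g : G, g • b = lab i}),
        ‖(Sol (Set.range A)).starProjection (dl (i.1, (1 : G)))‖ ^ 2
          = ‖(Sol C).starProjection (dl (i, (1 : MulAction.stabilizer G b)))‖ ^ 2 := by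
  choose h hh using fun i : {i : κ // ∃ g : G, g • b = lab i} => i.2
  choose h' hh' using fun j : {j : μ // ∃ g : G, g • b = lab' j} => j.2
  have hP : ∀ (j : {j : μ // ∃ g : G, g • b = lab' j}) (p : κ × G), p ∈ (A j.1).support →
      ∃ g : G, g • b = lab p.1 := by
    intro j p hp
    refine ⟨p.2 * h' j, ?_⟩
    rw [mul_smul, hh' j, ← hA j.1 p hp, smul_inv_smul]
  have hmem : ∀ (j : {j : μ // ∃ g : G, g • b = lab' j}) (p : κ × G) (hp : p ∈ (A j.1).support),
      (h ⟨p.1, hP j p hp⟩)⁻¹ * p.2 * h' j ∈ MulAction.stabilizer G b := by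
    intro j p hp
    rw [MulAction.mem_stabilizer_iff, mul_smul, mul_smul, hh' j, ← hA j.1 p hp, smul_inv_smul,
      inv_smul_eq_iff]
    exact (hh ⟨p.1, hP j p hp⟩).symm
  set c : {j : μ // ∃ g : G, g • b = lab' j} →
      ({i : κ // ∃ g : G, g • b = lab i} × MulAction.stabilizer G b →₀ ℂ) := fun j =>
    ∑ p ∈ (A j.1).support.attach, Finsupp.single
      (⟨p.1.1, hP j p.1 p.2⟩, ⟨(h ⟨p.1.1, hP j p.1 p.2⟩)⁻¹ * p.1.2 * h' j, hmem j p.1 p.2⟩)
      (A j.1 p.1) with hc
  have hev : ∀ (j : {j : μ // ∃ g : G, g • b = lab' j})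
      (x : {i : κ // ∃ g : G, g • b = lab i} × MulAction.stabilizer G b → ℂ)
      (η : MulAction.stabilizer G b), ev (c j) x η
        = ∑ p ∈ (A j.1).support.attach, A j.1 p.1 * x (⟨p.1.1, hP j p.1 p.2⟩,
          η * (⟨(h ⟨p.1.1, hP j p.1 p.2⟩)⁻¹ * p.1.2 * h' j, hmem j p.1 p.2⟩ :
            MulAction.stabilizer G b)⁻¹) := by
    intro j x η
    rw [hc]
    simp only
    rw [ev_finsetSum]
    exact Finset.sum_congr rfl fun p _ => ev_single _ _ _ _
  set J : {i : κ // ∃ g : G, g • b = lab i} × MulAction.stabilizer G b → κ × G :=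
    fun q => (q.1.1, (q.2 : G) * (h q.1)⁻¹) with hJ
  have hJi : Function.Injective J := by
    rintro ⟨i, g⟩ ⟨i', g'⟩ he
    simp only [hJ, Prod.mk.injEq] at he
    obtain ⟨h1, h2⟩ := he
    have h3 : i = i' := Subtype.ext h1
    subst h3
    have h4 : g = g' := Subtype.ext (mul_right_cancel h2)
    rw [h4]
  have hpull : ∀ z ∈ Sol (Set.range A), pull J hJi z ∈ Sol (Set.range c) := by
    rintro z hz _ ⟨j, rfl⟩ η
    rw [hev, ← hz (A j.1) ⟨j.1, rfl⟩ ((η : G) * (h' j)⁻¹), ev_def]
    refine Eq.trans ?_ (Finset.sum_attach (A j.1).support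
      (fun p => A j.1 p * z (p.1, (η : G) * (h' j)⁻¹ * p.2⁻¹)))
    refine Finset.sum_congr rfl fun p _ => ?_
    rw [pull_apply]
    congr 2
    simp only [hJ]
    rw [Subgroup.coe_mul, Subgroup.coe_inv]
    simp only
    group
  have hpush : ∀ x ∈ Sol (Set.range c), push J hJi x ∈ Sol (Set.range A) := by
    rintro x hx _ ⟨j, rfl⟩ g
    rw [ev_def]
    by_cases hg : g • lab' j = b
    · have hj : ∃ g : G, g • b = lab' j := ⟨g⁻¹, by rw [← hg, inv_smul_smul]⟩
      have hη : g * h' ⟨j, hj⟩ ∈ MulAction.stabilizer G b := by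
        rw [MulAction.mem_stabilizer_iff, mul_smul, hh' ⟨j, hj⟩]
        exact hg
      rw [← hx (c ⟨j, hj⟩) ⟨_, rfl⟩ ⟨g * h' ⟨j, hj⟩, hη⟩, hev]
      refine Eq.trans (Finset.sum_attach (A j).support
        (fun p => A j p * (push J hJi x) (p.1, g * p.2⁻¹))).symm ?_
      refine Finset.sum_congr rfl fun p _ => ?_
      rw [← push_apply J hJi]
      congr 2
      simp only [hJ]
      rw [Subgroup.coe_mul, Subgroup.coe_inv]
      simp only
      group
    · refine Finset.sum_eq_zero fun p hp => ?_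
      rw [push_apply_of_notMem, mul_zero]
      rintro ⟨i, η⟩ he
      simp only [hJ, Prod.mk.injEq] at he
      obtain ⟨h1, h2⟩ := he
      apply hg
      rw [← hA j p hp, ← mul_smul, ← h2, ← h1, ← hh i, mul_smul, inv_smul_smul]
      exact η.2
  refine ⟨Set.range c, Set.finite_range c, ?_, ?_⟩
  · rintro _ ⟨j, rfl⟩
    exact coefIn_sum _ _ _ fun p _ => coefIn_single _ _ _ (hk j.1 p.1)
  · intro i1 i2 i
    have hdl : (dl (i.1, (1 : G)) : L2 κ G)
        = lt (h i) (push J hJi (dl (i, (1 : MulAction.stabilizer G b)))) := by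
      rw [push_dl]
      show _ = lt (h i) (dl (i.1, ((1 : MulAction.stabilizer G b) : G) * (h i)⁻¹))
      rw [lt_dl]
      congr 2
      simp
    have hw : (Sol (Set.range A)).starProjection (dl (i.1, (1 : G)))
        = lt (h i) (push J hJi ((Sol (Set.range c)).starProjection
            (dl (i, (1 : MulAction.stabilizer G b))))) := by
      apply Submodule.eq_starProjection_of_mem_of_inner_eq_zero
      · exact Sol_invar _ _ _ (hpush _ (Submodule.starProjection_apply_mem _ _))
      · intro z hz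
        rw [hdl, ← map_sub, ← map_sub, inner_lt_left, push, ContinuousLinearMap.adjoint_inner_left]
        exact (Sol (Set.range c)).starProjection_inner_eq_zero _ _
          (hpull _ (Sol_invar _ _ _ hz))
    rw [hw, norm_lt]
    have h1 : ∀ x, ‖push J hJi x‖ ^ 2 = ‖x‖ ^ 2 := by
      intro x
      have h2 : ⟪push J hJi x, push J hJi x⟫_ℂ = ⟪x, x⟫_ℂ := by
        conv_lhs => rw [push]
        rw [ContinuousLinearMap.adjoint_inner_left]
        congr 1
        ext p
        rw [pull_apply]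
        exact push_apply J hJi x p
      rw [inner_self_eq_norm_sq_to_K, inner_self_eq_norm_sq_to_K] at h2
      exact_mod_cast h2
    exact h1 _

/-- kernels of local operators have integral dimension -/
lemma LF2_kr (hA : ∀ m : M, AtiyahOver k (MulAction.stabilizer G m)) {κ μ : Type} [Fintype κ]
    [Fintype μ] {lab : κ → M} {lab' : μ → M} {S : L2 κ G →L[ℂ] L2 μ G}
    (hS : LocOp k lab lab' S) : ∃ z : ℤ, dm (kr S) = z := by
  obtain ⟨A, hk, hloc, rfl⟩ := hS
  have hkr : kr (mulR A) = Sol (Set.range A) := ker_mulR A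
  rw [hkr]
  unfold dm
  have c1 : CompleteSpace (Sol (Set.range A)) := (Sol_closed _).completeSpace_coe
  rw [vdim_eq_sum]
  set o : κ → MulAction.orbitRel.Quotient G M := fun i => Quotient.mk'' (lab i) with ho
  rw [← Finset.sum_fiberwise_of_maps_to (s := Finset.univ) (t := Finset.univ.image o) (g := o)
    (fun i _ => Finset.mem_image_of_mem _ (Finset.mem_univ i))]
  have key : ∀ y : MulAction.orbitRel.Quotient G M, ∃ z : ℤ,
      ∑ i ∈ Finset.univ.filter (fun i => o i = y),
        ‖(Sol (Set.range A)).starProjection (dl (i, (1 : G)))‖ ^ 2 = z := by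
    intro y
    obtain ⟨C, hC1, hC2, hC3⟩ := LF2_base (k := k) A hk hloc (Quotient.out y)
    have c2 : CompleteSpace (Sol C) := (Sol_closed _).completeSpace_coe
    obtain ⟨z, hz⟩ := (hA (Quotient.out y)).forms C hC1 hC2
    refine ⟨z, ?_⟩
    rw [← hz, vdim_eq_sum]
    rw [← Finset.sum_congr rfl (fun i _ => hC3 inferInstance inferInstance i)]
    refine Finset.sum_subtype _ ?_ (fun i => ‖(Sol (Set.range A)).starProjection (dl (i, (1 : G)))‖ ^ 2)
    intro i
    rw [Finset.mem_filter]
    constructor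
    · rintro ⟨_, h1⟩
      have h2 : (Quotient.mk'' (lab i) : MulAction.orbitRel.Quotient G M)
          = Quotient.mk'' (Quotient.out y) := by
        rw [Quotient.out_eq']
        exact h1
      have h3 := Quotient.exact h2
      exact h3
    · rintro ⟨g, hg⟩
      refine ⟨Finset.mem_univ _, ?_⟩
      show (Quotient.mk'' (lab i) : MulAction.orbitRel.Quotient G M) = y
      rw [← Quotient.out_eq' y]
      exact Quotient.sound ⟨g, hg⟩
  choose z hz using key
  refine ⟨∑ y ∈ Finset.univ.image o, z y, ?_⟩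
  push_cast
  exact Finset.sum_congr rfl fun y _ => hz y

end LF2

theorem Rat.int {G : Type} [Group G] {k : Subring ℂ} {M : Type} [MulAction G M]
    (hA : ∀ m : M, AtiyahOver k (MulAction.stabilizer G m)) {ι : Type} [Fintype ι] {lab : ι → M}
    {X : Submodule ℂ (L2 ι G)} (hX : Rat k lab X) : ∃ z : ℤ, dm X = z := by
  obtain ⟨κ, μ, _, _, labκ, labμ, S, T, hS, hT, rfl⟩ := hX
  obtain ⟨z1, h1⟩ := LF2_kr hA hS
  obtain ⟨z2, h2⟩ := LF2_kr hA (hS.pairOp hT)
  rw [kr_pairOp] at h2
  have h3 := dm_imc hT.equivar (CI.kr hS.equivar)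
  refine ⟨z1 - z2, ?_⟩
  push_cast
  rw [← h1, ← h2]
  linarith

end Pool.Agent.LFT
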