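import Pool.Agent.VN.TreeLin
import Pool.Agent.VN.ZExt3

set_option autoImplicit false
set_option linter.unusedSectionVars false

noncomputable section

open scoped InnerProductSpace ENNReal Topology
open Classical Filter ContinuousLinearMap

/-!
Local operators and rational subspaces: basic definitions.
-/

namespace Pool.Agent.LFT

open Pool.Agent.VN

section Basic

variable {G : Type} [Group G]

/-- the kernel of an operator -/
abbrev kr {ι κ : Type} (T : L2 ι G →L[ℂ] L2 κ G) : Submodule ℂ (L2 ι G) :=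
  LinearMap.ker T.toLinearMap

/-- the closed image of a subspace -/
def imc {ι κ : Type} (T : L2 ι G →L[ℂ] L2 κ G) (X : Submodule ℂ (L2 ι G)) :
    Submodule ℂ (L2 κ G) :=
  (X.map T.toLinearMap).topologicalClosure

/-- the closed sum of two subspaces -/
def csup {ι : Type} (X Y : Submodule ℂ (L2 ι G)) : Submodule ℂ (L2 ι G) :=
  (X ⊔ Y).topologicalClosure

/-- the dimension of a subspace -/
def dm {ι : Type} [Fintype ι] (X : Submodule ℂ (L2 ι G)) : ℝ := vdim (X : Set (L2 ι G))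

/-- closed invariant subspaces -/
structure CI {ι : Type} (X : Submodule ℂ (L2 ι G)) : Prop where
  cl : IsClosed (X : Set (L2 ι G))
  inv : Invar X

lemma mem_kr {ι κ : Type} {T : L2 ι G →L[ℂ] L2 κ G} {x : L2 ι G} : x ∈ kr T ↔ T x = 0 := Iff.rfl

lemma kr_closed {ι κ : Type} (T : L2 ι G →L[ℂ] L2 κ G) : IsClosed (kr T : Set (L2 ι G)) :=
  T.isClosed_ker

lemma CI.kr {ι κ : Type} {T : L2 ι G →L[ℂ] L2 κ G} (hT : Equivar T) : CI (kr T) :=
  ⟨kr_closed T, Invar.ker hT⟩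

lemma CI.imc {ι κ : Type} {T : L2 ι G →L[ℂ] L2 κ G} (hT : Equivar T) {X : Submodule ℂ (L2 ι G)}
    (hX : Invar X) : CI (imc T X) :=
  ⟨Submodule.isClosed_topologicalClosure _, (Invar.map hT hX).closure⟩

lemma Invar.sup {ι : Type} {X Y : Submodule ℂ (L2 ι G)} (hX : Invar X) (hY : Invar Y) :
    Invar (X ⊔ Y) := by
  intro s z hz
  rw [Submodule.mem_sup] at hz ⊢
  obtain ⟨x, hx, y, hy, rfl⟩ := hz
  exact ⟨lt s x, hX s x hx, lt s y, hY s y hy, by rw [map_add]⟩

lemma CI.csup {ι : Type} {X Y : Submodule ℂ (L2 ι G)} (hX : Invar X) (hY : Invar Y) :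
    CI (csup X Y) :=
  ⟨Submodule.isClosed_topologicalClosure _, (Invar.sup hX hY).closure⟩

lemma CI.inf {ι : Type} {X Y : Submodule ℂ (L2 ι G)} (hX : CI X) (hY : CI Y) : CI (X ⊓ Y) :=
  ⟨hX.cl.inter hY.cl, hX.inv.inf hY.inv⟩

lemma CI.top {ι : Type} : CI (⊤ : Submodule ℂ (L2 ι G)) := ⟨isClosed_univ, fun _ _ _ => trivial⟩

lemma CI.bot {ι : Type} : CI (⊥ : Submodule ℂ (L2 ι G)) := by
  refine ⟨?_, ?_⟩
  · rw [Submodule.bot_coe]
    exact isClosed_singleton
  · intro s x hx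
    rw [Submodule.mem_bot] at hx ⊢
    rw [hx, map_zero]

lemma CI.sol {ι : Type} (C : Set (ι × G →₀ ℂ)) : CI (Sol C) := ⟨Sol_closed C, Sol_invar C⟩

lemma le_csup_left {ι : Type} (X Y : Submodule ℂ (L2 ι G)) : X ≤ csup X Y :=
  le_sup_left.trans (Submodule.le_topologicalClosure _)

lemma le_csup_right {ι : Type} (X Y : Submodule ℂ (L2 ι G)) : Y ≤ csup X Y :=
  le_sup_right.trans (Submodule.le_topologicalClosure _)

lemma csup_le {ι : Type} {X Y Z : Submodule ℂ (L2 ι G)} (hZ : IsClosed (Z : Set (L2 ι G)))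
    (h1 : X ≤ Z) (h2 : Y ≤ Z) : csup X Y ≤ Z :=
  Submodule.topologicalClosure_minimal _ (sup_le h1 h2) hZ

lemma imc_le {ι κ : Type} {T : L2 ι G →L[ℂ] L2 κ G} {X : Submodule ℂ (L2 ι G)}
    {Z : Submodule ℂ (L2 κ G)} (hZ : IsClosed (Z : Set (L2 κ G))) (h : ∀ x ∈ X, T x ∈ Z) :
    imc T X ≤ Z := by
  apply Submodule.topologicalClosure_minimal _ _ hZ
  rintro _ ⟨x, hx, rfl⟩
  exact h x hx

lemma mem_imc {ι κ : Type} (T : L2 ι G →L[ℂ] L2 κ G) {X : Submodule ℂ (L2 ι G)} {x : L2 ι G}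
    (hx : x ∈ X) : T x ∈ imc T X :=
  Submodule.le_topologicalClosure _ ⟨x, hx, rfl⟩

lemma dm_mono {ι : Type} [Fintype ι] {X Y : Submodule ℂ (L2 ι G)} (h : X ≤ Y) : dm X ≤ dm Y :=
  vdim_mono h

lemma dm_nonneg {ι : Type} [Fintype ι] (X : Submodule ℂ (L2 ι G)) : 0 ≤ dm X := vdim_nonneg X

lemma dm_le_card {ι : Type} [Fintype ι] (X : Submodule ℂ (L2 ι G)) : dm X ≤ Fintype.card ι :=
  vdim_le_card X

lemma dm_top {ι : Type} [Fintype ι] : dm (⊤ : Submodule ℂ (L2 ι G)) = Fintype.card ι := vdim_top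

lemma dm_bot {ι : Type} [Fintype ι] : dm (⊥ : Submodule ℂ (L2 ι G)) = 0 := vdim_bot

lemma dm_closure {ι : Type} [Fintype ι] (X : Submodule ℂ (L2 ι G)) :
    dm X.topologicalClosure = dm X := by
  unfold dm
  rw [Submodule.topologicalClosure_coe, vdim_closure]

/-- rank formula for a closed image -/
lemma dm_imc {ι κ : Type} [Fintype ι] [Fintype κ] {T : L2 ι G →L[ℂ] L2 κ G} (hT : Equivar T)
    {X : Submodule ℂ (L2 ι G)} (hX : CI X) : dm (imc T X) + dm (X ⊓ kr T) = dm X := by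
  unfold imc
  rw [dm_closure]
  exact vdim_map hT hX.inv hX.cl

/-- closed invariant subspaces of the same dimension, one contained in the other, agree -/
lemma eq_of_le_of_dm {ι : Type} [Fintype ι] {X Y : Submodule ℂ (L2 ι G)} (hX : CI X) (hY : CI Y)
    (h : X ≤ Y) (hd : dm Y ≤ dm X) : X = Y := by
  have c1 : CompleteSpace X := hX.cl.completeSpace_coe
  have h1 := vdim_compl hX.inv hX.cl hY.inv hY.cl h
  have h2 : vdim ((Y ⊓ Xᗮ : Submodule ℂ (L2 ι G)) : Set (L2 ι G)) = 0 := by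
    refine le_antisymm ?_ (vdim_nonneg _)
    rw [h1]
    unfold dm at hd
    linarith
  have h3 := eq_bot_of_vdim_eq_zero (hY.inv.inf hX.inv.orthogonal)
    (hY.cl.inter (Submodule.isClosed_orthogonal X)) h2
  apply le_antisymm h
  intro y hy
  have h4 : y - X.starProjection y ∈ Y ⊓ Xᗮ := by
    refine ⟨Y.sub_mem hy (h (Submodule.starProjection_apply_mem _ _)), ?_⟩
    exact Submodule.sub_starProjection_mem_orthogonal y
  rw [h3, Submodule.mem_bot, sub_eq_zero] at h4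
  rw [h4]
  exact Submodule.starProjection_apply_mem _ _

/-- modularity of the dimension -/
lemma dm_csup {ι : Type} [Fintype ι] {X Y : Submodule ℂ (L2 ι G)} (hX : CI X) (hY : CI Y) :
    dm (csup X Y) + dm (X ⊓ Y) = dm X + dm Y := by
  have hR := CI.csup hX.inv hY.inv
  have h := vdim_inter_eq hX.inv hX.cl hY.inv hY.cl hR.inv hR.cl (le_csup_left X Y)
    (le_csup_right X Y) ?_
  · exact h.symm
  · intro y hy h1 h2
    have h3 : y ∈ (X ⊔ Y)ᗮ := by
      rw [Submodule.mem_orthogonal] at h1 h2 ⊢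
      intro u hu
      obtain ⟨x, hx, z, hz, rfl⟩ := Submodule.mem_sup.mp hu
      rw [inner_add_left, h1 x hx, h2 z hz, add_zero]
    have h4 : y ∈ (csup X Y)ᗮ := by
      unfold csup
      rw [Submodule.orthogonal_closure]
      exact h3
    have h5 := (Submodule.mem_orthogonal _ _).mp h4 y hy
    exact inner_self_eq_zero.mp h5

/-- supermodularity -/
lemma dm_inf_csup {ι : Type} [Fintype ι] {P X Y : Submodule ℂ (L2 ι G)} (hP : CI P) (hX : CI X)
    (hY : CI Y) :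
    dm (P ⊓ X) + dm (P ⊓ Y) ≤ dm (P ⊓ csup X Y) + dm (P ⊓ (X ⊓ Y)) := by
  have h := dm_csup (hP.inf hX) (hP.inf hY)
  have h1 : csup (P ⊓ X) (P ⊓ Y) ≤ P ⊓ csup X Y :=
    csup_le (hP.inf (CI.csup hX.inv hY.inv)).cl
      (inf_le_inf_left _ (le_csup_left X Y)) (inf_le_inf_left _ (le_csup_right X Y))
  have h2 : (P ⊓ X) ⊓ (P ⊓ Y) = P ⊓ (X ⊓ Y) := by
    rw [inf_inf_inf_comm, inf_idem]
  rw [h2] at h
  have h3 := dm_mono h1
  linarith

end Basic

section Loc

variable {G : Type} [Group G] {k : Subring ℂ} {M : Type} [MulAction G M]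

/-- Local operators with coefficients in `k`: right multiplications by matrices over `kG` such that
the coordinate `j` at `g` of the image only depends on the coordinates of the argument at the same
place `g • lab' j`. -/
def LocOp (k : Subring ℂ) {M : Type} [MulAction G M] {ι κ : Type} [Fintype κ] (lab : ι → M)
    (lab' : κ → M) (T : L2 ι G →L[ℂ] L2 κ G) : Prop :=
  ∃ A : κ → (ι × G →₀ ℂ), (∀ j, CoefIn k (A j)) ∧
    (∀ j, ∀ p ∈ (A j).support, p.2⁻¹ • lab p.1 = lab' j) ∧ T = mulR A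

/-- Rational subspaces: closed images under local operators of kernels of local operators. -/
def Rat (k : Subring ℂ) {M : Type} [MulAction G M] {ι : Type} [Fintype ι] (lab : ι → M)
    (X : Submodule ℂ (L2 ι G)) : Prop :=
  ∃ (κ μ : Type) (_ : Fintype κ) (_ : Fintype μ) (labκ : κ → M) (labμ : μ → M)
    (S : L2 κ G →L[ℂ] L2 μ G) (T : L2 κ G →L[ℂ] L2 ι G),
    LocOp k labκ labμ S ∧ LocOp k labκ lab T ∧ X = imc T (kr S)

/-- the product of two matrices over the group ring -/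
def compF {ι κ μ : Type} (B : μ → (κ × G →₀ ℂ)) (A : κ → (ι × G →₀ ℂ)) (j : μ) : ι × G →₀ ℂ :=
  ∑ p ∈ (B j).support, ∑ q ∈ (A p.1).support, Finsupp.single (q.1, q.2 * p.2) (B j p * A p.1 q)

lemma ev_compF {ι κ μ : Type} (B : μ → (κ × G →₀ ℂ)) (A : κ → (ι × G →₀ ℂ)) (j : μ)
    (x : ι × G → ℂ) (g : G) :
    ev (compF B A j) x g = ev (B j) (fun q => ev (A q.1) x q.2) g := by
  unfold compF
  rw [ev_finsetSum, ev_def]
  refine Finset.sum_congr rfl fun p _ => ?_
  rw [ev_finsetSum, ev_def, Finset.mul_sum]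
  refine Finset.sum_congr rfl fun q _ => ?_
  rw [ev_single]
  simp only [mul_inv_rev, mul_assoc]

lemma mulR_compF {ι κ μ : Type} [Fintype κ] [Fintype μ] (B : μ → (κ × G →₀ ℂ))
    (A : κ → (ι × G →₀ ℂ)) : mulR (compF B A) = mulR B ∘L mulR A := by
  ext x q
  rw [ContinuousLinearMap.comp_apply, mulR_apply, mulR_apply, ev_compF]
  congr 1
  funext r
  rw [mulR_apply]

lemma support_compF {ι κ μ : Type} (B : μ → (κ × G →₀ ℂ)) (A : κ → (ι × G →₀ ℂ)) (j : μ)
    {r : ι × G} (hr : r ∈ (compF B A j).support) :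
    ∃ p ∈ (B j).support, ∃ q ∈ (A p.1).support, r = (q.1, q.2 * p.2) := by
  by_contra hcon
  push Not at hcon
  rw [Finsupp.mem_support_iff] at hr
  apply hr
  unfold compF
  rw [Finsupp.finsetSum_apply]
  refine Finset.sum_eq_zero fun p hp => ?_
  rw [Finsupp.finsetSum_apply]
  refine Finset.sum_eq_zero fun q hq => ?_
  rw [Finsupp.single_apply, if_neg]
  exact fun h => hcon p hp q hq h.symm

lemma LocOp.comp {ι κ μ : Type} [Fintype κ] [Fintype μ] {lab : ι → M} {lab' : κ → M}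
    {lab'' : μ → M} {T : L2 κ G →L[ℂ] L2 μ G} {S : L2 ι G →L[ℂ] L2 κ G}
    (hT : LocOp k lab' lab'' T) (hS : LocOp k lab lab' S) : LocOp k lab lab'' (T ∘L S) := by
  obtain ⟨B, hB1, hB2, rfl⟩ := hT
  obtain ⟨A, hA1, hA2, rfl⟩ := hS
  refine ⟨compF B A, ?_, ?_, (mulR_compF B A).symm⟩
  · intro j
    exact coefIn_sum _ _ _ fun p _ => coefIn_sum _ _ _ fun q _ =>
      coefIn_single _ _ _ (k.mul_mem (hB1 j p) (hA1 p.1 q))
  · intro j r hr
    obtain ⟨p, hp, q, hq, rfl⟩ := support_compF B A j hr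
    simp only
    rw [mul_inv_rev, mul_smul, hA2 p.1 q hq, hB2 j p hp]

lemma LocOp.equivar {ι κ : Type} [Fintype κ] {lab : ι → M} {lab' : κ → M}
    {T : L2 ι G →L[ℂ] L2 κ G} (hT : LocOp k lab lab' T) : Equivar T := by
  obtain ⟨A, _, _, rfl⟩ := hT
  exact mulR_equivar A

lemma ev_neg {ι : Type} (a : ι × G →₀ ℂ) (x : ι × G → ℂ) (g : G) :
    ev (-a) x g = - ev a x g := by
  have h := ev_add (-a) a x g
  rw [neg_add_cancel, ev_zero] at h
  exact (neg_eq_of_add_eq_zero_left h.symm).symm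

lemma LocOp.zero {ι κ : Type} [Fintype κ] (lab : ι → M) (lab' : κ → M) :
    LocOp k lab lab' (0 : L2 ι G →L[ℂ] L2 κ G) := by
  refine ⟨fun _ => 0, fun _ _ => ?_, fun _ p hp => ?_, ?_⟩
  · rw [Finsupp.coe_zero, Pi.zero_apply]
    exact k.zero_mem
  · simp at hp
  · ext x q
    rw [mulR_apply, ev_zero]
    rfl

lemma LocOp.add {ι κ : Type} [Fintype κ] {lab : ι → M} {lab' : κ → M}
    {T S : L2 ι G →L[ℂ] L2 κ G} (hT : LocOp k lab lab' T) (hS : LocOp k lab lab' S) :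
    LocOp k lab lab' (T + S) := by
  obtain ⟨A, hA1, hA2, rfl⟩ := hT
  obtain ⟨B, hB1, hB2, rfl⟩ := hS
  refine ⟨fun j => A j + B j, fun j p => ?_, fun j p hp => ?_, ?_⟩
  · rw [Finsupp.add_apply]
    exact k.add_mem (hA1 j p) (hB1 j p)
  · rcases Finset.mem_union.mp (Finsupp.support_add hp) with h | h
    · exact hA2 j p h
    · exact hB2 j p h
  · ext x q
    rw [_root_.add_apply, lp.coeFn_add, Pi.add_apply, mulR_apply, mulR_apply, mulR_apply, ev_add]

lemma LocOp.neg {ι κ : Type} [Fintype κ] {lab : ι → M} {lab' : κ → M}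
    {T : L2 ι G →L[ℂ] L2 κ G} (hT : LocOp k lab lab' T) : LocOp k lab lab' (-T) := by
  obtain ⟨A, hA1, hA2, rfl⟩ := hT
  refine ⟨fun j => -A j, fun j p => ?_, fun j p hp => ?_, ?_⟩
  · rw [Finsupp.neg_apply]
    exact k.neg_mem (hA1 j p)
  · rw [Finsupp.support_neg] at hp
    exact hA2 j p hp
  · ext x q
    rw [_root_.neg_apply, lp.coeFn_neg, Pi.neg_apply, mulR_apply, mulR_apply, ev_neg]

lemma LocOp.sub {ι κ : Type} [Fintype κ] {lab : ι → M} {lab' : κ → M}
    {T S : L2 ι G →L[ℂ] L2 κ G} (hT : LocOp k lab lab' T) (hS : LocOp k lab lab' S) :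
    LocOp k lab lab' (T - S) := by
  rw [sub_eq_add_neg]
  exact hT.add hS.neg

/-- the operator `x ↦ x ∘ j` on coordinates, where some coordinates may be put to zero -/
def crd {ι κ : Type} [Fintype κ] (j : κ → ι) (s : Set κ) : L2 ι G →L[ℂ] L2 κ G :=
  mulR fun a => if a ∈ s then Finsupp.single (j a, (1 : G)) 1 else 0

lemma crd_apply {ι κ : Type} [Fintype κ] (j : κ → ι) (s : Set κ) (x : L2 ι G) (q : κ × G) :
    crd j s x q = if q.1 ∈ s then x (j q.1, q.2) else 0 := by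
  unfold crd
  rw [mulR_apply]
  split_ifs
  · rw [ev_single]
    simp
  · rw [ev_zero]

lemma LocOp.crd {ι κ : Type} [Fintype κ] {lab : ι → M} {lab' : κ → M} (j : κ → ι) (s : Set κ)
    (h : ∀ a ∈ s, lab (j a) = lab' a) : LocOp k lab lab' (crd (G := G) j s) := by
  refine ⟨_, fun a p => ?_, fun a p hp => ?_, rfl⟩
  · split_ifs
    · exact coefIn_single k _ _ k.one_mem p
    · rw [Finsupp.coe_zero, Pi.zero_apply]
      exact k.zero_mem
  · split_ifs at hp with ha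
    · have h1 := Finset.mem_singleton.mp (Finsupp.support_single_subset hp)
      subst h1
      simp only [inv_one, one_smul]
      exact h a ha
    · simp at hp

lemma LocOp.id {ι : Type} [Fintype ι] (lab : ι → M) :
    LocOp k lab lab (ContinuousLinearMap.id ℂ (L2 ι G)) := by
  have h : LFT.crd (G := G) (fun a : ι => a) Set.univ = ContinuousLinearMap.id ℂ (L2 ι G) := by
    ext x q
    rw [crd_apply, if_pos (Set.mem_univ _)]
    rfl
  rw [← h]
  exact LocOp.crd _ _ fun _ _ => rfl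

/-- local operators commute with cutting -/
lemma LocOp.cut {ι κ : Type} [Fintype κ] {lab : ι → M} {lab' : κ → M}
    {T : L2 ι G →L[ℂ] L2 κ G} (hT : LocOp k lab lab' T) (m : M) (x : L2 ι G) :
    T (cutF (pV lab) m x) = cutF (pV lab') m (T x) := by
  obtain ⟨A, _, hA2, rfl⟩ := hT
  ext q
  rw [mulR_apply, cutF_apply, mulR_apply, ev_def, ev_def]
  have e : ∀ p ∈ (A q.1).support, pV lab (p.1, q.2 * p.2⁻¹) = pV lab' q := by
    intro p hp
    show (q.2 * p.2⁻¹) • lab p.1 = q.2 • lab' q.1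
    rw [mul_smul, hA2 q.1 p hp]
  by_cases h : pV lab' q = m
  · rw [if_pos h]
    refine Finset.sum_congr rfl fun p hp => ?_
    rw [cutF_apply, if_pos ((e p hp).trans h)]
  · rw [if_neg h]
    refine Finset.sum_eq_zero fun p hp => ?_
    rw [cutF_apply, if_neg (fun h' => h ((e p hp).symm.trans h')), mul_zero]

/-- change of the set of places -/
lemma LocOp.mapLab {M' : Type} [MulAction G M'] (f : M → M') (hf : ∀ (g : G) m, f (g • m) = g • f m)
    {ι κ : Type} [Fintype κ] {lab : ι → M} {lab' : κ → M} {T : L2 ι G →L[ℂ] L2 κ G}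
    (hT : LocOp k lab lab' T) : LocOp k (fun i => f (lab i)) (fun j => f (lab' j)) T := by
  obtain ⟨A, hA1, hA2, rfl⟩ := hT
  refine ⟨A, hA1, fun j p hp => ?_, rfl⟩
  rw [← hf, hA2 j p hp]

lemma Rat.mapLab {M' : Type} [MulAction G M'] (f : M → M') (hf : ∀ (g : G) m, f (g • m) = g • f m)
    {ι : Type} [Fintype ι] {lab : ι → M} {X : Submodule ℂ (L2 ι G)}
    (hX : Rat k lab X) : Rat k (fun i => f (lab i)) X := by
  obtain ⟨κ, μ, _, _, labκ, labμ, S, T, hS, hT, rfl⟩ := hX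
  exact ⟨κ, μ, inferInstance, inferInstance, _, _, S, T, hS.mapLab f hf, hT.mapLab f hf, rfl⟩

lemma Rat.ci {ι : Type} [Fintype ι] {lab : ι → M} {X : Submodule ℂ (L2 ι G)}
    (hX : Rat k lab X) : CI X := by
  obtain ⟨κ, μ, _, _, labκ, labμ, S, T, hS, hT, rfl⟩ := hX
  exact CI.imc hT.equivar (CI.kr hS.equivar).inv

lemma loc_kr {ι κ : Type} [Fintype κ] {lab : ι → M} {lab' : κ → M}
    {T : L2 ι G →L[ℂ] L2 κ G} (hT : LocOp k lab lab' T) : Loc (pV lab) (kr T) := by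
  intro x hx m
  rw [mem_kr] at hx ⊢
  rw [hT.cut, hx, map_zero]

lemma loc_closure {ι : Type} {lab : ι → M} {X : Submodule ℂ (L2 ι G)} (hX : Loc (pV lab) X) :
    Loc (pV lab) X.topologicalClosure := by
  intro x hx m
  have h2 : Set.MapsTo (cutF (pV lab) m : L2 ι G → L2 ι G) (X : Set (L2 ι G))
      (X : Set (L2 ι G)) := fun y hy => hX y hy m
  exact h2.closure (cutF (pV lab) m).continuous hx

lemma loc_imc {ι κ : Type} [Fintype κ] {lab : ι → M} {lab' : κ → M}
    {T : L2 ι G →L[ℂ] L2 κ G} (hT : LocOp k lab lab' T) {X : Submodule ℂ (L2 ι G)}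
    (hX : Loc (pV lab) X) : Loc (pV lab') (imc T X) := by
  apply loc_closure
  rintro _ ⟨x, hx, rfl⟩ m
  exact ⟨cutF (pV lab) m x, hX x hx m, hT.cut m x⟩

lemma Rat.loc {ι : Type} [Fintype ι] {lab : ι → M} {X : Submodule ℂ (L2 ι G)}
    (hX : Rat k lab X) : Loc (pV lab) X := by
  obtain ⟨κ, μ, _, _, labκ, labμ, S, T, hS, hT, rfl⟩ := hX
  exact loc_imc hT (loc_kr hS)

lemma imc_id {ι : Type} {X : Submodule ℂ (L2 ι G)} (hX : IsClosed (X : Set (L2 ι G))) :
    imc (ContinuousLinearMap.id ℂ (L2 ι G)) X = X := by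
  apply le_antisymm
  · exact imc_le hX fun x hx => hx
  · intro x hx
    exact mem_imc (ContinuousLinearMap.id ℂ (L2 ι G)) hx

lemma Rat.kr {ι κ : Type} [Fintype ι] [Fintype κ] {lab : ι → M} {lab' : κ → M}
    {T : L2 ι G →L[ℂ] L2 κ G} (hT : LocOp k lab lab' T) : Rat k lab (kr T) :=
  ⟨ι, κ, inferInstance, inferInstance, lab, lab', T, _, hT, LocOp.id lab,
    (imc_id (kr_closed T)).symm⟩

lemma Rat.top {ι : Type} [Fintype ι] (lab : ι → M) : Rat k lab (⊤ : Submodule ℂ (L2 ι G)) := by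
  have h : LFT.kr (0 : L2 ι G →L[ℂ] L2 ι G) = ⊤ := by
    rw [eq_top_iff]
    intro x _
    rfl
  rw [← h]
  exact Rat.kr (LocOp.zero lab lab)

lemma Rat.bot {ι : Type} [Fintype ι] (lab : ι → M) : Rat k lab (⊥ : Submodule ℂ (L2 ι G)) := by
  have h : LFT.kr (ContinuousLinearMap.id ℂ (L2 ι G)) = ⊥ := by
    rw [eq_bot_iff]
    intro x hx
    exact hx
  rw [← h]
  exact Rat.kr (LocOp.id lab)

lemma imc_imc {ι κ μ : Type} (T : L2 κ G →L[ℂ] L2 μ G) (S : L2 ι G →L[ℂ] L2 κ G)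
    (X : Submodule ℂ (L2 ι G)) : imc T (imc S X) = imc (T ∘L S) X := by
  apply le_antisymm
  · apply imc_le (Submodule.isClosed_topologicalClosure _)
    intro y hy
    have h2 : Set.MapsTo (T : L2 κ G → L2 μ G) (X.map S.toLinearMap : Set (L2 κ G))
        (X.map (T ∘L S).toLinearMap : Set (L2 μ G)) := by
      rintro _ ⟨x, hx, rfl⟩
      exact ⟨x, hx, rfl⟩
    exact h2.closure T.continuous hy
  · apply imc_le (Submodule.isClosed_topologicalClosure _)
    intro x hx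
    exact mem_imc T (mem_imc S hx)

lemma Rat.imc {ι κ : Type} [Fintype ι] [Fintype κ] {lab : ι → M} {lab' : κ → M}
    {T : L2 ι G →L[ℂ] L2 κ G} (hT : LocOp k lab lab' T) {X : Submodule ℂ (L2 ι G)}
    (hX : Rat k lab X) : Rat k lab' (imc T X) := by
  obtain ⟨κ', μ, _, _, labκ, labμ, S, R, hS, hR, rfl⟩ := hX
  exact ⟨κ', μ, inferInstance, inferInstance, labκ, labμ, S, T ∘L R, hS, hT.comp hR, imc_imc T R _⟩

end Loc

end Pool.Agent.LFT
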