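import Pool.Agent.LFT.KeyA

set_option autoImplicit false
set_option linter.unusedSectionVars false

noncomputable section

open scoped InnerProductSpace ENNReal Topology
open Classical Filter ContinuousLinearMap

/-!
Groups acting on trees such that the edge stabilisers have finite index in the vertex stabilisers.
-/

namespace Pool.Agent.LFT

open Pool.Agent.VN

section Tree

variable {G V : Type} [Group G] [MulAction G V]

/-- the action on darts -/
abbrev dartAct (T : SimpleGraph V) (hadj : ∀ (g : G) (u v : V), T.Adj u v → T.Adj (g • u) (g • v)) :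
    MulAction G T.Dart where
  smul g e := ⟨(g • e.fst, g • e.snd), hadj g _ _ e.adj⟩
  one_smul e := by
    apply SimpleGraph.Dart.ext
    show ((1 : G) • e.fst, (1 : G) • e.snd) = e.toProd
    rw [one_smul, one_smul]
  mul_smul g h e := by
    apply SimpleGraph.Dart.ext
    show ((g * h) • e.fst, (g * h) • e.snd) = (g • h • e.fst, g • h • e.snd)
    rw [mul_smul, mul_smul]

/-- the action on edges -/
abbrev edgeAct (T : SimpleGraph V) (hadj : ∀ (g : G) (u v : V), T.Adj u v → T.Adj (g • u) (g • v)) :
    MulAction G {e : Sym2 V // e ∈ T.edgeSet} where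
  smul g e := ⟨Sym2.map (fun v => g • v) e.1, by
    obtain ⟨e, he⟩ := e
    induction e using Sym2.ind with
    | _ u v => exact hadj g u v he⟩
  one_smul e := by
    apply Subtype.ext
    show Sym2.map (fun v => (1 : G) • v) e.1 = e.1
    simp only [one_smul]
    exact congrFun Sym2.map_id e.1
  mul_smul g h e := by
    apply Subtype.ext
    show Sym2.map (fun v => (g * h) • v) e.1
      = Sym2.map (fun v => g • v) (Sym2.map (fun v => h • v) e.1)
    rw [Sym2.map_map]
    congr 1
    funext v
    exact mul_smul g h v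

theorem atiyah_tree (k : Subring ℂ) (T : SimpleGraph V) (hT : T.IsTree)
    (hadj : ∀ (g : G) (u v : V), T.Adj u v → T.Adj (g • u) (g • v))
    (hinv : ∀ (g : G) (u v : V), T.Adj u v → ¬ (g • u = v ∧ g • v = u))
    (hfin : ∀ u v : V, T.Adj u v →
      (MulAction.stabilizer G v).relIndex (MulAction.stabilizer G u) ≠ 0)
    (hA : ∀ v : V, AtiyahOver k (MulAction.stabilizer G v)) : AtiyahOver k G := by
  obtain ⟨Half, hH⟩ := exists_halves hT.isAcyclic
  have hne : Nonempty V := hT.connected.nonempty
  obtain ⟨v0⟩ := hne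
  by_cases hd : Nonempty T.Dart
  swap
  · -- no edges: a single vertex
    have hs : ∀ v : V, v = v0 := by
      intro v
      by_contra hne
      obtain ⟨w⟩ := hT.connected.preconnected v v0
      cases w with
      | nil => exact hne rfl
      | cons h _ => exact hd ⟨⟨(_, _), h⟩⟩
    refine (hA v0).of_injective
      ({ toFun := fun g => ⟨g, hs _⟩
         map_one' := rfl
         map_mul' := fun _ _ => rfl } : G →* MulAction.stabilizer G v0) ?_
    intro g h e
    exact congrArg Subtype.val e
  obtain ⟨δ0⟩ := hd
  let i1 : MulAction G T.Dart := dartAct T hadj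
  let i2 : MulAction G {e : Sym2 V // e ∈ T.edgeSet} := edgeAct T hadj
  set α0 : T.Dart → V := fun e => e.fst with hα0
  set α1 : T.Dart → {e : Sym2 V // e ∈ T.edgeSet} := fun e => ⟨e.edge, e.edge_mem⟩ with hα1
  have h0 : ∀ (g : G) δ, α0 (g • δ) = g • α0 δ := fun g δ => rfl
  have h1 : ∀ (g : G) δ, α1 (g • δ) = g • α1 δ := fun g δ => rfl
  have hstab : ∀ (g : G) (δ : T.Dart), g • δ = δ ↔ g • δ.fst = δ.fst ∧ g • δ.snd = δ.snd := by
    intro g δ
    constructor
    · intro h
      exact ⟨congrArg (fun e : T.Dart => e.fst) h, congrArg (fun e : T.Dart => e.snd) h⟩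
    · rintro ⟨h2, h3⟩
      exact SimpleGraph.Dart.ext _ _ (Prod.ext h2 h3)
  -- stabilisers of edges fix both ends
  have hedge : ∀ (δ : T.Dart) (g : G), g • α1 δ = α1 δ → g • δ = δ := by
    intro δ g hg
    rw [← h1] at hg
    have h2 : (g • δ).edge = δ.edge := congrArg Subtype.val hg
    rw [SimpleGraph.dart_edge_eq_iff] at h2
    rcases h2 with h2 | h2
    · exact h2
    · exfalso
      apply hinv g δ.fst δ.snd δ.adj
      exact ⟨congrArg (fun e : T.Dart => e.fst) h2, congrArg (fun e : T.Dart => e.snd) h2⟩
  refine atiyah_abstract k α0 α1 h0 h1 ?_ δ0 ?_ ?_ ?_ hA ?_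
  · -- halves
    intro δ
    refine ⟨{ε | ε.fst ∈ Half δ.fst δ.snd}, hH.fst _ _ δ.adj, ?_, ?_⟩
    · intro ε ε' h
      have h2 : ε.fst = ε'.fst := h
      show ε.fst ∈ Half δ.fst δ.snd ↔ ε'.fst ∈ Half δ.fst δ.snd
      rw [h2]
    · intro ε ε' h
      have h2 : ε.edge = ε'.edge := congrArg Subtype.val h
      rw [SimpleGraph.dart_edge_eq_iff] at h2
      have key : ∀ ε : T.Dart, (ε.fst ∈ Half δ.fst δ.snd ∧ ε ≠ δ) →
          (ε.symm.fst ∈ Half δ.fst δ.snd ∧ ε.symm ≠ δ) := by
        rintro ε ⟨h3, h4⟩
        have h5 : ε.edge ≠ δ.edge := by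
          intro h6
          rw [SimpleGraph.dart_edge_eq_iff] at h6
          rcases h6 with h6 | h6
          · exact h4 h6
          · subst h6
            exact hH.snd _ _ δ.adj h3
        constructor
        · exact (hH.other _ _ δ.adj _ _ ε.adj h5).mp h3
        · intro h6
          apply h5
          rw [← h6, SimpleGraph.Dart.edge_symm]
      show (ε.fst ∈ Half δ.fst δ.snd ∧ ε ≠ δ) ↔ (ε'.fst ∈ Half δ.fst δ.snd ∧ ε' ≠ δ)
      rcases h2 with h2 | h2
      · rw [h2]
      · subst h2
        constructor
        · intro h3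
          have := key _ h3
          rwa [SimpleGraph.Dart.symm_symm] at this
        · exact key _
  · -- connectedness
    have key : ∀ (u v : V) (w : T.Walk u v),
        (∀ δ : T.Dart, δ.fst = u → Relation.ReflTransGen
          (fun ε ε' : T.Dart => α0 ε = α0 ε' ∨ α1 ε = α1 ε') δ0 δ) →
        ∀ δ : T.Dart, δ.fst = v → Relation.ReflTransGen
          (fun ε ε' : T.Dart => α0 ε = α0 ε' ∨ α1 ε = α1 ε') δ0 δ := by
      intro u v w
      induction w with
      | nil => exact fun h => h
      | @cons a b c hab w ih =>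
        intro h
        apply ih
        intro δ hδ
        have h2 := h ⟨(a, b), hab⟩ rfl
        refine (h2.tail (c := ⟨(b, a), hab.symm⟩) (Or.inr ?_)).tail (Or.inl ?_)
        · apply Subtype.ext
          exact Sym2.eq_swap
        · exact hδ.symm
    intro δ
    obtain ⟨w⟩ := hT.connected.preconnected δ0.fst δ.fst
    refine key _ _ w ?_ δ rfl
    intro ε hε
    exact Relation.ReflTransGen.single (Or.inl hε.symm)
  · -- finite index in the stabilisers of the vertices
    intro δ
    have h2 : MulAction.stabilizer G δ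
        = MulAction.stabilizer G δ.snd ⊓ MulAction.stabilizer G δ.fst := by
      ext g
      rw [Subgroup.mem_inf, MulAction.mem_stabilizer_iff, MulAction.mem_stabilizer_iff,
        MulAction.mem_stabilizer_iff, hstab]
      exact and_comm
    rw [h2]
    show (MulAction.stabilizer G δ.snd ⊓ MulAction.stabilizer G δ.fst).relIndex
      (MulAction.stabilizer G δ.fst) ≠ 0
    rw [Subgroup.inf_relIndex_right]
    exact hfin _ _ δ.adj
  · -- in the stabilisers of the edges
    intro δ
    have h2 : (MulAction.stabilizer G δ).relIndex (MulAction.stabilizer G (α1 δ)) = 1 := by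
      rw [Subgroup.relIndex_eq_one]
      intro g hg
      exact hedge δ g hg
    rw [h2]
    exact one_ne_zero
  · -- the stabilisers of the edges
    rintro ⟨e, he⟩
    induction e using Sym2.ind with
    | _ u v =>
      have hadj' : T.Adj u v := he
      refine (hA u).of_injective
        ({ toFun := fun g => ⟨g.1, ?_⟩
           map_one' := rfl
           map_mul' := fun _ _ => rfl } :
          MulAction.stabilizer G (⟨s(u, v), he⟩ : {e : Sym2 V // e ∈ T.edgeSet})
            →* MulAction.stabilizer G u) ?_
      · have h2 : g.1 • α1 ⟨(u, v), hadj'⟩ = α1 ⟨(u, v), hadj'⟩ := g.2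
        exact ((hstab g.1 _).mp (hedge _ _ h2)).1
      · intro g h e
        apply Subtype.ext
        exact congrArg (fun x : MulAction.stabilizer G u => (x : G)) e

end Tree

end Pool.Agent.LFT
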