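import Pool.Agent.LFT.Stubs

set_option autoImplicit false
set_option linter.unusedSectionVars false

noncomputable section

open scoped InnerProductSpace ENNReal Topology
open Classical Filter ContinuousLinearMap

/-!
The key approximation statement and the abstract form of the main theorem.
-/

namespace Pool.Agent.LFT

open Pool.Agent.VN

section Key

variable {G : Type} [Group G] {B Δ : Type} [MulAction G B] [MulAction G Δ]

lemma perOp_apply {Mk ι : Type} [MulAction G Mk] [Fintype ι] (p : Mk → B) (b : ι → B)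
    [Fintype (Lf p b)] (e : Mk → Mk) (he : ∀ m, p (e m) = p m) (x : L2 (Lf p b) G)
    (y : Lf p b) (g : G) :
    perOp p b e he x (y, g) = x ((⟨(y.1.1, e y.1.2), by rw [he]; exact y.2⟩ : Lf p b), g) := by
  unfold perOp
  rw [crd_apply, if_pos (Set.mem_univ _)]

/-- Subspaces which are rational over the set of ends of the darts can be replaced by subspaces
which are rational over the set of darts. -/
theorem key {k : Subring ℂ} {ι : Type} [Fintype ι] (α : Δ → B)
    (hα : ∀ (g : G) δ, α (g • δ) = g • α δ) (d : ι → Δ)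
    (hfin : ∀ i, (MulAction.stabilizer G (d i)).relIndex (MulAction.stabilizer G (α (d i))) ≠ 0)
    {P : Submodule ℂ (L2 ι G)} (hP : CI P) (hPl : Loc (pV d) P) (u : ℝ)
    {Y : Submodule ℂ (L2 ι G)} (hY : Rat k (fun i => α (d i)) Y) {ε : ℝ} (hε : 0 < ε) :
    ∃ S, Rat k d S ∧ dm (P ⊓ Y) - u * dm Y - ε ≤ dm (P ⊓ S) - u * dm S := by
  obtain ⟨Mk, _, p, Q, Ty, _, _, _, _, D, N, hN0, hp, hfib, hpQ, hcomm, htr, hD, hDQ, hDα, hcov,
    hN⟩ := exists_marking α hα d hfin
  set b : ι → B := fun i => α (d i) with hb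
  have hfib' : Finite (Lf p b) := by
    have : ∀ i : ι, Finite {m // p m = b i} := fun i => hfib _
    refine Finite.of_injective (β := Σ i : ι, {m // p m = b i})
      (fun x => ⟨x.1.1, ⟨x.1.2, x.2⟩⟩) ?_
    rintro ⟨⟨i, m⟩, h⟩ ⟨⟨i', m'⟩, h'⟩ he
    simp only [Sigma.mk.injEq] at he
    obtain ⟨rfl, he⟩ := he
    have := congrArg Subtype.val (eq_of_heq he)
    simp only at this
    subst this
    rfl
  have : Fintype (Lf p b) := Fintype.ofFinite _
  -- `P` is local for the labels `b`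
  have hPb : Loc (pV b) P := by
    intro x hx v
    apply mem_of_pieces hP.cl hPl
    intro δ
    have : cutF (pV d) δ (cutF (pV b) v x) = if α δ = v then cutF (pV d) δ x else 0 := by
      ext q
      rw [cutF_apply, cutF_apply]
      have e1 : pV b q = α (pV d q) := by
        show q.2 • α (d q.1) = α (q.2 • d q.1)
        rw [hα]
      by_cases h1 : pV d q = δ
      · rw [if_pos h1, e1, h1]
        by_cases h2 : α δ = v
        · rw [if_pos h2, if_pos h2, cutF_apply, if_pos h1]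
        · rw [if_neg h2, if_neg h2]
          rfl
      · rw [if_neg h1]
        split_ifs
        · rw [cutF_apply, if_neg h1]
        · rfl
    rw [this]
    split_ifs
    · exact hPl x hx δ
    · exact Submodule.zero_mem _
  set PL := lift p b P with hPL
  have hPLc : CI PL := CI.lift p hp b hP
  have hYl : Rat k (labL p b) (lift p b Y) := Rat.lift p hp b hfib hY
  have hdP : ∀ X, CI X → Loc (pV b) X → dm (PL ⊓ lift p b X) - u * dm (lift p b X)
      = N * (dm (P ⊓ X) - u * dm X) := by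
    intro X hX hXl
    rw [hPL, ← lift_inf, dm_lift p hp b (hP.inf hX) (fun x hx v => ⟨hPb x hx.1 v, hXl x hx.2 v⟩)
      N hN, dm_lift p hp b hX hXl N hN]
    ring
  -- near maximiser
  set s : ℝ := sSup {r | ∃ Z, Rat k (labL p b) Z ∧ r = dm (PL ⊓ Z) - u * dm Z} with hs
  have hbdd : BddAbove {r | ∃ Z, Rat k (labL p b) Z ∧ r = dm (PL ⊓ Z) - u * dm Z} := by
    refine ⟨Fintype.card (Lf p b) + |u| * Fintype.card (Lf p b), ?_⟩
    rintro _ ⟨Z, _, rfl⟩
    have h1 := dm_le_card (PL ⊓ Z)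
    have h2 := dm_le_card Z
    have h3 := dm_nonneg Z
    have h4 : - (u * dm Z) ≤ |u| * Fintype.card (Lf p b) := by
      have h5 : -(u * dm Z) ≤ |u| * dm Z := by
        rw [← neg_mul]
        exact mul_le_mul_of_nonneg_right (neg_le_abs u) h3
      exact h5.trans (mul_le_mul_of_nonneg_left h2 (abs_nonneg u))
    linarith
  have hsle : ∀ Z, Rat k (labL p b) Z → dm (PL ⊓ Z) - u * dm Z ≤ s := fun Z hZ =>
    le_csSup hbdd ⟨Z, hZ, rfl⟩
  have hNpos : (0 : ℝ) < N := by exact_mod_cast hN0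
  have hQpos : (0 : ℝ) < Fintype.card Q := by
    have : 0 < Fintype.card Q := Fintype.card_pos
    exact_mod_cast this
  set η : ℝ := N * ε / Fintype.card Q with hη
  have hηpos : 0 < η := by positivity
  obtain ⟨_, ⟨Z0, hZ0, rfl⟩, hZ0s⟩ := exists_lt_of_lt_csSup
    (show {r | ∃ Z, Rat k (labL p b) Z ∧ r = dm (PL ⊓ Z) - u * dm Z}.Nonempty from
      ⟨_, LFT.lift p b Y, hYl, rfl⟩) (show s - η < s by linarith)
  -- split
  have hPLD : ∀ τ : Ty, ∀ x ∈ PL, cp {x : Lf p b | D τ x.1.2 = d x.1.1} x ∈ PL := by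
    intro τ z hz m
    have h1 : dnOp p b (cutF (pV (labL p b)) m (cp {x : Lf p b | D τ x.1.2 = d x.1.1} z))
        = cutF (pV d) (D τ m) (dnOp p b (cutF (pV (labL p b)) m z)) := by
      ext q
      obtain ⟨i, g⟩ := q
      rw [dnOp_cut p hp b, cutF_apply, dnOp_cut p hp b]
      have e1 : pV d (i, g) = D τ m ↔ D τ (g⁻¹ • m) = d i := by
        show g • d i = D τ m ↔ _
        rw [hD, inv_smul_eq_iff]
        exact eq_comm
      by_cases h : p (g⁻¹ • m) = b i
      · rw [dif_pos h, dif_pos h, cp_apply]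
        by_cases h2 : D τ (g⁻¹ • m) = d i
        · rw [if_pos (e1.mpr h2), if_pos]
          exact h2
        · rw [if_neg (fun h' => h2 (e1.mp h')), if_neg]
          exact h2
      · rw [dif_neg h, dif_neg h]
        split_ifs <;> rfl
    rw [h1]
    exact hPl _ (hz m) _
  obtain ⟨Z1, hZ1, hZ1D, hZ1d, hZ1P⟩ := exists_split
    (fun τ : Ty => {x : Lf p b | D τ x.1.2 = d x.1.1}) hPLc hPLD hZ0
  -- join
  have hpe : ∀ (q : Q) (m : Mk), p (q⁻¹ • m) = p m := fun q m => hpQ _ _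
  set U : Q → L2 (Lf p b) G →L[ℂ] L2 (Lf p b) G := fun q =>
    perOp p b (fun m => q⁻¹ • m) (hpe q) with hU
  have hUe : ∀ q, Equivar (U q) := fun q => mulR_equivar _
  have hUa : ∀ (q : Q) (x : L2 (Lf p b) G) (y : Lf p b) (g : G),
      U q x (y, g) = x ((⟨(y.1.1, q⁻¹ • y.1.2), by
        show p (q⁻¹ • y.1.2) = _
        rw [hpe]; exact y.2⟩ : Lf p b), g) := fun q x y g =>
    perOp_apply p b (fun m => q⁻¹ • m) (hpe q) x y g
  have hU1 : ∀ x, U 1 x = x := by
    intro x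
    ext ⟨y, g⟩
    rw [hUa]
    exact congrArg (fun w : Lf p b => x (w, g)) (Subtype.ext (Prod.ext rfl (by simp)))
  have hUm : ∀ q q' x, U q (U q' x) = U (q * q') x := by
    intro q q' x
    ext ⟨y, g⟩
    rw [hUa, hUa, hUa]
    exact congrArg (fun w : Lf p b => x (w, g)) (Subtype.ext (Prod.ext rfl (by simp [mul_smul])))
  have hUR : ∀ q Z, Rat k (labL p b) Z → Rat k (labL p b) (imc (U q) Z) := by
    intro q Z hZ
    have h1 : Rat k (fun x => (fun m : Mk => q • m) (labL p b x)) Z :=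
      hZ.mapLab _ fun g m => hcomm q g m
    refine Rat.imc ?_ h1
    apply LocOp.crd
    intro a _
    show q • (q⁻¹ • a.1.2) = a.1.2
    rw [smul_inv_smul]
  have hPLU : ∀ q, ∀ x ∈ PL, U q x ∈ PL := by
    intro q z hz m
    have h1 : dnOp p b (cutF (pV (labL p b)) m (U q z))
        = dnOp p b (cutF (pV (labL p b)) (q⁻¹ • m) z) := by
      ext r
      obtain ⟨i, g⟩ := r
      rw [dnOp_cut p hp b, dnOp_cut p hp b]
      have e1 : g⁻¹ • q⁻¹ • m = q⁻¹ • g⁻¹ • m := (hcomm _ _ _).symm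
      by_cases h : p (g⁻¹ • m) = b i
      · have h' : p (g⁻¹ • q⁻¹ • m) = b i := by rw [e1, hpQ]; exact h
        rw [dif_pos h, dif_pos h', hUa]
        exact congrArg (fun w : Lf p b => z (w, g)) (Subtype.ext (Prod.ext rfl e1.symm))
      · have h' : ¬ p (g⁻¹ • q⁻¹ • m) = b i := by rw [e1, hpQ]; exact h
        rw [dif_neg h, dif_neg h']
    rw [h1]
    exact hz _
  obtain ⟨hW1, hW2, hW3⟩ := exists_join U hUe hU1 hUm hUR hPLc hPLU hZ1 u s η hsle (by
    rw [hZ1d]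
    linarith)
  set W := (⨆ q, imc (U q) Z1).topologicalClosure with hW
  -- the join is still decomposable
  have hWD : ∀ τ : Ty, ∀ z ∈ W, cp {x : Lf p b | D τ x.1.2 = d x.1.1} z ∈ W := by
    intro τ
    have hq : ∀ q, ∀ z ∈ imc (U q) Z1, cp {x : Lf p b | D τ x.1.2 = d x.1.1} z ∈ imc (U q) Z1 := by
      intro q
      have h1 : imc (U q) Z1 ≤ (imc (U q) Z1).comap
          (cp {x : Lf p b | D τ x.1.2 = d x.1.1}).toLinearMap := by
        apply imc_le
        · exact (Submodule.isClosed_topologicalClosure _).preimage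
            (cp {x : Lf p b | D τ x.1.2 = d x.1.1}).continuous
        · intro x hx
          obtain ⟨τ', hτ'⟩ := hDQ q τ
          have h2 : cp {x : Lf p b | D τ x.1.2 = d x.1.1} (U q x)
              = U q (cp {x : Lf p b | D τ' x.1.2 = d x.1.1} x) := by
            ext ⟨y, g⟩
            rw [cp_apply, hUa, hUa, cp_apply]
            have e1 : D τ y.1.2 = D τ' (q⁻¹ • y.1.2) := by
              rw [← hτ', smul_inv_smul]
            simp only [Set.mem_ofPred_eq]
            rw [e1]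
          show cp {x : Lf p b | D τ x.1.2 = d x.1.1} (U q x) ∈ imc (U q) Z1
          rw [h2]
          exact mem_imc _ (hZ1D τ' x hx)
      exact fun z hz => h1 hz
    have h3 : W ≤ W.comap (cp {x : Lf p b | D τ x.1.2 = d x.1.1}).toLinearMap := by
      apply Submodule.topologicalClosure_minimal
      · apply iSup_le
        intro q z hz
        exact Submodule.le_topologicalClosure _
          (Submodule.mem_iSup_of_mem q (hq q z hz))
      · exact (Submodule.isClosed_topologicalClosure _).preimage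
          (cp {x : Lf p b | D τ x.1.2 = d x.1.1}).continuous
    exact fun z hz => h3 hz
  -- descend
  obtain ⟨S, hS, hSW⟩ := exists_descend α hα d p hp (fun q : Q => fun m => q⁻¹ • m) hpe
    (fun q g m => hcomm _ _ _) (fun m m' h => by
      obtain ⟨q, hq⟩ := htr m m' h
      exact ⟨q⁻¹, by simpa using hq⟩) D hD
    (fun q τ => by
      obtain ⟨τ', hτ'⟩ := hDQ q⁻¹ τ
      exact ⟨τ', hτ'⟩) hDα hcov hW1 hWD (fun q z hz => hW2 q z hz)
  refine ⟨S, hS, ?_⟩
  have h1 := hdP S hS.ci (hS.mapLab α hα).loc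
  have h2 := hdP Y hY.ci hY.loc
  have h3 := hsle _ hYl
  rw [hSW] at h1
  have h4 : (N : ℝ) * (dm (P ⊓ Y) - u * dm Y) ≤ N * (dm (P ⊓ S) - u * dm S) + N * ε := by
    rw [← h1, ← h2]
    have e : (Fintype.card Q : ℝ) * η = N * ε := by
      rw [hη]
      field_simp
    linarith
  rw [← mul_add] at h4
  have h5 := le_of_mul_le_mul_left h4 hNpos
  linarith

end Key

section Abstract

variable {G : Type} [Group G]

lemma int_of_lower {v : ℝ} (h : ∀ ε : ℝ, 0 < ε → ∃ z : ℤ, (z : ℝ) ≤ v ∧ v ≤ z + ε) :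
    ∃ z : ℤ, v = z := by
  by_contra hcon
  push Not at hcon
  have h1 : (⌊v⌋ : ℝ) < v := lt_of_le_of_ne (Int.floor_le v) (hcon ⌊v⌋).symm
  obtain ⟨z, hz1, hz2⟩ := h ((v - ⌊v⌋) / 2) (by linarith)
  have h2 : z ≤ ⌊v⌋ := Int.le_floor.mpr hz1
  have h3 : (z : ℝ) ≤ (⌊v⌋ : ℝ) := by exact_mod_cast h2
  linarith

theorem atiyah_abstract (k : Subring ℂ) {Δ V0 V1 : Type} [MulAction G Δ]
    [MulAction G V0] [MulAction G V1] (α0 : Δ → V0) (α1 : Δ → V1)
    (h0 : ∀ (g : G) δ, α0 (g • δ) = g • α0 δ) (h1 : ∀ (g : G) δ, α1 (g • δ) = g • α1 δ)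
    (half : ∀ δ : Δ, ∃ Y : Set Δ, δ ∈ Y ∧ (∀ ε ε', α0 ε = α0 ε' → (ε ∈ Y ↔ ε' ∈ Y)) ∧
      (∀ ε ε', α1 ε = α1 ε' → ((ε ∈ Y ∧ ε ≠ δ) ↔ (ε' ∈ Y ∧ ε' ≠ δ))))
    (δ0 : Δ) (hconn : ∀ δ : Δ, Relation.ReflTransGen
      (fun ε ε' : Δ => α0 ε = α0 ε' ∨ α1 ε = α1 ε') δ0 δ)
    (hf0 : ∀ δ, (MulAction.stabilizer G δ).relIndex (MulAction.stabilizer G (α0 δ)) ≠ 0)
    (hf1 : ∀ δ, (MulAction.stabilizer G δ).relIndex (MulAction.stabilizer G (α1 δ)) ≠ 0)
    (hA0 : ∀ v : V0, AtiyahOver k (MulAction.stabilizer G v))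
    (hA1 : ∀ v : V1, AtiyahOver k (MulAction.stabilizer G v)) : AtiyahOver k G := by
  intro m n A hA
  obtain ⟨ι, _, d, K0, K1, hK0, hK1, hK⟩ := exists_lin k α0 α1 h0 h1 δ0 hconn
    (Set.range (colF A)) (Set.finite_range _) (fun c hc p => colF_coef hA c hc p)
  obtain ⟨P, hP, hPl, hPd⟩ := formula α0 α1 h0 h1 half d hK0.ci hK1.ci hK0.loc hK1.loc
  rw [kerDim_eq, ← hK]
  apply int_of_lower
  intro ε hε
  obtain ⟨S, hS, hSe⟩ := telescope (fun X => Rat k d X) (fun X => Rat k (fun i => α0 (d i)) X)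
    (fun X => Rat k (fun i => α1 (d i)) X) (fun X hX => hX.ci) (fun X hX => hX.ci)
    (fun X hX => hX.mapLab α0 h0) (fun X hX => hX.mapLab α1 h1)
    (fun X Y hX hY => hX.inf hY) (fun X Y hX hY => hX.inf hY) (fun X Y hX hY => hX.csup hY)
    (fun X Y hX hY => hX.csup hY) (Rat.top d) (Rat.bot d) hP hK0 hK1
    (fun u _ _ Y hY ε hε => key α0 h0 d (fun i => hf0 _) hP hPl u hY hε)
    (fun u _ _ Y hY ε hε => key α1 h1 d (fun i => hf1 _) hP hPl u hY hε) hε
  have hS0 := hS.mapLab α0 h0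
  have hS1 := hS.mapLab α1 h1
  obtain ⟨z0, hz0⟩ := Rat.int hA0 (hK0.inf hS0)
  obtain ⟨z1, hz1⟩ := Rat.int hA1 (hK1.inf hS1)
  obtain ⟨z2, hz2⟩ := Rat.int hA0 hS0
  refine ⟨z0 + z1 - z2, ?_, ?_⟩
  · push_cast
    rw [← hz0, ← hz1, ← hz2]
    have h2 := dm_csup (hK0.ci.inf hS.ci) (hK1.ci.inf hS.ci)
    have h3 : csup (K0 ⊓ S) (K1 ⊓ S) ≤ S := csup_le hS.ci.cl inf_le_right inf_le_right
    have h4 : K0 ⊓ S ⊓ (K1 ⊓ S) ≤ K0 ⊓ K1 := inf_le_inf inf_le_left inf_le_left
    have h5 := dm_mono h3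
    have h6 := dm_mono h4
    have h7 : dm (K0 ⊓ K1) = vdim ((K0 ⊓ K1 : Submodule ℂ (L2 ι G)) : Set (L2 ι G)) := rfl
    linarith
  · push_cast
    rw [← hz0, ← hz1, ← hz2]
    have h7 : dm (K0 ⊓ K1) = vdim ((K0 ⊓ K1 : Submodule ℂ (L2 ι G)) : Set (L2 ι G)) := rfl
    linarith

end Abstract

end Pool.Agent.LFT
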