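import Pool.Agent.LFT.LiftDef

set_option autoImplicit false
set_option linter.unusedSectionVars false

noncomputable section

open scoped InnerProductSpace ENNReal Topology
open Classical Filter ContinuousLinearMap

namespace Pool.Agent.LFT

open Pool.Agent.VN

section Lift

variable {G : Type} [Group G] {B Mk : Type} [MulAction G B] [MulAction G Mk] {ι : Type}
  [Fintype ι] (p : Mk → B) (hp : ∀ (g : G) m, p (g • m) = g • p m) (b : ι → B)
  [Fintype (Lf p b)]

lemma LF6_dn_apply (z : L2 (Lf p b) G) (i : ι) (g : G) :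
    dnOp p b z (i, g) = ∑ x : Lf p b, if x.1.1 = i then z (x, g) else 0 := by
  unfold dnOp
  rw [mulR_apply, ev_finsetSum]
  refine Finset.sum_congr rfl fun x _ => ?_
  split_ifs
  · rw [ev_single]
    simp
  · rw [ev_zero]

lemma LF6_up_apply (x : L2 ι G) (y : Lf p b) (g : G) :
    upOp p b x (y, g) = x (y.1.1, g) := by
  unfold upOp
  rw [crd_apply, if_pos (Set.mem_univ _)]

include hp in
lemma dnOp_cut (m : Mk) (z : L2 (Lf p b) G) (i : ι) (g : G) :
    dnOp p b (cutF (pV (labL p b)) m z) (i, g)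
      = if h : p (g⁻¹ • m) = b i then z ((⟨(i, g⁻¹ • m), h⟩ : Lf p b), g) else 0 := by
  rw [LF6_dn_apply]
  have e : ∀ x : Lf p b, pV (labL p b) (x, g) = m ↔ x.1.2 = g⁻¹ • m := by
    intro x
    show g • x.1.2 = m ↔ _
    exact smul_eq_iff_eq_inv_smul g
  split_ifs with h
  · rw [Finset.sum_eq_single (⟨(i, g⁻¹ • m), h⟩ : Lf p b)]
    · rw [if_pos rfl, cutF_apply, if_pos ((e _).mpr rfl)]
    · intro x _ hx
      split_ifs with h1
      · rw [cutF_apply, if_neg]
        intro h2
        apply hx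
        apply Subtype.ext
        exact Prod.ext h1 ((e x).mp h2)
      · rfl
    · intro h1
      exact absurd (Finset.mem_univ _) h1
  · refine Finset.sum_eq_zero fun x _ => ?_
    split_ifs with h1
    · rw [cutF_apply, if_neg]
      intro h2
      apply h
      rw [← (e x).mp h2, x.2, h1]
    · rfl

lemma upOp_cut (m : Mk) (x : L2 ι G) (y : Lf p b) (g : G) :
    cutF (pV (labL p b)) m (upOp p b x) (y, g) = if g • y.1.2 = m then x (y.1.1, g) else 0 := by
  rw [cutF_apply, LF6_up_apply]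
  rfl

include hp in
lemma dn_up (m m' : Mk) (x : L2 ι G) :
    dnOp p b (cutF (pV (labL p b)) m' (cutF (pV (labL p b)) m (upOp p b x)))
      = if m = m' then cutF (pV b) (p m) x else 0 := by
  rw [cutF_cutF]
  by_cases h : m = m'
  · subst h
    rw [if_pos rfl, if_pos rfl]
    ext ⟨i, g⟩
    rw [dnOp_cut p hp, cutF_apply]
    have e : p (g⁻¹ • m) = b i ↔ pV b (i, g) = p m := by
      rw [hp]
      show _ ↔ g • b i = p m
      rw [inv_smul_eq_iff, eq_comm]
    by_cases h1 : p (g⁻¹ • m) = b i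
    · rw [dif_pos h1, if_pos (e.mp h1), LF6_up_apply]
    · rw [dif_neg h1, if_neg (fun h2 => h1 (e.mpr h2))]
  · rw [if_neg h, if_neg (fun h' => h h'.symm), map_zero]

include hp in
lemma up_dn (m : Mk) (z : L2 (Lf p b) G) :
    cutF (pV (labL p b)) m (upOp p b (dnOp p b (cutF (pV (labL p b)) m z)))
      = cutF (pV (labL p b)) m z := by
  ext ⟨y, g⟩
  rw [upOp_cut, cutF_apply]
  by_cases h : g • y.1.2 = m
  · rw [if_pos h, if_pos (show pV (labL p b) (y, g) = m from h), dnOp_cut p hp]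
    have h1 : g⁻¹ • m = y.1.2 := by rw [← h, inv_smul_smul]
    have h2 : p (g⁻¹ • m) = b y.1.1 := by rw [h1]; exact y.2
    rw [dif_pos h2]
    have h3 : (⟨(y.1.1, g⁻¹ • m), h2⟩ : Lf p b) = y := Subtype.ext (Prod.ext rfl h1)
    rw [h3]
  · rw [if_neg h, if_neg (show ¬ pV (labL p b) (y, g) = m from h)]

lemma LF6_mem_lift {X : Submodule ℂ (L2 ι G)} {z : L2 (Lf p b) G} :
    z ∈ lift p b X ↔ ∀ m : Mk, dnOp p b (cutF (pV (labL p b)) m z) ∈ X := Iff.rfl

lemma LF6_dn_equivar : Equivar (dnOp p b : L2 (Lf p b) G →L[ℂ] L2 ι G) := mulR_equivar _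

include hp in
lemma CI.lift {X : Submodule ℂ (L2 ι G)} (hX : CI X) : CI (lift p b X) := by
  refine ⟨?_, ?_⟩
  · have h : (LFT.lift p b X : Set (L2 (Lf p b) G)) =
        ⋂ m : Mk, (fun z => dnOp p b (cutF (pV (labL p b)) m z)) ⁻¹' X := by
      ext z
      simp only [Set.mem_iInter, Set.mem_preimage, SetLike.mem_coe, LF6_mem_lift]
    rw [h]
    exact isClosed_iInter fun m =>
      hX.cl.preimage ((dnOp p b).continuous.comp (cutF (pV (labL p b)) m).continuous)
  · intro s z hz m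
    have h1 : cutF (pV (labL p b)) m (lt s z) = lt s (cutF (pV (labL p b)) (s⁻¹ • m) z) := by
      rw [lt_cutV, smul_inv_smul]
    rw [h1, LF6_dn_equivar]
    exact hX.inv s _ (hz _)

lemma lift_inf (X Y : Submodule ℂ (L2 ι G)) : lift p b (X ⊓ Y) = lift p b X ⊓ lift p b Y := by
  ext z
  rw [Submodule.mem_inf, LF6_mem_lift, LF6_mem_lift, LF6_mem_lift]
  exact ⟨fun h => ⟨fun m => (h m).1, fun m => (h m).2⟩, fun h m => ⟨h.1 m, h.2 m⟩⟩

lemma lift_loc (X : Submodule ℂ (L2 ι G)) : Loc (pV (labL p b)) (lift p b X) := by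
  intro z hz m₀ m
  rw [cutF_cutF]
  split_ifs
  · exact hz m
  · rw [map_zero]
    exact X.zero_mem

lemma LF6_adjoint : ContinuousLinearMap.adjoint (upOp p b : L2 ι G →L[ℂ] L2 (Lf p b) G)
    = dnOp p b := by
  unfold upOp crd
  rw [adjoint_mulR]
  ext z ⟨i, g⟩
  rw [LF6_dn_apply, mulR_apply]
  unfold starF
  rw [ev_finsetSum]
  refine Finset.sum_congr rfl fun x _ => ?_
  rw [ev_finsetSum]
  simp only [Set.mem_univ, if_true]
  rw [Finsupp.support_single _ (one_ne_zero)]
  split_ifs with h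
  · rw [Finset.filter_true_of_mem (by
      intro q hq
      rw [Finset.mem_singleton] at hq
      rw [hq]; exact h), Finset.sum_singleton, ev_single]
    simp
  · rw [Finset.filter_false_of_mem (by
      intro q hq
      rw [Finset.mem_singleton] at hq
      rw [hq]; exact h), Finset.sum_empty]

lemma LF6_inner (y : L2 ι G) (z : L2 (Lf p b) G) :
    ⟪upOp p b y, z⟫_ℂ = ⟪y, dnOp p b z⟫_ℂ := by
  rw [← LF6_adjoint, ContinuousLinearMap.adjoint_inner_right]

lemma LF6_dl (x : Lf p b) :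
    (dl (x, (1 : G)) : L2 (Lf p b) G)
      = cutF (pV (labL p b)) x.1.2 (upOp p b (dl (x.1.1, (1 : G)))) := by
  ext ⟨y, g⟩
  rw [upOp_cut, dl_apply, dl_apply]
  by_cases h : ((y, g) : Lf p b × G) = (x, 1)
  · obtain ⟨rfl, rfl⟩ := Prod.mk.inj h
    simp
  · rw [if_neg h]
    split_ifs with h1 h2
    · exfalso
      apply h
      obtain ⟨h3, h4⟩ := Prod.mk.inj h2
      subst h4
      rw [one_smul] at h1
      exact Prod.ext (Subtype.ext (Prod.ext h3 h1)) rfl
    · rfl
    · rfl

lemma LF6_card {N : ℕ} (hN : ∀ i, Nat.card {m // p m = b i} = N) (i : ι) :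
    (Finset.univ.filter fun x : Lf p b => x.1.1 = i).card = N := by
  rw [← hN i, ← Fintype.card_subtype, ← Nat.card_eq_fintype_card]
  refine Nat.card_congr
    { toFun := fun x => ⟨x.1.1.2, by rw [x.1.2, x.2]⟩
      invFun := fun m => ⟨⟨(i, m.1), m.2⟩, rfl⟩
      left_inv := ?_
      right_inv := ?_ }
  · rintro ⟨⟨⟨j, m⟩, h⟩, h1⟩
    simp only at h1
    subst h1
    rfl
  · rintro ⟨m, hm⟩
    rfl

include hp in
theorem dm_lift {X : Submodule ℂ (L2 ι G)} (hX : CI X) (hl : Loc (pV b) X) (N : ℕ)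
    (hN : ∀ i, Nat.card {m // p m = b i} = N) : dm (lift p b X) = N * dm X := by
  have c1 : CompleteSpace X := hX.cl.completeSpace_coe
  unfold dm
  have hcut : ∀ i : ι, cutF (pV b) (b i) (X.starProjection (dl (i, (1 : G))))
      = X.starProjection (dl (i, (1 : G))) := by
    intro i
    rw [← hl.proj]
    congr 1
    ext q
    rw [cutF_apply, dl_apply]
    by_cases hq : q = (i, 1)
    · subst hq
      simp [pV]
    · simp [hq]
  rw [vdim_of_candidates (lift p b X) (CI.lift p hp b hX).cl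
    (fun x => cutF (pV (labL p b)) x.1.2 (upOp p b (X.starProjection (dl (x.1.1, (1 : G))))))
    ?_ ?_]
  · have h1 : ∀ x : Lf p b,
        ‖cutF (pV (labL p b)) x.1.2 (upOp p b (X.starProjection (dl (x.1.1, (1 : G)))))‖ ^ 2
          = ‖X.starProjection (dl (x.1.1, (1 : G)))‖ ^ 2 := by
      intro x
      have h2 : ⟪cutF (pV (labL p b)) x.1.2 (upOp p b (X.starProjection (dl (x.1.1, (1 : G))))),
          cutF (pV (labL p b)) x.1.2 (upOp p b (X.starProjection (dl (x.1.1, (1 : G)))))⟫_ℂ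
          = ⟪X.starProjection (dl (x.1.1, (1 : G))),
            X.starProjection (dl (x.1.1, (1 : G)))⟫_ℂ := by
        rw [inner_cut, LF6_inner, dn_up p hp, if_pos rfl, x.2, hcut]
      rw [inner_self_eq_norm_sq_to_K, inner_self_eq_norm_sq_to_K] at h2
      exact_mod_cast h2
    rw [Finset.sum_congr rfl fun x _ => h1 x, vdim_eq_sum, Finset.mul_sum,
      ← Finset.sum_fiberwise Finset.univ (fun x : Lf p b => x.1.1)]
    refine Finset.sum_congr rfl fun i _ => ?_
    rw [Finset.sum_congr rfl (g := fun _ => ‖X.starProjection (dl (i, (1 : G)))‖ ^ 2)]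
    · rw [Finset.sum_const, LF6_card p b hN i, nsmul_eq_mul]
    · intro x hx
      rw [(Finset.mem_filter.mp hx).2]
  · intro x m
    rw [dn_up p hp]
    split_ifs
    · exact hl _ (Submodule.starProjection_apply_mem _ _) _
    · exact X.zero_mem
  · intro x z hz
    rw [LF6_dl, ← map_sub, ← map_sub, inner_cut, LF6_inner]
    exact X.starProjection_inner_eq_zero _ _ (hz x.1.2)

end Lift

end Pool.Agent.LFT
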