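import Pool.Agent.LFT.LF1
import Pool.Agent.LFT.LF6

set_option autoImplicit false
set_option linter.unusedSectionVars false

noncomputable section

open scoped InnerProductSpace ENNReal Topology
open Classical Filter ContinuousLinearMap

namespace Pool.Agent.LFT

open Pool.Agent.VN

section Aux

variable {G : Type} [Group G]

/-- finite closed sums of rational subspaces -/
lemma LF10_rat_iSup {k : Subring ℂ} {M : Type} [MulAction G M] {ι Ty : Type} [Fintype ι]
    {lab : ι → M} (X : Ty → Submodule ℂ (L2 ι G)) (hX : ∀ τ, Rat k lab (X τ)) (F : Finset Ty) :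
    ∃ Z' : Submodule ℂ (L2 ι G), Rat k lab Z' ∧ (∀ τ ∈ F, X τ ≤ Z') ∧
      ∀ W : Submodule ℂ (L2 ι G), IsClosed (W : Set (L2 ι G)) → (∀ τ ∈ F, X τ ≤ W) → Z' ≤ W := by
  induction F using Finset.induction_on with
  | empty => exact ⟨⊥, Rat.bot lab, fun τ h => absurd h (Finset.notMem_empty τ), fun _ _ _ => bot_le⟩
  | insert a s _ ih =>
    obtain ⟨Z', h1, h2, h3⟩ := ih
    refine ⟨csup (X a) Z', (hX a).csup h1, fun τ hτ => ?_, fun W hW h => ?_⟩
    · rcases Finset.mem_insert.mp hτ with rfl | h
      · exact le_csup_left _ _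
      · exact (h2 τ h).trans (le_csup_right _ _)
    · exact csup_le hW (h a (Finset.mem_insert_self _ _))
        (h3 W hW fun τ hτ => h τ (Finset.mem_insert_of_mem hτ))

variable {B Mk Δ : Type} [MulAction G B] [MulAction G Mk] [MulAction G Δ]

/-- the sum over the markings, pointwise -/
lemma LF10_dnOp_apply {ι : Type} [Fintype ι] (p : Mk → B) (b : ι → B) [Fintype (Lf p b)]
    (z : L2 (Lf p b) G) (i : ι) (g : G) :
    dnOp p b z (i, g) = ∑ x : Lf p b, if x.1.1 = i then z (x, g) else 0 := by
  unfold dnOp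
  rw [mulR_apply, ev_finsetSum]
  refine Finset.sum_congr rfl fun x _ => ?_
  split_ifs
  · rw [ev_single]
    simp
  · rw [ev_zero]

/-- the matrix of the operator `dnOp ∘ cp` -/
lemma LF10_locOp {k : Subring ℂ} {ι : Type} [Fintype ι] (p : Mk → B) (b : ι → B)
    [Fintype (Lf p b)] (D : Mk → Δ) (d : ι → Δ) :
    LocOp k (fun x => D (labL p b x)) d
      (dnOp p b ∘L cp (G := G) {x : Lf p b | D x.1.2 = d x.1.1}) := by
  refine ⟨fun i => ∑ x : Lf p b,
    if x.1.1 = i ∧ D x.1.2 = d x.1.1 then Finsupp.single (x, (1 : G)) 1 else 0, ?_, ?_, ?_⟩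
  · intro j
    refine coefIn_sum _ _ _ fun x _ => ?_
    split_ifs
    · exact coefIn_single _ _ _ k.one_mem
    · intro q
      rw [Finsupp.coe_zero, Pi.zero_apply]
      exact k.zero_mem
  · intro j q hq
    obtain ⟨x, -, hx⟩ := Finset.mem_biUnion.mp (Finsupp.support_finset_sum hq)
    split_ifs at hx with h
    · have h1 := Finset.mem_singleton.mp (Finsupp.support_single_subset hx)
      subst h1
      simp only [inv_one, one_smul]
      rw [← h.1]
      exact h.2
    · simp at hx
  · ext z q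
    obtain ⟨i, g⟩ := q
    rw [ContinuousLinearMap.comp_apply, LF10_dnOp_apply, mulR_apply]
    show _ = ev (∑ x : Lf p b,
      if x.1.1 = i ∧ D x.1.2 = d x.1.1 then Finsupp.single (x, (1 : G)) 1 else 0) z g
    rw [ev_finsetSum]
    refine Finset.sum_congr rfl fun x _ => ?_
    have hr : ev (if x.1.1 = i ∧ D x.1.2 = d x.1.1 then Finsupp.single (x, (1 : G)) (1 : ℂ) else 0)
        z g = if x.1.1 = i ∧ D x.1.2 = d x.1.1 then z (x, g) else 0 := by
      split_ifs
      · rw [ev_single]
        simp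
      · rw [ev_zero]
    rw [hr]
    have hl : cp {x : Lf p b | D x.1.2 = d x.1.1} z (x, g)
        = if D x.1.2 = d x.1.1 then z (x, g) else 0 := cp_apply _ _ _
    rw [hl]
    by_cases h1 : x.1.1 = i
    · by_cases h2 : D x.1.2 = d x.1.1
      · rw [if_pos h1, if_pos h2, if_pos ⟨h1, h2⟩]
      · rw [if_pos h1, if_neg h2, if_neg fun h => h2 h.2]
    · rw [if_neg h1, if_neg fun h => h1 h.1]

/-- cutting commutes with coordinate projections -/
lemma LF10_cp_cutF {ι M : Type} [MulAction G M] [Fintype ι] (lab : ι → M) (s : Set ι) (m : M)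
    (z : L2 ι G) : cp s (cutF (pV lab) m z) = cutF (pV lab) m (cp s z) := by
  ext q
  rw [cp_apply, cutF_apply, cutF_apply, cp_apply]
  by_cases h1 : q.1 ∈ s <;> by_cases h2 : pV lab q = m <;> simp [h1, h2]

end Aux

section Descend

variable {G : Type} [Group G] {B Mk Δ : Type} [MulAction G B] [MulAction G Mk] [MulAction G Δ]

lemma LF10_main {k : Subring ℂ} {ι Q Ty : Type} [Fintype ι] [Fintype Ty]
    (d : ι → Δ) (b : ι → B)
    (p : Mk → B) (hp : ∀ (g : G) m, p (g • m) = g • p m) [Fintype (Lf p b)]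
    (e : Q → Mk → Mk) (hep : ∀ q m, p (e q m) = p m) (heg : ∀ q (g : G) m, e q (g • m) = g • e q m)
    (hetr : ∀ m m', p m = p m' → ∃ q, e q m = m')
    (D : Ty → Mk → Δ) (hD : ∀ τ (g : G) m, D τ (g • m) = g • D τ m)
    (hcov : ∀ i m, p m = b i → ∃ τ, D τ m = d i)
    {Z : Submodule ℂ (L2 (Lf p b) G)} (hZ : Rat k (labL p b) Z)
    (hZD : ∀ τ, ∀ z ∈ Z, cp {x | D τ x.1.2 = d x.1.1} z ∈ Z)
    (hZQ : ∀ q, ∀ z ∈ Z, perOp p b (e q) (hep q) z ∈ Z) :
    ∃ Z' : Submodule ℂ (L2 ι G), Rat k d Z' ∧ lift p b Z' = Z := by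
  set J : Ty → L2 (Lf p b) G →L[ℂ] L2 ι G :=
    fun τ => dnOp p b ∘L cp {x : Lf p b | D τ x.1.2 = d x.1.1} with hJ
  obtain ⟨Z', hZ1, hZ2, hZ3⟩ := LF10_rat_iSup (k := k) (lab := d) (fun τ => imc (J τ) Z)
    (fun τ => Rat.imc (LF10_locOp p b (D τ) d) (hZ.mapLab (D τ) (hD τ))) Finset.univ
  refine ⟨Z', hZ1, le_antisymm ?_ ?_⟩
  · -- `lift Z' ≤ Z`
    intro z' hz'
    have hm : ∀ m : Mk, dnOp p b (cutF (pV (labL p b)) m z') ∈ Z' := hz'
    refine mem_of_pieces hZ.ci.cl hZ.loc fun m => ?_
    rw [← up_dn p hp b m z']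
    have key : ∀ y ∈ Z', cutF (pV (labL p b)) m (upOp p b y) ∈ Z := by
      let W : Submodule ℂ (L2 ι G) :=
        Z.comap ((cutF (pV (labL p b)) m) ∘L upOp p b).toLinearMap
      have hW : IsClosed (W : Set (L2 ι G)) :=
        hZ.ci.cl.preimage ((cutF (pV (labL p b)) m) ∘L upOp p b).continuous
      have hle : Z' ≤ W := by
        refine hZ3 W hW fun τ _ => imc_le hW fun z hz => ?_
        show cutF (pV (labL p b)) m (upOp p b (dnOp p b (cp {x : Lf p b | D τ x.1.2 = d x.1.1} z)))
          ∈ Z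
        generalize hw : cp {x : Lf p b | D τ x.1.2 = d x.1.1} z = w
        have hwZ : w ∈ Z := hw ▸ hZD τ z hz
        by_cases hx : ∃ (x : Lf p b) (g : G), g • x.1.2 = m
        · obtain ⟨x₀, g₀, h₀⟩ := hx
          have hq : ∀ x : {x : Lf p b // x.1.1 = x₀.1.1}, ∃ q, e q m = g₀ • x.1.1.2 := by
            intro x
            apply hetr
            rw [← h₀, hp, hp, x.1.2, x₀.2, x.2]
          choose q hq using hq
          have hsum : cutF (pV (labL p b)) m (upOp p b (dnOp p b w))
              = ∑ x : {x : Lf p b // x.1.1 = x₀.1.1},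
                cutF (pV (labL p b)) m (perOp p b (e (q x)) (hep (q x)) w) := by
            ext ⟨y, g⟩
            rw [upOp_cut, LF10_dnOp_apply]
            have hR : (∑ x : {x : Lf p b // x.1.1 = x₀.1.1},
                cutF (pV (labL p b)) m (perOp p b (e (q x)) (hep (q x)) w) : L2 (Lf p b) G) (y, g)
                = ∑ x : {x : Lf p b // x.1.1 = x₀.1.1}, if g • y.1.2 = m then
                  w ((⟨(y.1.1, e (q x) y.1.2), by rw [hep]; exact y.2⟩ : Lf p b), g) else 0 := by
              rw [lp.coeFn_sum, Finset.sum_apply]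
              refine Finset.sum_congr rfl fun x _ => ?_
              rw [cutF_apply]
              unfold perOp
              rw [crd_apply, if_pos (Set.mem_univ _)]
              rfl
            rw [hR]
            by_cases hy : g • y.1.2 = m
            · simp only [if_pos hy]
              have hy2 : y.1.2 = g⁻¹ • m := by rw [← hy, inv_smul_smul]
              have he : ∀ x : {x : Lf p b // x.1.1 = x₀.1.1},
                  e (q x) y.1.2 = g⁻¹ • g₀ • x.1.1.2 := by
                intro x
                rw [hy2, heg, hq]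
              rw [← Finset.sum_filter]
              symm
              refine Finset.sum_bij
                (fun x _ => (⟨(y.1.1, e (q x) y.1.2), by rw [hep]; exact y.2⟩ : Lf p b))
                ?_ ?_ ?_ ?_
              · intro x _
                exact Finset.mem_filter.mpr ⟨Finset.mem_univ _, rfl⟩
              · intro x _ x' _ hxx
                have h1 : e (q x) y.1.2 = e (q x') y.1.2 := congrArg (fun z => z.1.2) hxx
                rw [he, he] at h1
                have h2 : x.1.1.2 = x'.1.1.2 := by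
                  have h3 := congrArg (fun z => g₀⁻¹ • g • z) h1
                  simpa using h3
                exact Subtype.ext (Subtype.ext (Prod.ext (x.2.trans x'.2.symm) h2))
              · intro x hx
                have hx1 : x.1.1 = y.1.1 := (Finset.mem_filter.mp hx).2
                have hpx : p (g₀⁻¹ • g • x.1.2) = b x₀.1.1 := by
                  rw [hp, hp, x.2, hx1, ← y.2, ← hp, hy, ← h₀, hp, inv_smul_smul, x₀.2]
                refine ⟨⟨⟨(x₀.1.1, g₀⁻¹ • g • x.1.2), hpx⟩, rfl⟩, Finset.mem_univ _, ?_⟩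
                apply Subtype.ext
                apply Prod.ext
                · exact hx1.symm
                · show e (q _) y.1.2 = x.1.2
                  rw [he, smul_inv_smul, inv_smul_smul]
              · intro x _
                rfl
            · simp only [if_neg hy, Finset.sum_const_zero]
          rw [hsum]
          exact Z.sum_mem fun x _ => hZ.loc _ (hZQ (q x) w hwZ) m
        · have h0 : cutF (pV (labL p b)) m (upOp p b (dnOp p b w)) = 0 := by
            ext ⟨y, g⟩
            rw [upOp_cut, if_neg]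
            · rfl
            · exact fun h => hx ⟨y, g, h⟩
          rw [h0]
          exact Z.zero_mem
      exact fun y hy => hle hy
    exact key _ (hm m)
  · -- `Z ≤ lift Z'`
    intro z hz m
    have hw : cutF (pV (labL p b)) m z ∈ Z := hZ.loc z hz m
    refine mem_of_pieces hZ1.ci.cl hZ1.loc fun δ => ?_
    by_cases hτ : ∃ τ, D τ m = δ
    · obtain ⟨τ, hτ⟩ := hτ
      have h1 : cutF (pV d) δ (dnOp p b (cutF (pV (labL p b)) m z))
          = J τ (cutF (pV (labL p b)) m z) := by
        ext ⟨i, g⟩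
        rw [cutF_apply, dnOp_cut p hp, hJ]
        simp only
        rw [ContinuousLinearMap.comp_apply, LF10_cp_cutF, dnOp_cut p hp]
        have h2 : pV d (i, g) = δ ↔ D τ (g⁻¹ • m) = d i := by
          rw [hD, hτ]
          unfold pV
          simp only
          rw [inv_smul_eq_iff, eq_comm]
        by_cases h3 : p (g⁻¹ • m) = b i
        · rw [dif_pos h3, dif_pos h3, cp_apply]
          by_cases h4 : D τ (g⁻¹ • m) = d i
          · rw [if_pos (h2.mpr h4), if_pos]
            exact h4
          · rw [if_neg (fun h => h4 (h2.mp h)), if_neg]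
            exact h4
        · rw [dif_neg h3, dif_neg h3, ite_self]
      rw [h1]
      exact hZ2 τ (Finset.mem_univ τ) (mem_imc (J τ) hw)
    · have h0 : cutF (pV d) δ (dnOp p b (cutF (pV (labL p b)) m z)) = 0 := by
        ext ⟨i, g⟩
        rw [cutF_apply, dnOp_cut p hp]
        split_ifs with h1 h2
        · exfalso
          obtain ⟨τ, h3⟩ := hcov i (g⁻¹ • m) h2
          apply hτ
          refine ⟨τ, ?_⟩
          rw [hD, inv_smul_eq_iff] at h3
          rw [h3]
          exact h1
        · rfl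
        · rfl
      rw [h0]
      exact Z'.zero_mem

theorem exists_descend {k : Subring ℂ} {ι Q Ty : Type} [Fintype ι] [Fintype Q] [Fintype Ty]
    (α : Δ → B) (hα : ∀ (g : G) δ, α (g • δ) = g • α δ) (d : ι → Δ)
    (p : Mk → B) (hp : ∀ (g : G) m, p (g • m) = g • p m) [Fintype (Lf p fun i => α (d i))]
    (e : Q → Mk → Mk) (hep : ∀ q m, p (e q m) = p m) (heg : ∀ q (g : G) m, e q (g • m) = g • e q m)
    (hetr : ∀ m m', p m = p m' → ∃ q, e q m = m')
    (D : Ty → Mk → Δ) (hD : ∀ τ (g : G) m, D τ (g • m) = g • D τ m)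
    (hDQ : ∀ q τ, ∃ τ', ∀ m, D τ (e q m) = D τ' m) (hDα : ∀ τ m, α (D τ m) = p m)
    (hcov : ∀ i m, p m = α (d i) → ∃ τ, D τ m = d i)
    {Z : Submodule ℂ (L2 (Lf p fun i => α (d i)) G)} (hZ : Rat k (labL p fun i => α (d i)) Z)
    (hZD : ∀ τ, ∀ z ∈ Z, cp {x | D τ x.1.2 = d x.1.1} z ∈ Z)
    (hZQ : ∀ q, ∀ z ∈ Z, perOp p (fun i => α (d i)) (e q) (hep q) z ∈ Z) :
    ∃ Z' : Submodule ℂ (L2 ι G), Rat k d Z' ∧ lift p (fun i => α (d i)) Z' = Z := by
  exact LF10_main d (fun i => α (d i)) p hp e hep heg hetr D hD hcov hZ hZD hZQ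

end Descend

end Pool.Agent.LFT
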