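import Pool.Agent.LFT.Base

set_option autoImplicit false
set_option linter.unusedSectionVars false

noncomputable section

open scoped InnerProductSpace ENNReal Topology
open Classical Filter ContinuousLinearMap

namespace Pool.Agent.LFT

open Pool.Agent.VN

section LF11

variable {G : Type} [Group G] {Δ B : Type} [MulAction G Δ] [MulAction G B]
    {ι : Type} [Fintype ι] (α : Δ → B) (d : ι → Δ)

/-- the darts at a vertex which are translates of the given ones -/
def LF11_Dv (G : Type) [Group G] {Δ B : Type} [MulAction G Δ] [MulAction G B]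
    {ι : Type} (α : Δ → B) (d : ι → Δ) (v : B) : Set Δ :=
  {δ | α δ = v ∧ ∃ i, ∃ g : G, g • d i = δ}

lemma LF11_self_mem (i : ι) : d i ∈ LF11_Dv G α d (α (d i)) :=
  ⟨rfl, i, 1, one_smul _ _⟩

lemma LF11_smul_mem (hα : ∀ (g : G) δ, α (g • δ) = g • α δ) {v : B} (g : G) {δ : Δ}
    (h : δ ∈ LF11_Dv G α d v) : g • δ ∈ LF11_Dv G α d (g • v) := by
  obtain ⟨h1, i, g', h2⟩ := h
  refine ⟨by rw [hα, h1], i, g * g', by rw [mul_smul, h2]⟩

lemma LF11_ncard_smul (hα : ∀ (g : G) δ, α (g • δ) = g • α δ) (v : B) (g : G) :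
    (LF11_Dv G α d (g • v)).ncard = (LF11_Dv G α d v).ncard := by
  symm
  apply Set.ncard_congr (fun δ _ => g • δ)
  · intro δ h
    exact LF11_smul_mem α d hα g h
  · intro a b _ _ h
    exact smul_left_cancel g h
  · intro δ h
    refine ⟨g⁻¹ • δ, ?_, smul_inv_smul _ _⟩
    have := LF11_smul_mem α d hα g⁻¹ h
    rwa [inv_smul_smul] at this

lemma LF11_finite (hα : ∀ (g : G) δ, α (g • δ) = g • α δ)
    (hfin : ∀ i, (MulAction.stabilizer G (d i)).relIndex
      (MulAction.stabilizer G (α (d i))) ≠ 0) (v : B) : (LF11_Dv G α d v).Finite := by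
  have hsub : LF11_Dv G α d v ⊆ ⋃ i : ι, {δ | α δ = v ∧ ∃ g : G, g • d i = δ} := by
    rintro δ ⟨h1, i, g, h2⟩
    exact Set.mem_iUnion.2 ⟨i, h1, g, h2⟩
  refine Set.Finite.subset (Set.finite_iUnion fun i => ?_) hsub
  by_cases hne : ∃ g₀ : G, α (g₀ • d i) = v
  · obtain ⟨g₀, hg₀⟩ := hne
    have horb : (MulAction.orbit (MulAction.stabilizer G (α (d i))) (d i)).Finite := by
      apply Set.finite_of_ncard_ne_zero
      have h1 := MulAction.index_stabilizer (MulAction.stabilizer G (α (d i))) (d i)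
      rw [← h1]
      have h2 : MulAction.stabilizer (MulAction.stabilizer G (α (d i))) (d i)
          = (MulAction.stabilizer G (d i)).subgroupOf (MulAction.stabilizer G (α (d i))) := by
        ext x
        simp [Subgroup.mem_subgroupOf, MulAction.mem_stabilizer_iff, Subgroup.smul_def]
      rw [h2]
      exact hfin i
    refine Set.Finite.subset (horb.image (fun δ => g₀ • δ)) ?_
    rintro δ ⟨h1, g, h2⟩
    refine ⟨(g₀⁻¹ * g) • d i, ⟨⟨g₀⁻¹ * g, ?_⟩, rfl⟩, ?_⟩
    · rw [MulAction.mem_stabilizer_iff, mul_smul, ← hα g, h2, h1, ← hg₀, hα, inv_smul_smul]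
    · simp only []
      rw [mul_smul, smul_inv_smul, h2]
  · convert Set.finite_empty
    ext δ
    simp only [Set.mem_ofPred_eq, Set.mem_empty_iff_false, iff_false]
    rintro ⟨h1, g, h2⟩
    exact hne ⟨g, by rw [h2, h1]⟩

/-- the common size -/
def LF11_R (G : Type) [Group G] {Δ B : Type} [MulAction G Δ] [MulAction G B]
    {ι : Type} [Fintype ι] (α : Δ → B) (d : ι → Δ) : ℕ :=
  ∏ i, (LF11_Dv G α d (α (d i))).ncard

/-- the target set -/
def LF11_T (G : Type) [Group G] {Δ B : Type} [MulAction G Δ] [MulAction G B]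
    {ι : Type} [Fintype ι] (α : Δ → B) (d : ι → Δ) (v : B) : Set (Δ × ℕ) :=
  LF11_Dv G α d v ×ˢ Set.Iio (LF11_R G α d / (LF11_Dv G α d v).ncard)

lemma LF11_R_pos (hα : ∀ (g : G) δ, α (g • δ) = g • α δ)
    (hfin : ∀ i, (MulAction.stabilizer G (d i)).relIndex
      (MulAction.stabilizer G (α (d i))) ≠ 0) : 0 < LF11_R G α d := by
  unfold LF11_R
  apply Finset.prod_pos
  intro i _
  rw [Set.ncard_pos (LF11_finite α d hα hfin _)]
  exact ⟨d i, LF11_self_mem α d i⟩

lemma LF11_T_finite (hα : ∀ (g : G) δ, α (g • δ) = g • α δ)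
    (hfin : ∀ i, (MulAction.stabilizer G (d i)).relIndex
      (MulAction.stabilizer G (α (d i))) ≠ 0) (v : B) : (LF11_T G α d v).Finite :=
  (LF11_finite α d hα hfin v).prod (Set.finite_Iio _)

lemma LF11_T_ncard (hα : ∀ (g : G) δ, α (g • δ) = g • α δ) (v : B)
    (hne : (LF11_T G α d v).Nonempty) : (LF11_T G α d v).ncard = LF11_R G α d := by
  obtain ⟨⟨δ, n⟩, ⟨h1, i, g, h2⟩, -⟩ := hne
  simp only at h1 h2
  have hv : v = g • α (d i) := by rw [← h1, ← h2, hα]
  unfold LF11_T
  rw [Set.ncard_prod, hv, LF11_ncard_smul α d hα]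
  have h3 : (Set.Iio (LF11_R G α d / (LF11_Dv G α d (α (d i))).ncard)).ncard
      = LF11_R G α d / (LF11_Dv G α d (α (d i))).ncard := by
    rw [Set.ncard_eq_toFinset_card']
    simp
  rw [h3]
  apply Nat.mul_div_cancel'
  unfold LF11_R
  exact Finset.dvd_prod_of_mem (fun i => (LF11_Dv G α d (α (d i))).ncard) (Finset.mem_univ i)

/-- the set of markings -/
def LF11_Mk (G : Type) [Group G] {Δ B : Type} [MulAction G Δ] [MulAction G B]
    {ι : Type} [Fintype ι] (α : Δ → B) (d : ι → Δ) : Type :=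
  {x : B × (Fin (LF11_R G α d) → Δ × ℕ) //
    Function.Injective x.2 ∧ ∀ t, x.2 t ∈ LF11_T G α d x.1}

lemma LF11_T_smul (hα : ∀ (g : G) δ, α (g • δ) = g • α δ) {v : B} (g : G) {x : Δ × ℕ}
    (h : x ∈ LF11_T G α d v) : (g • x.1, x.2) ∈ LF11_T G α d (g • v) := by
  refine ⟨LF11_smul_mem α d hα g h.1, ?_⟩
  have := h.2
  simp only [Set.mem_Iio] at this ⊢
  rwa [LF11_ncard_smul α d hα]

/-- the action of the group on the markings -/
@[reducible] def LF11_actG (hα : ∀ (g : G) δ, α (g • δ) = g • α δ) :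
    MulAction G (LF11_Mk G α d) where
  smul g m := ⟨(g • m.1.1, fun t => (g • (m.1.2 t).1, (m.1.2 t).2)), by
    intro s t h
    simp only [Prod.mk.injEq] at h
    exact m.2.1 (Prod.ext (smul_left_cancel g h.1) h.2), fun t =>
      LF11_T_smul α d hα g (m.2.2 t)⟩
  one_smul m := by
    apply Subtype.ext
    apply Prod.ext
    · exact one_smul G m.1.1
    · funext t
      exact Prod.ext (one_smul G (m.1.2 t).1) rfl
  mul_smul g h m := by
    apply Subtype.ext
    apply Prod.ext
    · exact mul_smul g h m.1.1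
    · funext t
      exact Prod.ext (mul_smul g h (m.1.2 t).1) rfl

/-- the action of the permutations on the markings -/
@[reducible] def LF11_actQ : MulAction (Equiv.Perm (Fin (LF11_R G α d))) (LF11_Mk G α d) where
  smul q m := ⟨(m.1.1, fun t => m.1.2 (q⁻¹ t)), fun s t h => q⁻¹.injective (m.2.1 h), fun t =>
      m.2.2 _⟩
  one_smul m := rfl
  mul_smul q r m := by
    apply Subtype.ext
    apply Prod.ext
    · rfl
    · funext t
      show m.1.2 ((q * r)⁻¹ t) = m.1.2 (r⁻¹ (q⁻¹ t))
      rw [mul_inv_rev]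
      rfl

lemma LF11_surj (hα : ∀ (g : G) δ, α (g • δ) = g • α δ)
    (hfin : ∀ i, (MulAction.stabilizer G (d i)).relIndex
      (MulAction.stabilizer G (α (d i))) ≠ 0) (m : LF11_Mk G α d) {x : Δ × ℕ}
    (hx : x ∈ LF11_T G α d m.1.1) : ∃ t, m.1.2 t = x := by
  have hfinT := LF11_T_finite α d hα hfin m.1.1
  have hcard := LF11_T_ncard α d hα m.1.1 ⟨x, hx⟩
  have hsub : Set.range m.1.2 ⊆ LF11_T G α d m.1.1 := by
    rintro _ ⟨t, rfl⟩
    exact m.2.2 t
  have hr : (Set.range m.1.2).ncard = LF11_R G α d := by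
    rw [← Set.image_univ, Set.ncard_image_of_injective _ m.2.1, Set.ncard_univ]
    simp
  have heq : Set.range m.1.2 = LF11_T G α d m.1.1 :=
    Set.eq_of_subset_of_ncard_le hsub (by rw [hr, hcard]) hfinT
  rw [← heq] at hx
  exact hx

end LF11

theorem exists_marking {G : Type} [Group G] {Δ B : Type} [MulAction G Δ] [MulAction G B]
    {ι : Type} [Fintype ι] (α : Δ → B) (hα : ∀ (g : G) δ, α (g • δ) = g • α δ) (d : ι → Δ)
    (hfin : ∀ i, (MulAction.stabilizer G (d i)).relIndex (MulAction.stabilizer G (α (d i))) ≠ 0) :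
    ∃ (Mk : Type) (_ : MulAction G Mk) (p : Mk → B) (Q Ty : Type) (_ : Group Q) (_ : Fintype Q)
      (_ : Fintype Ty) (_ : MulAction Q Mk) (D : Ty → Mk → Δ) (N : ℕ), 0 < N ∧
      (∀ (g : G) m, p (g • m) = g • p m) ∧ (∀ v : B, Finite {m // p m = v}) ∧
      (∀ (q : Q) m, p (q • m) = p m) ∧ (∀ (q : Q) (g : G) (m : Mk), q • (g • m) = g • (q • m)) ∧
      (∀ m m', p m = p m' → ∃ q : Q, q • m = m') ∧
      (∀ τ (g : G) m, D τ (g • m) = g • D τ m) ∧
      (∀ (q : Q) τ, ∃ τ', ∀ m, D τ (q • m) = D τ' m) ∧ (∀ τ m, α (D τ m) = p m) ∧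
      (∀ i m, p m = α (d i) → ∃ τ, D τ m = d i) ∧
      (∀ i, Nat.card {m // p m = α (d i)} = N) := by
  have hRpos := LF11_R_pos α d hα hfin
  refine ⟨LF11_Mk G α d, LF11_actG α d hα, fun m => m.1.1,
    Equiv.Perm (Fin (LF11_R G α d)), Fin (LF11_R G α d), inferInstance, inferInstance,
    inferInstance, LF11_actQ α d, fun t m => (m.1.2 t).1, (LF11_R G α d).factorial,
    Nat.factorial_pos _, fun g m => rfl, fun v => ?_, fun q m => rfl, fun q g m => rfl,
    fun m m' h => ?_, fun t g m => rfl, fun q t => ⟨q⁻¹ t, fun m => rfl⟩,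
    fun t m => (m.2.2 t).1.1, fun i m h => ?_, fun i => ?_⟩
  · have hT := LF11_T_finite α d hα hfin v
    have : Finite (LF11_T G α d v) := hT.to_subtype
    refine Finite.of_injective (β := Fin (LF11_R G α d) → LF11_T G α d v)
      (fun m t => ⟨m.1.1.2 t, by
        have h1 : m.1.1.1 = v := m.2
        have := m.1.2.2 t
        rwa [h1] at this⟩) ?_
    intro m m' h
    apply Subtype.ext
    apply Subtype.ext
    apply Prod.ext
    · exact m.2.trans m'.2.symm
    · funext t
      have := congrFun h t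
      exact congrArg Subtype.val this
  · -- transitivity
    simp only at h
    have hx : ∀ t, ∃ s, m.1.2 s = m'.1.2 t := fun t =>
      LF11_surj α d hα hfin m (by have := m'.2.2 t; rwa [← h] at this)
    choose f hf using hx
    have hinj : Function.Injective f := by
      intro s t hst
      apply m'.2.1
      rw [← hf s, ← hf t, hst]
    have hbij : Function.Bijective f := Finite.injective_iff_bijective.1 hinj
    refine ⟨(Equiv.ofBijective f hbij)⁻¹, ?_⟩
    apply Subtype.ext
    apply Prod.ext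
    · exact h
    · funext t
      show m.1.2 (((Equiv.ofBijective f hbij)⁻¹)⁻¹ t) = m'.1.2 t
      rw [inv_inv]
      exact hf t
  · -- covering
    simp only at h
    have hmem : (d i, 0) ∈ LF11_T G α d m.1.1 := by
      rw [h]
      refine ⟨LF11_self_mem α d i, ?_⟩
      simp only [Set.mem_Iio]
      apply Nat.div_pos
      · apply Nat.le_of_dvd hRpos
        exact Finset.dvd_prod_of_mem (fun i => (LF11_Dv G α d (α (d i))).ncard)
          (Finset.mem_univ i)
      · rw [Set.ncard_pos (LF11_finite α d hα hfin _)]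
        exact ⟨d i, LF11_self_mem α d i⟩
    obtain ⟨t, ht⟩ := LF11_surj α d hα hfin m hmem
    exact ⟨t, congrArg Prod.fst ht⟩
  · -- counting
    have hmem : (d i, 0) ∈ LF11_T G α d (α (d i)) := by
      refine ⟨LF11_self_mem α d i, ?_⟩
      simp only [Set.mem_Iio]
      apply Nat.div_pos
      · apply Nat.le_of_dvd hRpos
        exact Finset.dvd_prod_of_mem (fun i => (LF11_Dv G α d (α (d i))).ncard)
          (Finset.mem_univ i)
      · rw [Set.ncard_pos (LF11_finite α d hα hfin _)]
        exact ⟨d i, LF11_self_mem α d i⟩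
    have hcard := LF11_T_ncard α d hα (α (d i)) ⟨_, hmem⟩
    have hT := LF11_T_finite α d hα hfin (α (d i))
    have : Fintype (LF11_T G α d (α (d i))) := hT.fintype
    have e : {m : LF11_Mk G α d // m.1.1 = α (d i)} ≃
        (Fin (LF11_R G α d) ↪ LF11_T G α d (α (d i))) :=
      { toFun := fun m => ⟨fun t => ⟨m.1.1.2 t, by have := m.1.2.2 t; rwa [m.2] at this⟩,
          fun s t h => m.1.2.1 (congrArg Subtype.val h)⟩
        invFun := fun e => ⟨⟨(α (d i), fun t => (e t).1),
          fun s t h => e.injective (Subtype.ext h), fun t => (e t).2⟩, rfl⟩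
        left_inv := by
          intro m
          apply Subtype.ext
          apply Subtype.ext
          apply Prod.ext
          · exact m.2.symm
          · rfl
        right_inv := by
          intro e
          rfl }
    rw [Nat.card_congr e, Nat.card_eq_fintype_card, Fintype.card_embedding_eq, Fintype.card_fin,
      ← Nat.card_eq_fintype_card]
    have : Nat.card (LF11_T G α d (α (d i))) = LF11_R G α d := hcard
    rw [this, Nat.descFactorial_self]


end Pool.Agent.LFT
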