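import Pool.Agent.LFT.Base

set_option autoImplicit false
set_option linter.unusedSectionVars false

noncomputable section

open scoped InnerProductSpace ENNReal Topology
open Classical Filter ContinuousLinearMap

namespace Pool.Agent.LFT

open Pool.Agent.VN

/-- the weighted dimension -/
def LF3_psi {G : Type} [Group G] {ι : Type} [Fintype ι] (P : Submodule ℂ (L2 ι G)) (u : ℝ)
    (X : Submodule ℂ (L2 ι G)) : ℝ := dm (P ⊓ X) - u * dm X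

/-- the supremum of the weighted dimensions -/
def LF3_m {G : Type} [Group G] {ι : Type} [Fintype ι] (R : Submodule ℂ (L2 ι G) → Prop)
    (P : Submodule ℂ (L2 ι G)) (u : ℝ) : ℝ := sSup {r | ∃ X, R X ∧ r = LF3_psi P u X}

lemma LF3_le_m {G : Type} [Group G] {ι : Type} [Fintype ι] (R : Submodule ℂ (L2 ι G) → Prop)
    (P : Submodule ℂ (L2 ι G)) {u : ℝ} (hu : 0 ≤ u) {X : Submodule ℂ (L2 ι G)} (hX : R X) :
    LF3_psi P u X ≤ LF3_m R P u := by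
  refine le_csSup ⟨(Fintype.card ι : ℝ), ?_⟩ ⟨X, hX, rfl⟩
  rintro _ ⟨Y, -, rfl⟩
  unfold LF3_psi
  have h1 := dm_le_card (P ⊓ Y)
  have h2 := mul_nonneg hu (dm_nonneg Y)
  linarith

lemma LF3_m_le {G : Type} [Group G] {ι : Type} [Fintype ι] {R : Submodule ℂ (L2 ι G) → Prop}
    {P : Submodule ℂ (L2 ι G)} {u c : ℝ} (hne : ∃ X, R X) (h : ∀ X, R X → LF3_psi P u X ≤ c) :
    LF3_m R P u ≤ c := by
  obtain ⟨X, hX⟩ := hne
  refine csSup_le ⟨_, X, hX, rfl⟩ ?_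
  rintro _ ⟨Y, hY, rfl⟩
  exact h Y hY

lemma LF3_exists {G : Type} [Group G] {ι : Type} [Fintype ι] {R : Submodule ℂ (L2 ι G) → Prop}
    (P : Submodule ℂ (L2 ι G)) (u : ℝ) (hne : ∃ X, R X) {δ : ℝ} (hδ : 0 < δ) :
    ∃ X, R X ∧ LF3_m R P u - δ ≤ LF3_psi P u X := by
  obtain ⟨X, hX⟩ := hne
  obtain ⟨r, ⟨Y, hY, rfl⟩, hr⟩ := exists_lt_of_lt_csSup
    (s := {r | ∃ X, R X ∧ r = LF3_psi P u X}) ⟨_, X, hX, rfl⟩
    (sub_lt_self (LF3_m R P u) hδ)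
  exact ⟨Y, hY, hr.le⟩

lemma LF3_step {G : Type} [Group G] {ι : Type} [Fintype ι]
    (R Rc : Submodule ℂ (L2 ι G) → Prop) (hc : ∀ X, Rc X → CI X) (hR : ∀ X, R X → Rc X)
    (hi : ∀ X Y, Rc X → Rc Y → Rc (X ⊓ Y)) (hs : ∀ X Y, Rc X → Rc Y → Rc (csup X Y))
    {P K : Submodule ℂ (L2 ι G)} (hP : CI P) (hK : Rc K)
    (key : ∀ u : ℝ, 0 ≤ u → u ≤ 1 → ∀ Y, Rc Y → ∀ ε : ℝ, 0 < ε →
      ∃ S, R S ∧ dm (P ⊓ Y) - u * dm Y - ε ≤ dm (P ⊓ S) - u * dm S)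
    {u h δ : ℝ} (hu0 : 0 ≤ u) (hu1 : u ≤ 1) (hh : 0 ≤ h) (hδ : 0 < δ)
    {S : Submodule ℂ (L2 ι G)} (hS : R S) (hSm : LF3_m R P u - δ ≤ LF3_psi P u S) :
    LF3_m (fun X => Rc X ∧ X ≤ K) P u - LF3_m (fun X => Rc X ∧ X ≤ K) P (u + h) ≤
      h * dm (K ⊓ S) + 2 * δ := by
  obtain ⟨Y0, ⟨hY0, hY0K⟩, hY0m⟩ := LF3_exists (R := fun X => Rc X ∧ X ≤ K) P u
    ⟨K, hK, le_rfl⟩ hδ
  have h1 : LF3_psi P u Y0 + LF3_psi P u S ≤ LF3_psi P u (csup Y0 S) + LF3_psi P u (Y0 ⊓ S) := by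
    unfold LF3_psi
    have e1 := dm_inf_csup hP (hc _ hY0) (hc _ (hR _ hS))
    have e2 := dm_csup (hc _ hY0) (hc _ (hR _ hS))
    have e3 : u * dm (csup Y0 S) + u * dm (Y0 ⊓ S) = u * dm Y0 + u * dm S := by
      rw [← mul_add, e2, mul_add]
    linarith
  have h2 : LF3_psi P u (csup Y0 S) ≤ LF3_m R P u := by
    refine le_of_forall_pos_le_add fun ε hε => ?_
    obtain ⟨S', hS', hle⟩ := key u hu0 hu1 _ (hs _ _ hY0 (hR _ hS)) ε hε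
    have h3 := LF3_le_m R P hu0 hS'
    unfold LF3_psi at h3 ⊢
    linarith
  have h3 : LF3_psi P (u + h) (Y0 ⊓ S) ≤ LF3_m (fun X => Rc X ∧ X ≤ K) P (u + h) :=
    LF3_le_m (fun X => Rc X ∧ X ≤ K) P (add_nonneg hu0 hh)
      ⟨hi _ _ hY0 (hR _ hS), inf_le_left.trans hY0K⟩
  have h4 : LF3_psi P (u + h) (Y0 ⊓ S) = LF3_psi P u (Y0 ⊓ S) - h * dm (Y0 ⊓ S) := by
    unfold LF3_psi
    ring
  have h5 : h * dm (Y0 ⊓ S) ≤ h * dm (K ⊓ S) :=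
    mul_le_mul_of_nonneg_left (dm_mono (inf_le_inf_right S hY0K)) hh
  linarith

theorem telescope {G : Type} [Group G] {ι : Type} [Fintype ι]
    (R R0 R1 : Submodule ℂ (L2 ι G) → Prop)
    (hc0 : ∀ X, R0 X → CI X) (hc1 : ∀ X, R1 X → CI X)
    (hR0 : ∀ X, R X → R0 X) (hR1 : ∀ X, R X → R1 X)
    (hi0 : ∀ X Y, R0 X → R0 Y → R0 (X ⊓ Y)) (hi1 : ∀ X Y, R1 X → R1 Y → R1 (X ⊓ Y))
    (hs0 : ∀ X Y, R0 X → R0 Y → R0 (csup X Y)) (hs1 : ∀ X Y, R1 X → R1 Y → R1 (csup X Y))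
    (htop : R ⊤) (hbot : R ⊥) {P K0 K1 : Submodule ℂ (L2 ι G)} (hP : CI P) (hK0 : R0 K0)
    (hK1 : R1 K1)
    (key0 : ∀ u : ℝ, 0 ≤ u → u ≤ 1 → ∀ Y, R0 Y → ∀ ε : ℝ, 0 < ε →
      ∃ S, R S ∧ dm (P ⊓ Y) - u * dm Y - ε ≤ dm (P ⊓ S) - u * dm S)
    (key1 : ∀ u : ℝ, 0 ≤ u → u ≤ 1 → ∀ Y, R1 Y → ∀ ε : ℝ, 0 < ε →
      ∃ S, R S ∧ dm (P ⊓ Y) - u * dm Y - ε ≤ dm (P ⊓ S) - u * dm S)
    {ε : ℝ} (hε : 0 < ε) :
    ∃ S, R S ∧ dm (P ⊓ K0) + dm (P ⊓ K1) - dm P ≤ dm (K0 ⊓ S) + dm (K1 ⊓ S) - dm S + ε := by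
  by_contra hcon
  push Not at hcon
  -- the step
  obtain ⟨n, hn⟩ := exists_nat_gt ((Fintype.card ι : ℝ) / (ε / 2))
  have hcard : (0 : ℝ) ≤ Fintype.card ι := Nat.cast_nonneg _
  have hn0 : (0 : ℝ) < n := lt_of_le_of_lt (div_nonneg hcard (half_pos hε).le) hn
  have hn1 : (Fintype.card ι : ℝ) / n < ε / 2 := by
    rw [div_lt_iff₀ (half_pos hε)] at hn
    rw [div_lt_iff₀ hn0, mul_comm]
    exact hn
  obtain ⟨h, hh⟩ : ∃ h : ℝ, h = 1 / n := ⟨_, rfl⟩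
  obtain ⟨δ, hδ⟩ : ∃ δ : ℝ, δ = ε / (20 * n) := ⟨_, rfl⟩
  have hh0 : 0 < h := by rw [hh]; positivity
  have hδ0 : 0 < δ := by rw [hδ]; positivity
  have hnh : (n : ℝ) * h = 1 := by rw [hh]; field_simp
  have hnδ : 20 * (n * δ) = ε := by rw [hδ]; field_simp
  have hu0 : ∀ j : ℕ, 0 ≤ (j : ℝ) * h := fun j => mul_nonneg (Nat.cast_nonneg _) hh0.le
  have hu1 : ∀ j : ℕ, j ≤ n → (j : ℝ) * h ≤ 1 := fun j hj => by
    rw [← hnh]
    exact mul_le_mul_of_nonneg_right (by exact_mod_cast hj) hh0.le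
  have hus : ∀ j : ℕ, ((j + 1 : ℕ) : ℝ) * h = (j : ℝ) * h + h := fun j => by
    push_cast
    ring
  have hch : ∀ j : ℕ, ∃ X, R X ∧ LF3_m R P ((j : ℝ) * h) - δ ≤ LF3_psi P ((j : ℝ) * h) X :=
    fun j => LF3_exists P _ ⟨⊤, htop⟩ hδ0
  choose S hS hSm using hch
  obtain ⟨Hf, hHf⟩ : ∃ Hf : ℕ → ℝ, ∀ j, Hf j =
      LF3_m (fun X => R0 X ∧ X ≤ K0) P ((j : ℝ) * h) +
      LF3_m (fun X => R1 X ∧ X ≤ K1) P ((j : ℝ) * h) - LF3_m R P ((j : ℝ) * h) :=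
    ⟨_, fun _ => rfl⟩
  have hstep : ∀ j, j < n → Hf j - Hf (j + 1) ≤
      h * (dm (K0 ⊓ S j) + dm (K1 ⊓ S j) - dm (S j)) + h * (dm (S j) - dm (S (j + 1))) +
        5 * δ := by
    intro j hj
    have e0 := LF3_step R R0 hc0 hR0 hi0 hs0 hP hK0 key0 (hu0 j) (hu1 j hj.le) hh0.le hδ0
      (hS j) (hSm j)
    have e1 := LF3_step R R1 hc1 hR1 hi1 hs1 hP hK1 key1 (hu0 j) (hu1 j hj.le) hh0.le hδ0
      (hS j) (hSm j)
    have e2 := LF3_le_m R P (hu0 j) (hS (j + 1))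
    have e3 := hSm (j + 1)
    rw [hus] at e3
    have e4 : LF3_psi P ((j : ℝ) * h + h) (S (j + 1)) =
        LF3_psi P ((j : ℝ) * h) (S (j + 1)) - h * dm (S (j + 1)) := by
      unfold LF3_psi
      ring
    rw [hHf, hHf, hus]
    linarith
  have hsum : ∀ i, i ≤ n → Hf 0 - Hf i ≤
      (i : ℝ) * (h * (dm (P ⊓ K0) + dm (P ⊓ K1) - dm P - ε)) +
        h * (dm (S 0) - dm (S i)) + i * (5 * δ) := by
    intro i
    induction i with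
    | zero =>
      intro _
      simp
    | succ i ih =>
      intro hi
      have e1 := ih (Nat.le_of_succ_le hi)
      have e2 := hstep i hi
      have e3 : h * (dm (K0 ⊓ S i) + dm (K1 ⊓ S i) - dm (S i)) ≤
          h * (dm (P ⊓ K0) + dm (P ⊓ K1) - dm P - ε) := by
        refine mul_le_mul_of_nonneg_left ?_ hh0.le
        have := hcon (S i) (hS i)
        linarith
      push_cast
      linarith
  have hlast := hsum n le_rfl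
  have hH0 : dm (P ⊓ K0) + dm (P ⊓ K1) - dm P ≤ Hf 0 := by
    have e0 : dm (P ⊓ K0) ≤ LF3_m (fun X => R0 X ∧ X ≤ K0) P (((0 : ℕ) : ℝ) * h) := by
      have := LF3_le_m (fun X => R0 X ∧ X ≤ K0) P (hu0 0) ⟨hK0, le_rfl⟩
      unfold LF3_psi at this
      simpa using this
    have e1 : dm (P ⊓ K1) ≤ LF3_m (fun X => R1 X ∧ X ≤ K1) P (((0 : ℕ) : ℝ) * h) := by
      have := LF3_le_m (fun X => R1 X ∧ X ≤ K1) P (hu0 0) ⟨hK1, le_rfl⟩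
      unfold LF3_psi at this
      simpa using this
    have e2 : LF3_m R P (((0 : ℕ) : ℝ) * h) ≤ dm P := by
      refine LF3_m_le ⟨⊤, htop⟩ fun X _ => ?_
      unfold LF3_psi
      have := dm_mono (inf_le_left : P ⊓ X ≤ P)
      simpa using this
    rw [hHf]
    linarith
  have hH1 : Hf n ≤ 0 := by
    have e0 : LF3_m (fun X => R0 X ∧ X ≤ K0) P ((n : ℝ) * h) ≤ 0 := by
      refine LF3_m_le ⟨K0, hK0, le_rfl⟩ fun X _ => ?_
      unfold LF3_psi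
      rw [hnh]
      have := dm_mono (inf_le_right : P ⊓ X ≤ X)
      linarith
    have e1 : LF3_m (fun X => R1 X ∧ X ≤ K1) P ((n : ℝ) * h) ≤ 0 := by
      refine LF3_m_le ⟨K1, hK1, le_rfl⟩ fun X _ => ?_
      unfold LF3_psi
      rw [hnh]
      have := dm_mono (inf_le_right : P ⊓ X ≤ X)
      linarith
    have e2 : 0 ≤ LF3_m R P ((n : ℝ) * h) := by
      have e3 := LF3_le_m R P (hu0 n) hbot
      unfold LF3_psi at e3
      rw [inf_bot_eq, dm_bot] at e3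
      linarith
    rw [hHf]
    linarith
  have hd : h * (dm (S 0) - dm (S n)) ≤ ε / 2 := by
    have e0 := dm_le_card (S 0)
    have e1 := dm_nonneg (S n)
    have e2 : h * (dm (S 0) - dm (S n)) ≤ h * Fintype.card ι :=
      mul_le_mul_of_nonneg_left (by linarith) hh0.le
    have e3 : h * (Fintype.card ι : ℝ) = (Fintype.card ι : ℝ) / n := by
      rw [hh]
      ring
    linarith
  have hfin : (n : ℝ) * (h * (dm (P ⊓ K0) + dm (P ⊓ K1) - dm P - ε)) =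
      dm (P ⊓ K0) + dm (P ⊓ K1) - dm P - ε := by
    rw [← mul_assoc, hnh, one_mul]
  have hδn : (n : ℝ) * (5 * δ) = ε / 4 := by
    linarith
  linarith

end Pool.Agent.LFT
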