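import Pool.Agent.LFT.Sum

set_option autoImplicit false
set_option linter.unusedSectionVars false

noncomputable section

open scoped InnerProductSpace ENNReal Topology
open Classical Filter ContinuousLinearMap

namespace Pool.Agent.LFT

open Pool.Agent.VN

theorem Rat.sol {G : Type} [Group G] {k : Subring ℂ} {M : Type} [MulAction G M] {ι : Type}
    [Fintype ι] {lab : ι → M} (C : Set (ι × G →₀ ℂ)) (hC : C.Finite) (hk : ∀ c ∈ C, CoefIn k c)
    (hl : ∀ c ∈ C, LocF (pV lab) c) : Rat k lab (Sol C) := by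
  set C' : Set (ι × G →₀ ℂ) := {c | c ∈ C ∧ c ≠ 0} with hC'
  have hfin : C'.Finite := hC.subset fun c hc => hc.1
  let _ : Fintype C' := hfin.fintype
  have hne : ∀ c : C', ∃ q, q ∈ c.1.support := fun c => by
    have h := c.2.2
    exact Finsupp.support_nonempty_iff.mpr h
  choose q0 hq0 using hne
  have hT : LocOp k lab (fun c : C' => (q0 c).2⁻¹ • lab (q0 c).1)
      (mulR (fun c : C' => c.1)) := by
    refine ⟨_, fun c => hk c.1 c.2.1, fun c p hp => ?_, rfl⟩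
    have h := hl c.1 c.2.1 1 p hp (q0 c) (hq0 c)
    simpa [pV] using h
  have h1 : Sol C = LFT.kr (mulR (fun c : C' => c.1)) := by
    have h2 : LFT.kr (mulR (fun c : C' => c.1)) = Sol (Set.range (fun c : C' => c.1)) :=
      ker_mulR (fun c : C' => c.1)
    rw [h2, Subtype.range_coe]
    ext x
    rw [mem_Sol, mem_Sol]
    constructor
    · exact fun h c hc => h c hc.1
    · intro h c hc
      by_cases h0 : c = 0
      · subst h0
        exact fun g => ev_zero _ _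
      · exact h c ⟨hc, h0⟩
  rw [h1]
  exact Rat.kr hT

/-- the equations identifying the coordinates at darts with the same end -/
def LF5_D {Δ V : Type} (G : Type) [Group G] (α : Δ → V) (ι₀ : Type) (F : Finset Δ) :
    Set (JJ ι₀ F × G →₀ ℂ) :=
  Set.range fun a : {a : ι₀ × F × F // α a.2.1.1 = α a.2.2.1} =>
    Finsupp.single (((a.1.1, a.1.2.1) : JJ ι₀ F), (1 : G)) (1 : ℂ) -
      Finsupp.single (((a.1.1, a.1.2.2) : JJ ι₀ F), (1 : G)) (1 : ℂ)

theorem LF5_D_finite {Δ V : Type} (G : Type) [Group G] (α : Δ → V) (ι₀ : Type) [Fintype ι₀]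
    (F : Finset Δ) : (LF5_D G α ι₀ F).Finite := Set.finite_range _

theorem LF5_D_coef {Δ V : Type} {G : Type} [Group G] (k : Subring ℂ) (α : Δ → V) (ι₀ : Type)
    (F : Finset Δ) : ∀ c ∈ LF5_D G α ι₀ F, CoefIn k c := by
  rintro _ ⟨a, rfl⟩ p
  rw [Finsupp.sub_apply]
  exact k.sub_mem (coefIn_single k _ _ k.one_mem p) (coefIn_single k _ _ k.one_mem p)

theorem LF5_D_loc {Δ V : Type} {G : Type} [Group G] [MulAction G V] (α : Δ → V) (ι₀ : Type)
    (F : Finset Δ) : ∀ c ∈ LF5_D G α ι₀ F, LocF (pV (fun i => α (sJ ι₀ F i))) c := by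
  rintro _ ⟨a, rfl⟩
  have key : ∀ g : G, ∀ q ∈ (Finsupp.single (((a.1.1, a.1.2.1) : JJ ι₀ F), (1 : G)) (1 : ℂ) -
      Finsupp.single (((a.1.1, a.1.2.2) : JJ ι₀ F), (1 : G)) (1 : ℂ)).support,
      pV (fun i => α (sJ ι₀ F i)) (q.1, g * q.2⁻¹) = g • α a.1.2.1.1 := by
    intro g q hq
    rcases Finset.mem_union.mp (Finsupp.support_sub hq) with h | h
    · have h1 := Finset.mem_singleton.mp (Finsupp.support_single_subset h)
      subst h1
      simp [pV, sJ]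
    · have h1 := Finset.mem_singleton.mp (Finsupp.support_single_subset h)
      subst h1
      simp [pV, sJ, a.2]
  intro g q hq q' hq'
  rw [key g q hq, key g q' hq']

theorem LF5_D_sol {Δ V : Type} {G : Type} [Group G] (α : Δ → V) (ι₀ : Type) (F : Finset Δ)
    (x : L2 (JJ ι₀ F) G) : x ∈ Sol (LF5_D G α ι₀ F) ↔
      ∀ (i : ι₀) (u v : F), α u.1 = α v.1 → ∀ g, x ((i, u), g) = x ((i, v), g) := by
  rw [mem_Sol]
  constructor
  · intro h i u v huv g
    have h1 := h _ ⟨⟨(i, u, v), huv⟩, rfl⟩ g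
    rw [ev_sub', ev_single, ev_single] at h1
    simpa [sub_eq_zero] using h1
  · rintro h _ ⟨a, rfl⟩ g
    rw [ev_sub', ev_single, ev_single]
    have h1 := h a.1.1 a.1.2.1 a.1.2.2 a.2 g
    simp [h1]

theorem exists_lin {G : Type} [Group G] (k : Subring ℂ) {Δ V0 V1 : Type} [MulAction G Δ]
    [MulAction G V0] [MulAction G V1] (α0 : Δ → V0) (α1 : Δ → V1)
    (h0 : ∀ (g : G) δ, α0 (g • δ) = g • α0 δ) (h1 : ∀ (g : G) δ, α1 (g • δ) = g • α1 δ)
    (δ0 : Δ) (hconn : ∀ δ : Δ, Relation.ReflTransGen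
      (fun ε ε' : Δ => α0 ε = α0 ε' ∨ α1 ε = α1 ε') δ0 δ)
    {ι₀ : Type} [Fintype ι₀] (C : Set (ι₀ × G →₀ ℂ)) (hC : C.Finite) (hk : ∀ c ∈ C, CoefIn k c) :
    ∃ (ι : Type) (_ : Fintype ι) (d : ι → Δ) (K0 K1 : Submodule ℂ (L2 ι G)),
      Rat k (fun i => α0 (d i)) K0 ∧ Rat k (fun i => α1 (d i)) K1 ∧
      dm (K0 ⊓ K1) = vdim (Sol C : Set (L2 ι₀ G)) := by
  obtain ⟨T, hadj⟩ : ∃ T : SimpleGraph Δ, ∀ e e', T.Adj e e' ↔
      (e ≠ e' ∧ (α0 e = α0 e' ∨ α1 e = α1 e')) :=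
    ⟨{ Adj := fun e e' => e ≠ e' ∧ (α0 e = α0 e' ∨ α1 e = α1 e')
       symm := ⟨fun e e' h => ⟨h.1.symm, h.2.imp Eq.symm Eq.symm⟩⟩
       loopless := ⟨fun e h => h.1 rfl⟩ }, fun _ _ => Iff.rfl⟩
  have hreach : ∀ δ : Δ, T.Reachable δ0 δ := by
    intro δ
    induction hconn δ with
    | refl => exact SimpleGraph.Reachable.refl _
    | @tail b c _ h ih =>
      by_cases hbc : b = c
      · exact hbc ▸ ih
      · exact ih.trans (SimpleGraph.Adj.reachable ((hadj _ _).mpr ⟨hbc, h⟩))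
  have hT : T.Preconnected := fun u v => (hreach u).symm.trans (hreach v)
  obtain ⟨F, hF, hA⟩ := exists_connF hT δ0
    (hC.toFinset.biUnion fun c => c.support.image fun p => p.2 • δ0)
  have hcF : ∀ c ∈ C, ∀ p ∈ c.support, p.2 • δ0 ∈ F := by
    intro c hc p hp
    apply hA
    rw [Finset.mem_biUnion]
    exact ⟨c, hC.mem_toFinset.mpr hc, Finset.mem_image.mpr ⟨p, hp, rfl⟩⟩
  have hcoef : ∀ c ∈ scF hF.1 '' C, CoefIn k c := by
    rintro _ ⟨c, hc, rfl⟩
    exact coefIn_sum _ _ _ fun p _ => coefIn_single _ _ _ (hk c hc p)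
  have hlift : ∀ {V : Type} [MulAction G V] (α : Δ → V) (_ : ∀ (g : G) δ, α (g • δ) = g • α δ),
      ∀ c ∈ scF hF.1 '' C, LocF (pV (fun i => α (sJ ι₀ F i))) c := by
    rintro V _ α hα _ ⟨c, hc, rfl⟩ g q hq q' hq'
    have h2 := scF_loc hF.1 c (hcF c hc) g q hq q' hq'
    have e : ∀ r : JJ ι₀ F × G, pV (fun i => α (sJ ι₀ F i)) r = α (pV (sJ ι₀ F) r) := by
      intro r
      show r.2 • α (sJ ι₀ F r.1) = α (r.2 • sJ ι₀ F r.1)
      rw [hα]
    rw [e, e, h2]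
  refine ⟨JJ ι₀ F, inferInstance, sJ ι₀ F, Sol (scF hF.1 '' C ∪ LF5_D G α0 ι₀ F),
    Sol (LF5_D G α1 ι₀ F), ?_, ?_, ?_⟩
  · refine Rat.sol _ ((hC.image _).union (LF5_D_finite G α0 ι₀ F)) ?_ ?_
    · rintro c (hc | hc)
      · exact hcoef c hc
      · exact LF5_D_coef k α0 ι₀ F c hc
    · rintro c (hc | hc)
      · exact hlift α0 h0 c hc
      · exact LF5_D_loc α0 ι₀ F c hc
  · exact Rat.sol _ (LF5_D_finite G α1 ι₀ F) (LF5_D_coef k α1 ι₀ F) (LF5_D_loc α1 ι₀ F)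
  · have h2 := vdim_scF (MonoidHom.id G) hF C
    rw [mapF_id_image, mapF_id_image] at h2
    rw [← h2]
    unfold dm
    congr 2
    ext x
    have hx0 := LF5_D_sol (G := G) α0 ι₀ F x
    have hx1 := LF5_D_sol (G := G) α1 ι₀ F x
    rw [Submodule.mem_inf, Submodule.mem_inf, hx1, mem_Sol, mem_Sol]
    constructor
    · rintro ⟨ha, hb⟩
      refine ⟨fun c hc => ha c (Or.inl hc), ?_⟩
      have ha' := hx0.mp (mem_Sol.mpr fun c hc => ha c (Or.inr hc))
      rw [LinearMap.mem_ker]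
      change bd G (e1 ι₀ T F) (e2 ι₀ T F) x = 0
      ext q
      rw [bd_apply]
      have h3 : x (e1 ι₀ T F q.1, q.2) = x (e2 ι₀ T F q.1, q.2) := by
        obtain ⟨⟨⟨i, u, v⟩, huv⟩, g⟩ := q
        rcases ((hadj _ _).mp huv).2 with h | h
        · exact ha' i u v h g
        · exact hb i u v h g
      rw [h3, sub_self]
      rfl
    · rintro ⟨ha, hb⟩
      have hb' : bd G (e1 ι₀ T F) (e2 ι₀ T F) x = 0 := LinearMap.mem_ker.mp hb
      have hall : ∀ (i : ι₀) (u v : F), (α0 u.1 = α0 v.1 ∨ α1 u.1 = α1 v.1) →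
          ∀ g, x ((i, u), g) = x ((i, v), g) := by
        intro i u v huv g
        by_cases h3 : u = v
        · rw [h3]
        · have h4 : T.Adj u.1 v.1 := (hadj _ _).mpr ⟨fun h => h3 (Subtype.ext h), huv⟩
          have h5 := bd_apply (G := G) (e1 ι₀ T F) (e2 ι₀ T F) x
            ((⟨(i, u, v), h4⟩ : EE ι₀ T F), g)
          rw [hb'] at h5
          have h6 : x ((i, u), g) - x ((i, v), g) = 0 := h5.symm
          exact sub_eq_zero.mp h6
      refine ⟨?_, fun i u v huv g => hall i u v (Or.inr huv) g⟩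
      rintro c (hc | hc)
      · exact ha c hc
      · exact mem_Sol.mp (hx0.mpr fun i u v huv g => hall i u v (Or.inl huv) g) c hc

end Pool.Agent.LFT
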