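import Pool.Agent.LFT.LF6

set_option autoImplicit false
set_option linter.unusedSectionVars false

noncomputable section

open scoped InnerProductSpace ENNReal Topology
open Classical Filter ContinuousLinearMap

namespace Pool.Agent.LFT

open Pool.Agent.VN

section Aux

variable {G : Type} [Group G] {B Mk : Type} [MulAction G B] [MulAction G Mk]
  (p : Mk → B) (hp : ∀ (g : G) m, p (g • m) = g • p m)

lemma LF7_upOp_apply {ι : Type} (b : ι → B) [Fintype (Lf p b)] (x : L2 ι G) (y : Lf p b) (g : G) :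
    upOp p b x (y, g) = x (y.1.1, g) := by
  unfold upOp
  rw [crd_apply, if_pos (Set.mem_univ _)]

lemma LF7_finite {κ : Type} [Finite κ] (lab : κ → B) (hfin : ∀ v : B, Finite {m // p m = v}) :
    Finite (Lf p lab) := by
  have : ∀ i : κ, Finite {m // p m = lab i} := fun i => hfin (lab i)
  apply Finite.of_injective
    (fun x : Lf p lab => (⟨x.1.1, ⟨x.1.2, x.2⟩⟩ : Σ i : κ, {m // p m = lab i}))
  rintro ⟨⟨i, m⟩, h⟩ ⟨⟨i', m'⟩, h'⟩ he
  simp only [Sigma.mk.injEq] at he
  obtain ⟨h1, h2⟩ := he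
  subst h1
  simp only [heq_eq_eq, Subtype.mk.injEq] at h2
  subst h2
  rfl

/-- the lifted matrix -/
def LF7_mat {κ μ : Type} (labk : κ → B) (labm : μ → B) (A : μ → (κ × G →₀ ℂ)) (x : Lf p labm) :
    Lf p labk × G →₀ ℂ :=
  ∑ q ∈ (A x.1.1).support,
    if h : p (q.2 • x.1.2) = labk q.1 then
      Finsupp.single ((⟨(q.1, q.2 • x.1.2), h⟩ : Lf p labk), q.2) (A x.1.1 q) else 0

lemma LF7_ev {κ μ : Type} (labk : κ → B) (labm : μ → B) (A : μ → (κ × G →₀ ℂ)) (x : Lf p labm)
    (z : Lf p labk × G → ℂ) (g : G) :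
    ev (LF7_mat p labk labm A x) z g = ∑ q ∈ (A x.1.1).support,
      if h : p (q.2 • x.1.2) = labk q.1 then
        A x.1.1 q * z ((⟨(q.1, q.2 • x.1.2), h⟩ : Lf p labk), g * q.2⁻¹) else 0 := by
  unfold LF7_mat
  rw [ev_finsetSum]
  refine Finset.sum_congr rfl fun q _ => ?_
  by_cases h : p (q.2 • x.1.2) = labk q.1
  · rw [dif_pos h, dif_pos h, ev_single]
  · rw [dif_neg h, dif_neg h, ev_zero]

include hp in
lemma LF7_exists {κ μ : Type} [Fintype κ] [Fintype μ] {k : Subring ℂ} {labk : κ → B}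
    {labm : μ → B} [Fintype (Lf p labk)] [Fintype (Lf p labm)] {S : L2 κ G →L[ℂ] L2 μ G}
    (hS : LocOp k labk labm S) :
    ∃ S' : L2 (Lf p labk) G →L[ℂ] L2 (Lf p labm) G,
      LocOp k (labL p labk) (labL p labm) S' ∧
      (∀ x, S' (upOp p labk x) = upOp p labm (S x)) ∧
      (∀ m z, dnOp p labm (cutF (pV (labL p labm)) m (S' z))
        = S (dnOp p labk (cutF (pV (labL p labk)) m z))) := by
  obtain ⟨A, hA1, hA2, rfl⟩ := hS
  refine ⟨mulR (LF7_mat p labk labm A), ⟨_, ?_, ?_, rfl⟩, ?_, ?_⟩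
  · intro x
    unfold LF7_mat
    refine coefIn_sum _ _ _ fun q _ => ?_
    by_cases h : p (q.2 • x.1.2) = labk q.1
    · rw [dif_pos h]
      exact coefIn_single _ _ _ (hA1 x.1.1 q)
    · rw [dif_neg h]
      intro r
      rw [Finsupp.coe_zero, Pi.zero_apply]
      exact k.zero_mem
  · intro x r hr
    have h1 : ∃ q ∈ (A x.1.1).support, ∃ h : p (q.2 • x.1.2) = labk q.1,
        r = ((⟨(q.1, q.2 • x.1.2), h⟩ : Lf p labk), q.2) := by
      by_contra hcon
      push Not at hcon
      rw [Finsupp.mem_support_iff] at hr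
      apply hr
      unfold LF7_mat
      rw [Finsupp.finsetSum_apply]
      refine Finset.sum_eq_zero fun q hq => ?_
      by_cases h : p (q.2 • x.1.2) = labk q.1
      · rw [dif_pos h, Finsupp.single_apply, if_neg]
        exact fun h' => hcon q hq h h'.symm
      · rw [dif_neg h]
        rfl
    obtain ⟨q, hq, h, rfl⟩ := h1
    show q.2⁻¹ • (q.2 • x.1.2) = x.1.2
    rw [inv_smul_smul]
  · intro x
    ext ⟨y, g⟩
    rw [mulR_apply, LF7_upOp_apply, mulR_apply, LF7_ev, ev_def]
    refine Finset.sum_congr rfl fun q hq => ?_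
    have h : p (q.2 • y.1.2) = labk q.1 := by
      rw [hp, y.2, ← hA2 y.1.1 q hq, smul_inv_smul]
    rw [dif_pos h, LF7_upOp_apply]
  · intro m z
    ext ⟨j, g⟩
    rw [dnOp_cut p hp, mulR_apply, ev_def]
    by_cases h : p (g⁻¹ • m) = labm j
    · rw [dif_pos h, mulR_apply, LF7_ev]
      refine Finset.sum_congr rfl fun q hq => ?_
      have e : (g * q.2⁻¹)⁻¹ • m = q.2 • (g⁻¹ • m) := by
        rw [mul_inv_rev, inv_inv, mul_smul]
      have h' : p (q.2 • (g⁻¹ • m)) = labk q.1 := by
        rw [hp, h, ← hA2 j q hq, smul_inv_smul]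
      rw [dnOp_cut p hp]
      simp only [e]
      rw [dif_pos h']
      rw [dif_pos h']
    · rw [dif_neg h]
      symm
      refine Finset.sum_eq_zero fun q hq => ?_
      have e : (g * q.2⁻¹)⁻¹ • m = q.2 • (g⁻¹ • m) := by
        rw [mul_inv_rev, inv_inv, mul_smul]
      rw [dnOp_cut p hp, dif_neg, mul_zero]
      intro h2
      apply h
      rw [e, hp] at h2
      rw [← hA2 j q hq, ← h2, inv_smul_smul]

include hp in
lemma LF7_zero {ι : Type} [Fintype ι] (b : ι → B) [Fintype (Lf p b)] {z : L2 (Lf p b) G}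
    (h : ∀ m, dnOp p b (cutF (pV (labL p b)) m z) = 0) : z = 0 := by
  ext q
  have h1 := up_dn p hp b (pV (labL p b) q) z
  rw [h, map_zero, map_zero] at h1
  have h2 := cutF_apply (pV (labL p b)) (pV (labL p b) q) z q
  rw [if_pos rfl, ← h1] at h2
  exact h2.symm

end Aux

section Lift

variable {G : Type} [Group G] {B Mk : Type} [MulAction G B] [MulAction G Mk] {ι : Type}
  [Fintype ι] (p : Mk → B) (hp : ∀ (g : G) m, p (g • m) = g • p m) (b : ι → B)
  [Fintype (Lf p b)]

include hp in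
theorem Rat.lift {k : Subring ℂ} (hfin : ∀ v : B, Finite {m // p m = v})
    {X : Submodule ℂ (L2 ι G)} (hX : Rat k b X) : Rat k (labL p b) (lift p b X) := by
  have hXci := hX.ci
  obtain ⟨κ, μ, _, _, labk, labm, S, T, hS, hT, hXe⟩ := hX
  have := LF7_finite p labk hfin
  have := LF7_finite p labm hfin
  let _ : Fintype (Lf p labk) := Fintype.ofFinite _
  let _ : Fintype (Lf p labm) := Fintype.ofFinite _
  obtain ⟨S', hS', hSu, hSd⟩ := LF7_exists p hp hS
  obtain ⟨T', hT', hTu, hTd⟩ := LF7_exists p hp hT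
  refine ⟨Lf p labk, Lf p labm, inferInstance, inferInstance, labL p labk, labL p labm, S', T',
    hS', hT', ?_⟩
  apply le_antisymm
  · intro z hz
    apply mem_of_pieces (p := pV (labL p b)) (Submodule.isClosed_topologicalClosure _)
      (loc_imc hT' (loc_kr hS'))
    intro m
    have hz1 : dnOp p b (cutF (pV (labL p b)) m z) ∈ X := hz m
    rw [← up_dn p hp b m z]
    rw [hXe] at hz1
    have hmaps : Set.MapsTo (fun y : L2 ι G => cutF (pV (labL p b)) m (upOp p b y))
        ((LFT.kr S).map T.toLinearMap : Set (L2 ι G))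
        ((LFT.kr S').map T'.toLinearMap : Set (L2 (Lf p b) G)) := by
      rintro _ ⟨x, hx, rfl⟩
      refine ⟨cutF (pV (labL p labk)) m (upOp p labk x), ?_, ?_⟩
      · apply loc_kr hS'
        rw [mem_kr, hSu]
        have hx0 : S x = 0 := hx
        rw [hx0, map_zero]
      · show T' (cutF (pV (labL p labk)) m (upOp p labk x))
          = cutF (pV (labL p b)) m (upOp p b (T x))
        rw [hT'.cut, hTu]
    have hcont : Continuous (fun y : L2 ι G => cutF (pV (labL p b)) m (upOp p b y)) :=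
      (cutF (pV (labL p b)) m).continuous.comp (upOp p b).continuous
    exact hmaps.closure hcont hz1
  · apply imc_le (CI.lift p hp b hXci).cl
    intro z hz m
    rw [hTd, hXe]
    apply mem_imc
    rw [mem_kr, ← hSd]
    have hz0 : S' z = 0 := hz
    rw [hz0, map_zero, map_zero]

end Lift

end Pool.Agent.LFT
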