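import Pool.Agent.LFT.Sum

set_option autoImplicit false
set_option linter.unusedSectionVars false

noncomputable section

open scoped InnerProductSpace ENNReal Topology
open Classical Filter ContinuousLinearMap

/-!
Coordinate projections, and lifts of subspaces along maps of `G`-sets with finite fibres.
-/

namespace Pool.Agent.LFT

open Pool.Agent.VN

section Cp

variable {G : Type} [Group G] {ι : Type} [Fintype ι]

/-- the projection to a set of coordinates -/
def cp (s : Set ι) : L2 ι G →L[ℂ] L2 ι G := crd (fun i => i) s

lemma cp_apply (s : Set ι) (x : L2 ι G) (q : ι × G) :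
    cp s x q = if q.1 ∈ s then x q else 0 := crd_apply _ _ _ _

end Cp

section Lift

variable {G : Type} [Group G] {B Mk : Type} [MulAction G B] [MulAction G Mk] {ι : Type}

/-- the index set of the lifted coordinates: a coordinate `i` together with a marking of its
place `b i` -/
abbrev Lf (p : Mk → B) (b : ι → B) : Type := {x : ι × Mk // p x.2 = b x.1}

/-- the marking of a lifted coordinate -/
def labL (p : Mk → B) (b : ι → B) : Lf p b → Mk := fun x => x.1.2

variable (p : Mk → B) (b : ι → B) [Fintype ι] [Fintype (Lf p b)]

/-- the diagonal lift -/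
def upOp : L2 ι G →L[ℂ] L2 (Lf p b) G := crd (fun x : Lf p b => x.1.1) Set.univ

/-- the sum over the markings -/
def dnOp : L2 (Lf p b) G →L[ℂ] L2 ι G :=
  mulR fun i => ∑ x : Lf p b, if x.1.1 = i then Finsupp.single (x, (1 : G)) 1 else 0

/-- the lifted subspace -/
def lift (X : Submodule ℂ (L2 ι G)) : Submodule ℂ (L2 (Lf p b) G) where
  carrier := {z | ∀ m : Mk, dnOp p b (cutF (pV (labL p b)) m z) ∈ X}
  add_mem' := by
    intro x y hx hy m
    rw [map_add, map_add]
    exact X.add_mem (hx m) (hy m)
  zero_mem' := by
    intro m
    rw [map_zero, map_zero]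
    exact X.zero_mem
  smul_mem' := by
    intro c x hx m
    rw [map_smul, map_smul]
    exact X.smul_mem c (hx m)

/-- the operator which permutes the markings -/
def perOp (e : Mk → Mk) (he : ∀ m, p (e m) = p m) : L2 (Lf p b) G →L[ℂ] L2 (Lf p b) G :=
  crd (fun x : Lf p b => (⟨(x.1.1, e x.1.2), by rw [he]; exact x.2⟩ : Lf p b)) Set.univ

end Lift

end Pool.Agent.LFT
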