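import Pool.Agent.LFT.LF1
import Pool.Agent.LFT.LiftDef

set_option autoImplicit false
set_option linter.unusedSectionVars false

noncomputable section

open scoped InnerProductSpace ENNReal Topology
open Classical Filter ContinuousLinearMap

namespace Pool.Agent.LFT

open Pool.Agent.VN

section LF8

variable {G : Type} [Group G] {k : Subring ℂ} {M : Type} [MulAction G M] {ι : Type} [Fintype ι]
  {lab : ι → M}

lemma LF8_cp_cp (s : Set ι) (x : L2 ι G) : cp s (cp s x) = cp s x := by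
  ext q
  rw [cp_apply, cp_apply]
  split_ifs <;> rfl

lemma LF8_cp_comm (s t : Set ι) (x : L2 ι G) : cp s (cp t x) = cp t (cp s x) := by
  ext q
  rw [cp_apply, cp_apply, cp_apply, cp_apply]
  split_ifs <;> rfl

lemma LF8_loc (s : Set ι) : LocOp k lab lab (cp (G := G) s) :=
  LocOp.crd _ _ fun _ _ => rfl

/-- the splitting of a subspace along a coordinate projection -/
def LF8_split (s : Set ι) (X : Submodule ℂ (L2 ι G)) : Submodule ℂ (L2 ι G) :=
  csup (X ⊓ kr (cp s)) (imc (cp s) X)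

lemma LF8_rat (s : Set ι) {X : Submodule ℂ (L2 ι G)} (hX : Rat k lab X) :
    Rat k lab (LF8_split s X) :=
  Rat.csup (Rat.inf hX (Rat.kr (LF8_loc s))) (Rat.imc (LF8_loc s) hX)

lemma LF8_fix (s : Set ι) {X : Submodule ℂ (L2 ι G)} {x : L2 ι G} (hx : x ∈ imc (cp s) X) :
    cp s x = x := by
  have h1 : imc (cp s) X ≤ kr (cp s - ContinuousLinearMap.id ℂ (L2 ι G)) := by
    refine imc_le (kr_closed _) fun y _ => ?_
    rw [mem_kr]
    change cp s (cp s y) - cp s y = 0
    rw [LF8_cp_cp, sub_self]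
  have h2 := h1 hx
  rw [mem_kr] at h2
  exact sub_eq_zero.mp h2

lemma LF8_inf_bot (s : Set ι) (X Y : Submodule ℂ (L2 ι G)) :
    (X ⊓ kr (cp s)) ⊓ imc (cp s) Y = ⊥ := by
  rw [eq_bot_iff]
  rintro x ⟨⟨_, h1⟩, h2⟩
  rw [Submodule.mem_bot, ← LF8_fix s h2]
  exact h1

lemma LF8_dm (s : Set ι) {X : Submodule ℂ (L2 ι G)} (hX : CI X) :
    dm (LF8_split s X) = dm X := by
  have hE : Equivar (cp (G := G) s) := mulR_equivar _
  have h1 := dm_csup (hX.inf (CI.kr hE)) (CI.imc hE hX.inv)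
  rw [LF8_inf_bot, dm_bot] at h1
  have h2 := dm_imc hE hX
  unfold LF8_split
  linarith

lemma LF8_le (s : Set ι) {P X : Submodule ℂ (L2 ι G)} (hP : CI P) (hPs : ∀ x ∈ P, cp s x ∈ P)
    (hX : CI X) : dm (P ⊓ X) ≤ dm (P ⊓ LF8_split s X) := by
  have h1 := LF8_dm s (hP.inf hX)
  have h2 : LF8_split s (P ⊓ X) ≤ P ⊓ LF8_split s X := by
    refine le_inf ?_ ?_
    · refine csup_le hP.cl ?_ ?_
      · exact inf_le_left.trans inf_le_left
      · exact imc_le hP.cl fun x hx => hPs x hx.1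
    · refine csup_le (Submodule.isClosed_topologicalClosure _) ?_ ?_
      · refine le_trans ?_ (le_csup_left _ _)
        exact inf_le_inf_right _ inf_le_right
      · refine imc_le (Submodule.isClosed_topologicalClosure _) fun x hx => ?_
        exact le_csup_right _ _ (mem_imc (cp s) hx.2)
  rw [← h1]
  exact dm_mono h2

lemma LF8_comap_closed (t : Set ι) {Y : Submodule ℂ (L2 ι G)}
    (hY : IsClosed (Y : Set (L2 ι G))) :
    IsClosed ((Y.comap (cp t).toLinearMap : Submodule ℂ (L2 ι G)) : Set (L2 ι G)) :=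
  hY.preimage (cp t).continuous

lemma LF8_stable_self (s : Set ι) (X : Submodule ℂ (L2 ι G)) :
    ∀ x ∈ LF8_split s X, cp s x ∈ LF8_split s X := by
  have h : LF8_split s X ≤ (LF8_split s X).comap (cp s).toLinearMap := by
    refine csup_le (LF8_comap_closed s (Submodule.isClosed_topologicalClosure _)) ?_ ?_
    · rintro x ⟨_, hx⟩
      change cp s x ∈ LF8_split s X
      rw [mem_kr.mp hx]
      exact Submodule.zero_mem _
    · intro x hx
      change cp s x ∈ LF8_split s X
      rw [LF8_fix s hx]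
      exact le_csup_right _ _ hx
  exact fun x hx => h hx

lemma LF8_stable_other (s t : Set ι) {X : Submodule ℂ (L2 ι G)} (hX : ∀ x ∈ X, cp t x ∈ X) :
    ∀ x ∈ LF8_split s X, cp t x ∈ LF8_split s X := by
  have h : LF8_split s X ≤ (LF8_split s X).comap (cp t).toLinearMap := by
    refine csup_le (LF8_comap_closed t (Submodule.isClosed_topologicalClosure _)) ?_ ?_
    · rintro x ⟨hx1, hx2⟩
      change cp t x ∈ LF8_split s X
      refine le_csup_left _ _ ⟨hX x hx1, ?_⟩
      change cp s (cp t x) = 0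
      rw [LF8_cp_comm, mem_kr.mp hx2, map_zero]
    · refine imc_le (LF8_comap_closed t (Submodule.isClosed_topologicalClosure _)) fun x hx => ?_
      change cp t (cp s x) ∈ LF8_split s X
      rw [LF8_cp_comm]
      exact le_csup_right _ _ (mem_imc (cp s) (hX x hx))
  exact fun x hx => h hx

end LF8

theorem exists_split {G : Type} [Group G] {k : Subring ℂ} {M : Type} [MulAction G M]
    {ι Ty : Type} [Fintype ι] [Fintype Ty] {lab : ι → M} (s : Ty → Set ι)
    {P X : Submodule ℂ (L2 ι G)} (hP : CI P) (hPs : ∀ τ, ∀ x ∈ P, cp (s τ) x ∈ P)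
    (hX : Rat k lab X) :
    ∃ X', Rat k lab X' ∧ (∀ τ, ∀ x ∈ X', cp (s τ) x ∈ X') ∧ dm X' = dm X ∧
      dm (P ⊓ X) ≤ dm (P ⊓ X') := by
  have key : ∀ A : Finset Ty, ∃ X', Rat k lab X' ∧ (∀ τ ∈ A, ∀ x ∈ X', cp (s τ) x ∈ X') ∧
      dm X' = dm X ∧ dm (P ⊓ X) ≤ dm (P ⊓ X') := by
    intro A
    induction A using Finset.induction_on with
    | empty => exact ⟨X, hX, fun τ hτ => by simp at hτ, rfl, le_refl _⟩
    | insert a A _ ih =>
      obtain ⟨X', h1, h2, h3, h4⟩ := ih
      refine ⟨LF8_split (s a) X', LF8_rat (s a) h1, ?_, ?_, ?_⟩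
      · intro τ hτ
        rcases Finset.mem_insert.mp hτ with h | h
        · rw [h]
          exact LF8_stable_self (s a) X'
        · exact LF8_stable_other (s a) (s τ) (h2 τ h)
      · rw [LF8_dm (s a) h1.ci, h3]
      · exact h4.trans (LF8_le (s a) hP (hPs a) h1.ci)
  obtain ⟨X', h1, h2, h3, h4⟩ := key Finset.univ
  exact ⟨X', h1, fun τ => h2 τ (Finset.mem_univ τ), h3, h4⟩

end Pool.Agent.LFT
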