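import Pool.Agent.LFT.LF1
import Pool.Agent.LFT.LiftDef

set_option autoImplicit false
set_option linter.unusedSectionVars false

noncomputable section

open scoped InnerProductSpace ENNReal Topology
open Classical Filter ContinuousLinearMap

namespace Pool.Agent.LFT

open Pool.Agent.VN

lemma LF9_kr {G : Type} [Group G] {ι Q : Type} [Group Q]
    (U : Q → L2 ι G →L[ℂ] L2 ι G)
    (hU1 : ∀ x, U 1 x = x) (hUm : ∀ q q' x, U q (U q' x) = U (q * q') x) (q : Q) :
    kr (U q) = ⊥ := by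
  rw [eq_bot_iff]
  intro x hx
  rw [mem_kr] at hx
  rw [Submodule.mem_bot, ← hU1 x, ← inv_mul_cancel q, ← hUm, hx, map_zero]

lemma LF9_dm {G : Type} [Group G] {ι Q : Type} [Fintype ι] [Group Q]
    (U : Q → L2 ι G →L[ℂ] L2 ι G) (hUe : ∀ q, Equivar (U q))
    (hU1 : ∀ x, U 1 x = x) (hUm : ∀ q q' x, U q (U q' x) = U (q * q') x) (q : Q)
    {X : Submodule ℂ (L2 ι G)} (hX : CI X) : dm (imc (U q) X) = dm X := by
  have h := dm_imc (hUe q) hX
  rw [LF9_kr U hU1 hUm q, inf_bot_eq, dm_bot, add_zero] at h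
  exact h

lemma LF9_psi {G : Type} [Group G] {ι Q : Type} [Fintype ι] [Group Q]
    (U : Q → L2 ι G →L[ℂ] L2 ι G) (hUe : ∀ q, Equivar (U q))
    (hU1 : ∀ x, U 1 x = x) (hUm : ∀ q q' x, U q (U q' x) = U (q * q') x) (q : Q)
    {P X : Submodule ℂ (L2 ι G)} (hP : CI P) (hPU : ∀ q, ∀ x ∈ P, U q x ∈ P) (hX : CI X)
    (u : ℝ) : dm (P ⊓ X) - u * dm X ≤ dm (P ⊓ imc (U q) X) - u * dm (imc (U q) X) := by
  have h1 : imc (U q) (P ⊓ X) ≤ P ⊓ imc (U q) X := by
    apply imc_le
    · exact (hP.inf (CI.imc (hUe q) hX.inv)).cl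
    · intro x hx
      exact ⟨hPU q x hx.1, mem_imc (U q) hx.2⟩
  have h2 := dm_mono h1
  rw [LF9_dm U hUe hU1 hUm q (hP.inf hX)] at h2
  rw [LF9_dm U hUe hU1 hUm q hX]
  linarith

lemma LF9_csup {G : Type} [Group G] {k : Subring ℂ} {M : Type} [MulAction G M]
    {ι : Type} [Fintype ι] {lab : ι → M} {P Y Z : Submodule ℂ (L2 ι G)} (hP : CI P)
    (hY : Rat k lab Y) (hZ : Rat k lab Z) (u s a b : ℝ)
    (hs : ∀ Z, Rat k lab Z → dm (P ⊓ Z) - u * dm Z ≤ s)
    (hYs : s - a ≤ dm (P ⊓ Y) - u * dm Y) (hZs : s - b ≤ dm (P ⊓ Z) - u * dm Z) :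
    s - (a + b) ≤ dm (P ⊓ csup Y Z) - u * dm (csup Y Z) := by
  have h1 := dm_inf_csup hP hY.ci hZ.ci
  have h2 := dm_csup hY.ci hZ.ci
  have h3 := hs _ (hY.inf hZ)
  have h4 : u * dm (csup Y Z) = u * dm Y + u * dm Z - u * dm (Y ⊓ Z) := by
    have h5 : dm (csup Y Z) = dm Y + dm Z - dm (Y ⊓ Z) := by linarith
    rw [h5]
    ring
  rw [h4]
  linarith

lemma LF9_insert {G : Type} [Group G] {ι Q : Type} (A : Q → Submodule ℂ (L2 ι G)) (q : Q)
    (F : Finset Q) :
    (⨆ r ∈ insert q F, A r).topologicalClosure = csup (A q) (⨆ r ∈ F, A r).topologicalClosure := by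
  rw [Finset.iSup_insert]
  apply le_antisymm
  · apply Submodule.topologicalClosure_mono
    exact sup_le_sup_left (Submodule.le_topologicalClosure _) _
  · apply csup_le (Submodule.isClosed_topologicalClosure _)
    · exact le_sup_left.trans (Submodule.le_topologicalClosure _)
    · exact Submodule.topologicalClosure_mono le_sup_right

theorem exists_join {G : Type} [Group G] {k : Subring ℂ} {M : Type} [MulAction G M]
    {ι Q : Type} [Fintype ι] [Fintype Q] [Group Q] {lab : ι → M}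
    (U : Q → L2 ι G →L[ℂ] L2 ι G) (hUe : ∀ q, Equivar (U q))
    (hU1 : ∀ x, U 1 x = x) (hUm : ∀ q q' x, U q (U q' x) = U (q * q') x)
    (hUR : ∀ q Z, Rat k lab Z → Rat k lab (imc (U q) Z))
    {P X : Submodule ℂ (L2 ι G)} (hP : CI P) (hPU : ∀ q, ∀ x ∈ P, U q x ∈ P) (hX : Rat k lab X)
    (u s η : ℝ) (hs : ∀ Z, Rat k lab Z → dm (P ⊓ Z) - u * dm Z ≤ s)
    (hXs : s - η ≤ dm (P ⊓ X) - u * dm X) :
    Rat k lab (⨆ q, imc (U q) X).topologicalClosure ∧
      (∀ q, ∀ x ∈ (⨆ q, imc (U q) X).topologicalClosure,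
        U q x ∈ (⨆ q, imc (U q) X).topologicalClosure) ∧
      s - Fintype.card Q * η ≤ dm (P ⊓ (⨆ q, imc (U q) X).topologicalClosure)
        - u * dm (⨆ q, imc (U q) X).topologicalClosure := by
  have key : ∀ F : Finset Q, F.Nonempty →
      Rat k lab (⨆ q ∈ F, imc (U q) X).topologicalClosure ∧
      s - (F.card : ℝ) * η ≤ dm (P ⊓ (⨆ q ∈ F, imc (U q) X).topologicalClosure)
        - u * dm (⨆ q ∈ F, imc (U q) X).topologicalClosure := by
    intro F hF
    induction hF using Finset.Nonempty.cons_induction with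
    | singleton q =>
      have h1 : (⨆ r ∈ ({q} : Finset Q), imc (U r) X).topologicalClosure = imc (U q) X := by
        rw [Finset.iSup_singleton]
        exact (Submodule.isClosed_topologicalClosure _).submodule_topologicalClosure_eq
      rw [h1, Finset.card_singleton, Nat.cast_one, one_mul]
      exact ⟨hUR q X hX, hXs.trans (LF9_psi U hUe hU1 hUm q hP hPU hX.ci u)⟩
    | cons q F hq hF ih =>
      rw [Finset.cons_eq_insert, LF9_insert, Finset.card_insert_of_notMem hq]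
      refine ⟨(hUR q X hX).csup ih.1, ?_⟩
      have h2 := LF9_csup hP (hUR q X hX) ih.1 u s η ((F.card : ℝ) * η) hs
        (hXs.trans (LF9_psi U hUe hU1 hUm q hP hPU hX.ci u)) ih.2
      refine le_trans (le_of_eq ?_) h2
      push_cast
      ring
  have h0 := key Finset.univ ⟨1, Finset.mem_univ _⟩
  simp only [Finset.mem_univ, iSup_pos, Finset.card_univ] at h0
  refine ⟨h0.1, ?_, h0.2⟩
  intro q x hx
  have h1 : (⨆ r, imc (U r) X) ≤ (⨆ r, imc (U r) X).comap (U q).toLinearMap := by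
    apply iSup_le
    intro r y hy
    rw [Submodule.mem_comap]
    have h2 : U q y ∈ imc (U q) (imc (U r) X) := mem_imc (U q) hy
    have h3 : U q ∘L U r = U (q * r) := by
      ext1 z
      exact hUm q r z
    rw [imc_imc, h3] at h2
    exact (le_iSup (fun r => imc (U r) X) (q * r)) h2
  have h4 : Set.MapsTo (U q : L2 ι G → L2 ι G) ((⨆ r, imc (U r) X : Submodule ℂ (L2 ι G)) : Set _)
      ((⨆ r, imc (U r) X : Submodule ℂ (L2 ι G)) : Set _) := fun y hy => h1 hy
  exact h4.closure (U q).continuous hx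

end Pool.Agent.LFT
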