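import Pool.Agent.LFT.LF1
import Pool.Agent.LFT.LF2
import Pool.Agent.LFT.LF3
import Pool.Agent.LFT.LF4
import Pool.Agent.LFT.LF5
import Pool.Agent.LFT.LF6
import Pool.Agent.LFT.LF7
import Pool.Agent.LFT.LF8
import Pool.Agent.LFT.LF9
import Pool.Agent.LFT.LF10
import Pool.Agent.LFT.LF11
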