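import Pool.Agent.LFT.Base

set_option autoImplicit false
set_option linter.unusedSectionVars false

noncomputable section

open scoped InnerProductSpace ENNReal Topology
open Classical Filter ContinuousLinearMap

/-!
Direct sums of coordinate spaces.
-/

namespace Pool.Agent.LFT

open Pool.Agent.VN

section Sum

variable {G : Type} [Group G] {k : Subring ℂ} {M : Type} [MulAction G M]
variable {ι κ κ' : Type} [Fintype ι] [Fintype κ] [Fintype κ']

/-- restriction to the coordinates in the left summand -/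
def prL : L2 (κ ⊕ κ') G →L[ℂ] L2 κ G := crd Sum.inl Set.univ

/-- restriction to the coordinates in the right summand -/
def prR : L2 (κ ⊕ κ') G →L[ℂ] L2 κ' G := crd Sum.inr Set.univ

/-- inclusion of the left summand -/
def inL : L2 κ G →L[ℂ] L2 (κ ⊕ κ') G :=
  mulR (Sum.elim (fun i => Finsupp.single (i, (1 : G)) 1) fun _ => 0)

/-- inclusion of the right summand -/
def inR : L2 κ' G →L[ℂ] L2 (κ ⊕ κ') G :=
  mulR (Sum.elim (fun _ => 0) fun i => Finsupp.single (i, (1 : G)) 1)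

@[simp] lemma prL_apply (x : L2 (κ ⊕ κ') G) (i : κ) (g : G) :
    prL x (i, g) = x (Sum.inl i, g) := by
  unfold prL
  rw [crd_apply, if_pos (Set.mem_univ _)]

@[simp] lemma prR_apply (x : L2 (κ ⊕ κ') G) (i : κ') (g : G) :
    prR x (i, g) = x (Sum.inr i, g) := by
  unfold prR
  rw [crd_apply, if_pos (Set.mem_univ _)]

@[simp] lemma inL_inl (x : L2 κ G) (i : κ) (g : G) :
    (inL (κ' := κ') x) (Sum.inl i, g) = x (i, g) := by
  unfold inL
  rw [mulR_apply]
  show ev (Finsupp.single (i, (1 : G)) 1) x g = _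
  rw [ev_single]
  simp

@[simp] lemma inL_inr (x : L2 κ G) (i : κ') (g : G) :
    (inL (κ' := κ') x) (Sum.inr i, g) = 0 := by
  unfold inL
  rw [mulR_apply]
  exact ev_zero _ _

@[simp] lemma inR_inr (x : L2 κ' G) (i : κ') (g : G) :
    (inR (κ := κ) x) (Sum.inr i, g) = x (i, g) := by
  unfold inR
  rw [mulR_apply]
  show ev (Finsupp.single (i, (1 : G)) 1) x g = _
  rw [ev_single]
  simp

@[simp] lemma inR_inl (x : L2 κ' G) (i : κ) (g : G) :
    (inR (κ := κ) x) (Sum.inl i, g) = 0 := by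
  unfold inR
  rw [mulR_apply]
  exact ev_zero _ _

@[simp] lemma prL_inL (x : L2 κ G) : prL (inL (κ' := κ') x) = x := by
  ext ⟨i, g⟩
  rw [prL_apply, inL_inl]

@[simp] lemma prR_inR (x : L2 κ' G) : prR (inR (κ := κ) x) = x := by
  ext ⟨i, g⟩
  rw [prR_apply, inR_inr]

@[simp] lemma prL_inR (x : L2 κ' G) : prL (inR (κ := κ) x) = 0 := by
  ext ⟨i, g⟩
  rw [prL_apply, inR_inl]
  rfl

@[simp] lemma prR_inL (x : L2 κ G) : prR (inL (κ' := κ') x) = 0 := by
  ext ⟨i, g⟩
  rw [prR_apply, inL_inr]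
  rfl

lemma inL_prL_add (x : L2 (κ ⊕ κ') G) : inL (prL x) + inR (prR x) = x := by
  ext ⟨i, g⟩
  rw [lp.coeFn_add, Pi.add_apply]
  rcases i with i | i
  · rw [inL_inl, inR_inl, prL_apply, add_zero]
  · rw [inL_inr, inR_inr, prR_apply, zero_add]

lemma LocOp.prL (lab : κ → M) (lab' : κ' → M) :
    LocOp k (Sum.elim lab lab') lab (prL : L2 (κ ⊕ κ') G →L[ℂ] L2 κ G) :=
  LocOp.crd _ _ fun _ _ => rfl

lemma LocOp.prR (lab : κ → M) (lab' : κ' → M) :
    LocOp k (Sum.elim lab lab') lab' (prR : L2 (κ ⊕ κ') G →L[ℂ] L2 κ' G) :=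
  LocOp.crd _ _ fun _ _ => rfl

lemma LocOp.inL (lab : κ → M) (lab' : κ' → M) :
    LocOp k lab (Sum.elim lab lab') (inL : L2 κ G →L[ℂ] L2 (κ ⊕ κ') G) := by
  refine ⟨_, ?_, ?_, rfl⟩
  · rintro (i | i) p
    · exact coefIn_single k _ _ k.one_mem p
    · show (0 : κ × G →₀ ℂ) p ∈ k
      rw [Finsupp.coe_zero, Pi.zero_apply]
      exact k.zero_mem
  · rintro (i | i) p hp
    · have h1 := Finset.mem_singleton.mp (Finsupp.support_single_subset hp)
      subst h1
      simp
    · simp at hp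

lemma LocOp.inR (lab : κ → M) (lab' : κ' → M) :
    LocOp k lab' (Sum.elim lab lab') (inR : L2 κ' G →L[ℂ] L2 (κ ⊕ κ') G) := by
  refine ⟨_, ?_, ?_, rfl⟩
  · rintro (i | i) p
    · show (0 : κ' × G →₀ ℂ) p ∈ k
      rw [Finsupp.coe_zero, Pi.zero_apply]
      exact k.zero_mem
    · exact coefIn_single k _ _ k.one_mem p
  · rintro (i | i) p hp
    · simp at hp
    · have h1 := Finset.mem_singleton.mp (Finsupp.support_single_subset hp)
      subst h1
      simp

/-- two operators together -/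
def pairOp (S : L2 ι G →L[ℂ] L2 κ G) (T : L2 ι G →L[ℂ] L2 κ' G) :
    L2 ι G →L[ℂ] L2 (κ ⊕ κ') G := inL ∘L S + inR ∘L T

lemma kr_pairOp (S : L2 ι G →L[ℂ] L2 κ G) (T : L2 ι G →L[ℂ] L2 κ' G) :
    kr (pairOp S T) = kr S ⊓ kr T := by
  ext x
  rw [Submodule.mem_inf, mem_kr, mem_kr, mem_kr]
  unfold pairOp
  rw [_root_.add_apply, ContinuousLinearMap.comp_apply, ContinuousLinearMap.comp_apply]
  constructor
  · intro h
    constructor
    · have := congrArg (fun y => prL y) h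
      simpa using this
    · have := congrArg (fun y => prR y) h
      simpa using this
  · rintro ⟨h1, h2⟩
    rw [h1, h2, map_zero, map_zero, add_zero]

lemma LocOp.pairOp {lab : ι → M} {lab1 : κ → M} {lab2 : κ' → M} {S : L2 ι G →L[ℂ] L2 κ G}
    {T : L2 ι G →L[ℂ] L2 κ' G} (hS : LocOp k lab lab1 S) (hT : LocOp k lab lab2 T) :
    LocOp k lab (Sum.elim lab1 lab2) (pairOp S T) :=
  ((LocOp.inL lab1 lab2).comp hS).add ((LocOp.inR lab1 lab2).comp hT)

end Sum

end Pool.Agent.LFT
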